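import Mathlib

open Set Filter Topology
open scoped RealInnerProductSpace ContDiff

noncomputable section

namespace Pool.Agent.Helper10.NCP

/-! ### Submanifolds, closed surfaces, genus -/

section general

variable {E : Type} [NormedAddCommGroup E] [NormedSpace ℝ E]

/-- `N` is an embedded smooth submanifold of `E` of dimension `d`: near each of its points it is
the zero set of a smooth map to `ℝ^m`, `m + d = dim E`, whose derivative is surjective. -/
def IsSubmanifold (N : Set E) (d : ℕ) : Prop :=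
  ∀ x ∈ N, ∃ (m : ℕ) (U : Set E) (f : E → EuclideanSpace ℝ (Fin m)), m + d = Module.finrank ℝ E ∧
    IsOpen U ∧ x ∈ U ∧ ContDiffOn ℝ ∞ f U ∧ (∀ y ∈ U, y ∈ N ↔ f y = 0) ∧
    ∀ y ∈ U, Function.Surjective (fderiv ℝ f y)

/-- The tangent space of `N` at `x`: velocities of curves in `N` through `x`. -/
def tangent (N : Set E) (x : E) : Set E :=
  {v | ∃ c : ℝ → E, (∀ s, c s ∈ N) ∧ c 0 = x ∧ HasDerivAt c v 0}

/-- The surface `M` is orientable: it has a continuous nowhere vanishing `2`-form. -/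
def IsOrientable (M : Set E) : Prop :=
  ∃ vol : E → E →L[ℝ] E →L[ℝ] ℝ, ContinuousOn vol M ∧
    ∀ x ∈ M, ∀ v ∈ tangent M x, ∀ w ∈ tangent M x,
      vol x v w = -vol x w v ∧ (LinearIndependent ℝ ![v, w] → vol x v w ≠ 0)

/-- `M` is a closed orientable surface. -/
def IsClosedSurface (M : Set E) : Prop :=
  IsCompact M ∧ IsConnected M ∧ IsSubmanifold M 2 ∧ IsOrientable M

/-- The `1`-form `η` on `M` is closed: locally it is the differential of a smooth function. -/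
def IsClosedForm (M : Set E) (η : E → E →L[ℝ] ℝ) : Prop :=
  ∀ x ∈ M, ∃ (U : Set E) (f : E → ℝ), IsOpen U ∧ x ∈ U ∧ ContDiffOn ℝ ∞ f U ∧
    ∀ y ∈ M ∩ U, ∀ v ∈ tangent M y, η y v = fderiv ℝ f y v

/-- The `1`-form `η` on `M` is exact: it is the differential of a smooth function on `M`. -/
def IsExactForm (M : Set E) (η : E → E →L[ℝ] ℝ) : Prop :=
  ∃ (U : Set E) (f : E → ℝ), IsOpen U ∧ M ⊆ U ∧ ContDiffOn ℝ ∞ f U ∧
    ∀ y ∈ M, ∀ v ∈ tangent M y, η y v = fderiv ℝ f y v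

/-- The first Betti number of `M` is at least `k`: there are `k` closed `1`-forms on `M` which are
linearly independent modulo exact forms. -/
def BettiAtLeast (M : Set E) (k : ℕ) : Prop :=
  ∃ η : Fin k → E → E →L[ℝ] ℝ, (∀ i, IsClosedForm M (η i)) ∧
    ∀ c : Fin k → ℝ, IsExactForm M (fun x => ∑ i, c i • η i x) → c = 0

/-- The closed orientable surface `M` has genus at least `2`: as its first Betti number is twice
its genus, this means that its first Betti number is greater than `2`. -/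
def GenusAtLeastTwo (M : Set E) : Prop := BettiAtLeast M 3

/-! ### Riemannian metrics induced by immersions in a Euclidean space, conjugate points -/

variable {W : Type} [NormedAddCommGroup W] [InnerProductSpace ℝ W]

/-- The smooth map `ι` is an immersion of the submanifold `P` in the Euclidean space `W`. It
induces the Riemannian metric `g(v, w) = ⟪dι v, dι w⟫` on `P`. -/
def IsImmersionOn (P : Set E) (ι : E → W) : Prop :=
  ContDiff ℝ ∞ ι ∧ ∀ x ∈ P, ∀ v ∈ tangent P x, fderiv ℝ ι x v = 0 → v = 0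

/-- Geodesics of `P`, with the Riemannian metric induced by the immersion `ι`: smooth curves in `P`
whose acceleration in `W` is orthogonal to `P`. -/
def IsGeodesic (P : Set E) (ι : E → W) (c : ℝ → E) : Prop :=
  ContDiff ℝ ∞ c ∧ (∀ t, c t ∈ P) ∧
    ∀ t, ∀ v ∈ tangent P (c t), ⟪deriv (deriv (ι ∘ c)) t, fderiv ℝ ι (c t) v⟫ = 0

/-- `P`, with the Riemannian metric induced by the immersion `ι`, has no conjugate points: if a
Jacobi field (the variation field of a family of geodesics) vanishes at two distinct points, then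
it vanishes identically. -/
def NoConjugatePoints (P : Set E) (ι : E → W) : Prop :=
  ∀ Γ : ℝ × ℝ → E, ContDiff ℝ ∞ Γ → (∀ s, IsGeodesic P ι fun t => Γ (s, t)) →
    ∀ a b, a ≠ b → fderiv ℝ Γ (0, a) (1, 0) = 0 → fderiv ℝ Γ (0, b) (1, 0) = 0 →
      ∀ t, fderiv ℝ Γ (0, t) (1, 0) = 0

/-- The circle `S¹ = ℝ/ℤ`, in the plane. -/
def circ : Set (ℝ × ℝ) := {q | q.1 ^ 2 + q.2 ^ 2 = 1}

/-- The covering map `M × ℝ → M × S¹`, `(x, t) ↦ (x, t mod 1)`. -/
def cov (x : E × ℝ) : E × (ℝ × ℝ) :=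
  (x.1, (Real.cos (2 * Real.pi * x.2), Real.sin (2 * Real.pi * x.2)))

/-- `M × ℝ`, with the Riemannian metric induced by the immersion `κ`, is a Riemannian direct
product: there are a Riemannian metric `g₁` on `M` and a diffeomorphism `Ψ` of `M × ℝ` (with
inverse `Φ`) which is an isometry from `(M, g₁) × (ℝ, dt²)` to `M × ℝ` with this metric. -/
def IsRiemannianProduct (M : Set E) (κ : E × ℝ → W) : Prop :=
  ∃ (g₁ : E → E →L[ℝ] E →L[ℝ] ℝ) (Ψ Φ : E × ℝ → E × ℝ),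
    (ContDiff ℝ ∞ g₁ ∧ ∀ p ∈ M, ∀ v ∈ tangent M p,
      (∀ w ∈ tangent M p, g₁ p v w = g₁ p w v) ∧ (v ≠ 0 → 0 < g₁ p v v)) ∧
    (ContDiff ℝ ∞ Ψ ∧ ContDiff ℝ ∞ Φ ∧ MapsTo Ψ (M ×ˢ univ) (M ×ˢ univ) ∧
      MapsTo Φ (M ×ˢ univ) (M ×ˢ univ) ∧ (∀ x ∈ M ×ˢ univ, Φ (Ψ x) = x) ∧
      ∀ x ∈ M ×ˢ univ, Ψ (Φ x) = x) ∧
    ∀ p ∈ M, ∀ t : ℝ, ∀ v ∈ tangent M p, ∀ r : ℝ,
      ‖fderiv ℝ (κ ∘ Ψ) (p, t) (v, r)‖ ^ 2 = g₁ p v v + r ^ 2

end general

/-! ### The example -/

/-- The vector space which contains the surface `surf`. -/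
abbrev V : Type := (Fin 3 → ℝ) × (Fin 3 → ℝ)

/-- The surface `cos θ₀ + cos θ₁ + cos θ₂ = 0` in the flat torus `T³`, `(cos θₖ, sin θₖ) = (p.1 k,
p.2 k)`. -/
def surf : Set V := {p | (∀ k, p.1 k ^ 2 + p.2 k ^ 2 = 1) ∧ ∑ k, p.1 k = 0}

/-- The immersion of `surf × S¹` in `ℝ¹⁰`. -/
def imm (x : V × (ℝ × ℝ)) : EuclideanSpace ℝ (Fin 10) :=
  !₂[√(√2 - 1) * x.1.1 0, √(√2 - 1) * x.1.2 0, x.1.1 1, x.1.2 1, x.1.1 2, x.1.2 2, x.2.1, x.2.2,
    √(√2) * (x.1.1 0 * x.2.1 - x.1.2 0 * x.2.2), √(√2) * (x.1.1 0 * x.2.2 + x.1.2 0 * x.2.1)]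


end Pool.Agent.Helper10.NCP
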