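import Mathlib
import Pool.Agent.Helper10.NCP.Defs

open Set Filter Topology
open scoped RealInnerProductSpace ContDiff

noncomputable section

namespace Pool.Agent.Helper10.NCP

/-! ### Auxiliary definitions -/

/-- The angular velocity of the `k`-th coordinate. -/
def ang (k : Fin 3) (x w : V × (ℝ × ℝ)) : ℝ := x.1.1 k * w.1.2 k - x.1.2 k * w.1.1 k

/-- The vertical component. -/
def ver (x w : V × (ℝ × ℝ)) : ℝ :=
  √(1 + √2) * ((x.2.1 * w.2.2 - x.2.2 * w.2.1) + (2 - √2) * ang 0 x w)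

/-- The linearised equations of `surf`. -/
def LinS (p v : V) : Prop := (∀ k, p.1 k * v.1 k + p.2 k * v.2 k = 0) ∧ ∑ k, v.1 k = 0

/-- The linearised equations of `surf × circ`. -/
def Lin (x w : V × (ℝ × ℝ)) : Prop := LinS x.1 w.1 ∧ x.2.1 * w.2.1 + x.2.2 * w.2.2 = 0

/-- Existence of global-in-`ℝ²` immersive local parametrizations. -/
def HasParam {E : Type} [NormedAddCommGroup E] [NormedSpace ℝ E] (M : Set E) : Prop :=
  ∀ p ∈ M, ∃ φ : ℝ × ℝ → E, ContDiff ℝ ∞ φ ∧ (∀ r, φ r ∈ M) ∧ φ 0 = p ∧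
    (∀ r u, fderiv ℝ φ r u = 0 → u = 0) ∧
    (∀ r, ∀ v ∈ tangent M (φ r), ∃ u, fderiv ℝ φ r u = v) ∧
    ∀ᶠ x in 𝓝 p, x ∈ M → x ∈ Set.range φ

/-- Functions `a k`, `b k` (cosines and sines of three angles with `∑ cos = 0`), the differentials
`A k` of the angles and one more closed form `U` on a vector space `X`. -/
structure Frame {X : Type} [NormedAddCommGroup X] [NormedSpace ℝ X] (a b : Fin 3 → X → ℝ)
    (A : Fin 3 → X → X → ℝ) (U : X → X → ℝ) : Prop where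
  sm_a : ∀ k, ContDiff ℝ ∞ (a k)
  sm_b : ∀ k, ContDiff ℝ ∞ (b k)
  sm_A : ∀ k e, ContDiff ℝ ∞ fun x => A k x e
  sm_U : ∀ e, ContDiff ℝ ∞ fun x => U x e
  add_A : ∀ k x e e', A k x (e + e') = A k x e + A k x e'
  smul_A : ∀ k x (r : ℝ) e, A k x (r • e) = r * A k x e
  add_U : ∀ x e e', U x (e + e') = U x e + U x e'
  smul_U : ∀ x (r : ℝ) e, U x (r • e) = r * U x e
  sq : ∀ k x, a k x ^ 2 + b k x ^ 2 = 1
  sum : ∀ x, ∑ k, a k x = 0
  da : ∀ k x e, fderiv ℝ (a k) x e = -(b k x * A k x e)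
  db : ∀ k x e, fderiv ℝ (b k) x e = a k x * A k x e
  orth : ∀ x e, ∑ k, b k x * A k x e = 0
  cl_A : ∀ k x e e', fderiv ℝ (fun y => A k y e) x e' = fderiv ℝ (fun y => A k y e') x e
  cl_U : ∀ x e e', fderiv ℝ (fun y => U y e) x e' = fderiv ℝ (fun y => U y e') x e


end Pool.Agent.Helper10.NCP
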