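import Mathlib
import Pool.Agent.Helper10.NCP.Base

open Set Filter Topology
open scoped RealInnerProductSpace ContDiff

noncomputable section

namespace Pool.Agent.Helper10.NCP

/-- Rotation of `q` by the angle `t`. -/
def rot (q : ℝ × ℝ) (t : ℝ) : ℝ × ℝ :=
  (q.1 * Real.cos t - q.2 * Real.sin t, q.2 * Real.cos t + q.1 * Real.sin t)

/-- Existence of immersive local parametrizations which are open onto neighbourhoods. -/
def HasParam2 {E : Type} [NormedAddCommGroup E] [NormedSpace ℝ E] (M : Set E) : Prop :=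
  ∀ p ∈ M, ∃ φ : ℝ × ℝ → E, ContDiff ℝ ∞ φ ∧ (∀ r, φ r ∈ M) ∧ φ 0 = p ∧
    (∀ r u, fderiv ℝ φ r u = 0 → u = 0) ∧
    (∀ r, ∀ v ∈ tangent M (φ r), ∃ u, fderiv ℝ φ r u = v) ∧ 𝓝[M] p ≤ Filter.map φ (𝓝 0)

end Pool.Agent.Helper10.NCP
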