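import Mathlib
import Pool.Agent.Helper10.NCP.Defs

open Set Filter Topology
open scoped RealInnerProductSpace ContDiff

noncomputable section

namespace Pool.Agent.Helper10.NCP

variable {E : Type} [NormedAddCommGroup E] [NormedSpace ℝ E]
variable {W : Type} [NormedAddCommGroup W] [InnerProductSpace ℝ W]

/-- Some covering space of `P`, with the Riemannian metric induced by the immersion `ι`, is a
Riemannian direct product of a closed surface and a line: there are a closed (compact, connected,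
not necessarily orientable) surface `N`, a Riemannian metric `g₁` on `N` and a local isometry `π`
from `(N, g₁) × (ℝ, dt²)` to `P`. -/
def IsCoveredByProduct (P : Set E) (ι : E → W) : Prop :=
  ∃ (F : Type) (_ : NormedAddCommGroup F) (_ : NormedSpace ℝ F) (_ : FiniteDimensional ℝ F)
    (N : Set F) (g₁ : F → F →L[ℝ] F →L[ℝ] ℝ) (π : F × ℝ → E),
    (IsCompact N ∧ IsConnected N ∧ IsSubmanifold N 2) ∧
    (ContDiff ℝ ∞ g₁ ∧ ∀ p ∈ N, ∀ v ∈ tangent N p,
      (∀ w ∈ tangent N p, g₁ p v w = g₁ p w v) ∧ (v ≠ 0 → 0 < g₁ p v v)) ∧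
    (ContDiff ℝ ∞ π ∧ MapsTo π (N ×ˢ univ) P) ∧
    ∀ p ∈ N, ∀ t : ℝ, ∀ v ∈ tangent N p, ∀ r : ℝ,
      ‖fderiv ℝ (ι ∘ π) (p, t) (v, r)‖ ^ 2 = g₁ p v v + r ^ 2

end Pool.Agent.Helper10.NCP
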