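import Mathlib
import Pool.Agent.Helper10.NCP.Base

open Set Filter Topology
open scoped RealInnerProductSpace ContDiff

noncomputable section

namespace Pool.Agent.Helper10.NCP

namespace J_den_pos


-- TARGET: prove this (put auxiliary lemmas between the ASSUMED END line and the theorem)

theorem den_pos_aux (x : ℝ) (h : x ^ 2 = 1) : x = 1 ∨ x = -1 :=
  by
  have h2 : (x - 1) * (x + 1) = 0 := by ring_nf; linarith
  rcases mul_eq_zero.mp h2 with h3 | h3
  · left; linarith
  · right; linarith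

theorem den_pos (a b : Fin 3 → ℝ) (sq : ∀ k, a k ^ 2 + b k ^ 2 = 1) (sum : ∑ k, a k = 0) :
    0 < ∑ k, b k ^ 2 := by
  rw [Fin.sum_univ_three] at sum ⊢
  have s0 := sq 0
  have s1 := sq 1
  have s2 := sq 2
  by_contra hneg
  rw [not_lt] at hneg
  have h0 : b 0 ^ 2 = 0 := by nlinarith [sq_nonneg (b 0), sq_nonneg (b 1), sq_nonneg (b 2)]
  have h1 : b 1 ^ 2 = 0 := by nlinarith [sq_nonneg (b 0), sq_nonneg (b 1), sq_nonneg (b 2)]
  have h2 : b 2 ^ 2 = 0 := by nlinarith [sq_nonneg (b 0), sq_nonneg (b 1), sq_nonneg (b 2)]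
  have e0 : a 0 = 1 ∨ a 0 = -1 := den_pos_aux (a 0) (by linarith)
  have e1 : a 1 = 1 ∨ a 1 = -1 := den_pos_aux (a 1) (by linarith)
  have e2 : a 2 = 1 ∨ a 2 = -1 := den_pos_aux (a 2) (by linarith)
  rcases e0 with e0 | e0 <;> rcases e1 with e1 | e1 <;> rcases e2 with e2 | e2 <;>
    rw [e0, e1, e2] at sum <;> norm_num at sum


end J_den_pos

alias den_pos := J_den_pos.den_pos

end Pool.Agent.Helper10.NCP
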