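import Mathlib
import Pool.Agent.Helper10.NCP.Base
import Pool.Agent.Helper10.NCP.J_den_pos

open Set Filter Topology
open scoped RealInnerProductSpace ContDiff

noncomputable section

namespace Pool.Agent.Helper10.NCP

namespace J_lin_surj


-- TARGET: prove this (put auxiliary lemmas between the ASSUMED END line and the theorem)

theorem lin_surj {p : V} (hp : p ∈ surf) (L : ℝ × ℝ →L[ℝ] V) (inj : ∀ u, L u = 0 → u = 0)
    (hL : ∀ u, LinS p (L u)) {v : V} (hv : LinS p v) : ∃ u, L u = v := by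
  have hden := den_pos p.1 p.2 hp.1 hp.2
  let φ : (Fin 3 → ℝ) →ₗ[ℝ] ℝ :=
    { toFun := fun y => ∑ k, p.2 k * y k
      map_add' := fun x y => by
        simp only [Pi.add_apply, mul_add, Finset.sum_add_distrib]
      map_smul' := fun r x => by
        simp only [Pi.smul_apply, smul_eq_mul, RingHom.id_apply, Finset.mul_sum]
        exact Finset.sum_congr rfl fun k _ => by ring }
  let Y : V →ₗ[ℝ] (Fin 3 → ℝ) :=
    { toFun := fun v k => p.1 k * v.2 k - p.2 k * v.1 k
      map_add' := fun x y => by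
        funext k
        simp only [Prod.fst_add, Prod.snd_add, Pi.add_apply]
        ring
      map_smul' := fun r x => by
        funext k
        simp only [Prod.smul_fst, Prod.smul_snd, Pi.smul_apply, smul_eq_mul, RingHom.id_apply]
        ring }
  have hYapp : ∀ (w : V) k, Y w k = p.1 k * w.2 k - p.2 k * w.1 k := fun _ _ => rfl
  have hφapp : ∀ y, φ y = ∑ k, p.2 k * y k := fun _ => rfl
  have h1 : ∀ w : V, LinS p w → ∀ k, w.1 k = -(p.2 k * Y w k) := by
    intro w hw k
    have e1 := hw.1 k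
    have e2 := hp.1 k
    rw [hYapp]
    linear_combination (-(w.1 k)) * e2 + p.1 k * e1
  have h2 : ∀ w : V, LinS p w → ∀ k, w.2 k = p.1 k * Y w k := by
    intro w hw k
    have e1 := hw.1 k
    have e2 := hp.1 k
    rw [hYapp]
    linear_combination (-(w.2 k)) * e2 + p.2 k * e1
  have hker : ∀ w : V, LinS p w → Y w ∈ LinearMap.ker φ := by
    intro w hw
    rw [LinearMap.mem_ker, hφapp]
    have e1 := hw.2
    have e2 : ∑ k, w.1 k = -∑ k, p.2 k * Y w k := by
      rw [← Finset.sum_neg_distrib]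
      exact Finset.sum_congr rfl fun k _ => h1 w hw k
    linarith
  let T : ℝ × ℝ →ₗ[ℝ] LinearMap.ker φ :=
    (Y.comp (L : ℝ × ℝ →ₗ[ℝ] V)).codRestrict (LinearMap.ker φ) fun u => hker _ (hL u)
  have hTapp : ∀ u, (T u : Fin 3 → ℝ) = Y (L u) := fun _ => rfl
  have hTinj : Function.Injective T := by
    rw [injective_iff_map_eq_zero]
    intro u hu
    have e1 : Y (L u) = 0 := by rw [← hTapp, hu]; rfl
    apply inj
    refine Prod.ext ?_ ?_
    · funext k
      rw [h1 _ (hL u) k, e1]
      simp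
    · funext k
      rw [h2 _ (hL u) k, e1]
      simp
  have hφsurj : LinearMap.range φ = ⊤ := by
    rw [LinearMap.range_eq_top]
    intro r
    refine ⟨(r / ∑ k, p.2 k ^ 2) • p.2, ?_⟩
    rw [map_smul, hφapp, smul_eq_mul]
    have e1 : ∑ k, p.2 k * p.2 k = ∑ k, p.2 k ^ 2 := Finset.sum_congr rfl fun k _ => by ring
    rw [e1, div_mul_cancel₀ _ hden.ne']
  have hfin : Module.finrank ℝ (ℝ × ℝ) = Module.finrank ℝ (LinearMap.ker φ) := by
    have e1 := LinearMap.finrank_range_add_finrank_ker φ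
    rw [hφsurj, finrank_top, Module.finrank_self, Module.finrank_fin_fun] at e1
    have e2 : Module.finrank ℝ (ℝ × ℝ) = 2 := by simp
    omega
  have hTsurj : Function.Surjective T :=
    (LinearMap.injective_iff_surjective_of_finrank_eq_finrank hfin).1 hTinj
  obtain ⟨u, hu⟩ := hTsurj ⟨Y v, hker v hv⟩
  have e1 : Y (L u) = Y v := by rw [← hTapp, hu]
  refine ⟨u, Prod.ext ?_ ?_⟩
  · funext k
    rw [h1 _ (hL u) k, h1 _ hv k, e1]
  · funext k
    rw [h2 _ (hL u) k, h2 _ hv k, e1]


end J_lin_surj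

alias lin_surj := J_lin_surj.lin_surj

end Pool.Agent.Helper10.NCP
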