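import Mathlib
import Pool.Agent.Helper10.NCP.Base

open Set Filter Topology
open scoped RealInnerProductSpace ContDiff

noncomputable section

namespace Pool.Agent.Helper10.NCP

namespace J_circ_param


-- TARGET: prove this (put auxiliary lemmas between the ASSUMED END line and the theorem)

theorem circ_param (a b : ℝ) (h : a ^ 2 + b ^ 2 = 1) (ε : ℝ) (hε : 0 < ε) :
    ∃ A B : ℝ → ℝ, ContDiff ℝ ∞ A ∧ ContDiff ℝ ∞ B ∧ A 0 = a ∧ B 0 = b ∧
      (∀ r, A r ^ 2 + B r ^ 2 = 1) ∧ (∀ r, |A r - a| < ε) ∧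
      (∀ r, ∃ ρ, ρ ≠ 0 ∧ HasDerivAt A (-(ρ * B r)) r ∧ HasDerivAt B (ρ * A r) r) ∧
      ∀ᶠ x : ℝ × ℝ in 𝓝 (a, b), x.1 ^ 2 + x.2 ^ 2 = 1 → ∃ r, A r = x.1 ∧ B r = x.2 := by
  have hκ : ∃ κ : ℝ, 0 < κ ∧ κ ≤ ε / 8 ∧ κ ≤ 1 / 2 :=
    ⟨min (ε / 8) (1 / 2), by positivity, min_le_left _ _, min_le_right _ _⟩
  obtain ⟨κ, hκ0, hκε, hκ1⟩ := hκ
  have hpi4 : Real.pi < 4 := by have := Real.pi_lt_d2; linarith
  have hpi0 : 0 < Real.pi := Real.pi_pos
  have ha1 : |a| ≤ 1 := by
    rw [← Real.sqrt_sq_eq_abs]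
    exact Real.sqrt_le_one.2 (by nlinarith [sq_nonneg b])
  have hb1 : |b| ≤ 1 := by
    rw [← Real.sqrt_sq_eq_abs]
    exact Real.sqrt_le_one.2 (by nlinarith [sq_nonneg a])
  refine ⟨fun r => a * Real.cos (κ * Real.arctan r) - b * Real.sin (κ * Real.arctan r),
    fun r => b * Real.cos (κ * Real.arctan r) + a * Real.sin (κ * Real.arctan r),
    ?_, ?_, ?_, ?_, ?_, ?_, ?_, ?_⟩
  · exact (contDiff_const.mul (Real.contDiff_cos.comp (contDiff_const.mul Real.contDiff_arctan))).sub
      (contDiff_const.mul (Real.contDiff_sin.comp (contDiff_const.mul Real.contDiff_arctan)))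
  · exact (contDiff_const.mul (Real.contDiff_cos.comp (contDiff_const.mul Real.contDiff_arctan))).add
      (contDiff_const.mul (Real.contDiff_sin.comp (contDiff_const.mul Real.contDiff_arctan)))
  · simp
  · simp
  · intro r
    have := Real.sin_sq_add_cos_sq (κ * Real.arctan r)
    simp only
    linear_combination h + (a ^ 2 + b ^ 2) * this
  · intro r
    simp only
    set t := κ * Real.arctan r with ht
    have hat : |Real.arctan r| < Real.pi / 2 :=
      abs_lt.2 ⟨Real.neg_pi_div_two_lt_arctan r, Real.arctan_lt_pi_div_two r⟩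
    have htb : |t| < κ * (Real.pi / 2) := by
      rw [ht, abs_mul, abs_of_pos hκ0]
      exact mul_lt_mul_of_pos_left hat hκ0
    have ht1 : |t| ≤ 1 := by nlinarith
    have hc : |Real.cos t - 1| ≤ |t| := by
      have h1 := Real.one_sub_sq_div_two_le_cos (x := t)
      have h2 := Real.cos_le_one t
      rw [abs_le]
      have h3 : t ^ 2 = |t| ^ 2 := (sq_abs t).symm
      have h4 := abs_nonneg t
      constructor
      · nlinarith
      · linarith
    have hs : |Real.sin t| ≤ |t| := Real.abs_sin_le_abs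
    have e1 : a * Real.cos t - b * Real.sin t - a = a * (Real.cos t - 1) - b * Real.sin t := by ring
    rw [e1]
    calc |a * (Real.cos t - 1) - b * Real.sin t| ≤ |a * (Real.cos t - 1)| + |b * Real.sin t| :=
          abs_sub _ _
      _ = |a| * |Real.cos t - 1| + |b| * |Real.sin t| := by rw [abs_mul, abs_mul]
      _ ≤ 1 * |t| + 1 * |t| := by gcongr
      _ < ε := by nlinarith
  · intro r
    refine ⟨κ * (1 / (1 + r ^ 2)), by positivity, ?_, ?_⟩
    · have h1 : HasDerivAt (fun r => κ * Real.arctan r) (κ * (1 / (1 + r ^ 2))) r :=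
        (Real.hasDerivAt_arctan r).const_mul κ
      have h2 := (h1.cos.const_mul a).sub (h1.sin.const_mul b)
      refine HasDerivAt.congr_deriv h2 ?_
      simp only
      ring
    · have h1 : HasDerivAt (fun r => κ * Real.arctan r) (κ * (1 / (1 + r ^ 2))) r :=
        (Real.hasDerivAt_arctan r).const_mul κ
      have h2 := (h1.cos.const_mul b).add (h1.sin.const_mul a)
      refine HasDerivAt.congr_deriv h2 ?_
      simp only
      ring
  · have hcont1 : Continuous fun x : ℝ × ℝ => a * x.1 + b * x.2 := by fun_prop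
    have hcont2 : Continuous fun x : ℝ × ℝ => Real.arcsin (a * x.2 - b * x.1) :=
      Real.continuous_arcsin.comp (by fun_prop)
    have e1 : ∀ᶠ x : ℝ × ℝ in 𝓝 (a, b), 0 < a * x.1 + b * x.2 := by
      refine hcont1.continuousAt.eventually (lt_mem_nhds ?_)
      simp only
      nlinarith
    have e2 : ∀ᶠ x : ℝ × ℝ in 𝓝 (a, b), |Real.arcsin (a * x.2 - b * x.1)| < κ * (Real.pi / 2) := by
      refine hcont2.abs.continuousAt.eventually (gt_mem_nhds ?_)
      simp only
      have h0 : a * b - b * a = 0 := by ring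
      rw [h0, Real.arcsin_zero, abs_zero]
      positivity
    filter_upwards [e1, e2] with x hx1 hx2 hx
    set c := a * x.1 + b * x.2 with hc
    set s := a * x.2 - b * x.1 with hs
    have hcs : c ^ 2 + s ^ 2 = 1 := by
      rw [hc, hs]
      linear_combination (x.1 ^ 2 + x.2 ^ 2) * h + hx
    have hs1 : |s| ≤ 1 := by
      rw [← Real.sqrt_sq_eq_abs]
      exact Real.sqrt_le_one.2 (by nlinarith [sq_nonneg c])
    have hs2 := abs_le.1 hs1
    have hquo : |Real.arcsin s / κ| < Real.pi / 2 := by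
      rw [abs_div, abs_of_pos hκ0, div_lt_iff₀ hκ0]
      linarith
    have hq := abs_lt.1 hquo
    have harc : κ * Real.arctan (Real.tan (Real.arcsin s / κ)) = Real.arcsin s := by
      rw [Real.arctan_tan hq.1 hq.2]
      field_simp
    have hcos : Real.cos (Real.arcsin s) = c := by
      rw [Real.cos_arcsin]
      have : 1 - s ^ 2 = c ^ 2 := by linarith
      rw [this]
      exact Real.sqrt_sq hx1.le
    have hsin : Real.sin (Real.arcsin s) = s := Real.sin_arcsin hs2.1 hs2.2
    refine ⟨Real.tan (Real.arcsin s / κ), ?_, ?_⟩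
    · rw [harc, hcos, hsin, hc, hs]
      linear_combination x.1 * h
    · rw [harc, hcos, hsin, hc, hs]
      linear_combination x.2 * h


end J_circ_param

alias circ_param := J_circ_param.circ_param

end Pool.Agent.Helper10.NCP
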