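import Mathlib
import Pool.Agent.Helper10.NCP.Base
import Pool.Agent.Helper10.NCP.J_circ_param

open Set Filter Topology
open scoped RealInnerProductSpace ContDiff

noncomputable section

namespace Pool.Agent.Helper10.NCP

namespace J_param_at


-- TARGET: prove this (put auxiliary lemmas between the ASSUMED END line and the theorem)

theorem param_at_cases : ∀ i j k l : Fin 3, i ≠ j → i ≠ k → j ≠ k → l = i ∨ l = j ∨ l = k := by
  decide

theorem param_at_sum (f : Fin 3 → ℝ) (i j k : Fin 3) (hij : i ≠ j) (hik : i ≠ k) (hjk : j ≠ k) :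
    ∑ l, f l = f i + f j + f k := by
  rw [Fin.sum_univ_three]
  fin_cases i <;> fin_cases j <;> fin_cases k <;> simp_all <;> ring

theorem param_at_sgn (a x : ℝ) (ha : a ≠ 0) (h : 0 < x * a) : a / |a| * |x| = x := by
  rcases lt_or_gt_of_ne ha with h1 | h1
  · have hx : x < 0 := by
      by_contra hx
      push Not at hx
      nlinarith
    rw [abs_of_neg h1, abs_of_neg hx]
    field_simp
  · have hx : 0 < x := by
      by_contra hx
      push Not at hx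
      nlinarith
    rw [abs_of_pos h1, abs_of_pos hx]
    field_simp

theorem param_at_sgn_sq (a : ℝ) (ha : a ≠ 0) : (a / |a|) ^ 2 = 1 := by
  rw [div_pow, sq_abs]
  exact div_self (pow_ne_zero 2 ha)

/-- the parametrisation -/
def param_at_map (A₁ B₁ A₂ B₂ : ℝ → ℝ) (σ : ℝ) (i j : Fin 3) (r : ℝ × ℝ) : V :=
  (fun l => if l = i then A₁ r.1 else if l = j then A₂ r.2 else -(A₁ r.1 + A₂ r.2),
    fun l => if l = i then B₁ r.1 else if l = j then B₂ r.2 else
      σ * √(1 - (A₁ r.1 + A₂ r.2) ^ 2))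

theorem param_at_comp1 {φ : ℝ × ℝ → V} (i : Fin 3) {g : ℝ × ℝ → ℝ} (r : ℝ × ℝ)
    (hφ : DifferentiableAt ℝ φ r) (hg : ∀ x, (φ x).1 i = g x) {g' : ℝ × ℝ →L[ℝ] ℝ}
    (hg' : HasFDerivAt g g' r) (u : ℝ × ℝ) : (fderiv ℝ φ r u).1 i = g' u := by
  have h1 : HasFDerivAt φ (fderiv ℝ φ r) r := hφ.hasFDerivAt
  have h2 : HasFDerivAt (fun x => (φ x).1) ((ContinuousLinearMap.fst ℝ (Fin 3 → ℝ) (Fin 3 → ℝ)).comp
    (fderiv ℝ φ r)) r := hasFDerivAt_fst.comp r h1
  have h3 : HasFDerivAt (fun x => (φ x).1 i) ((ContinuousLinearMap.proj (R := ℝ) i).comp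
    ((ContinuousLinearMap.fst ℝ (Fin 3 → ℝ) (Fin 3 → ℝ)).comp (fderiv ℝ φ r))) r :=
    (hasFDerivAt_pi'.mp h2) i
  have h4 : (fun x => (φ x).1 i) = g := funext hg
  rw [h4] at h3
  have h5 := h3.unique hg'
  rw [← h5]
  rfl

theorem param_at_comp2 {φ : ℝ × ℝ → V} (i : Fin 3) {g : ℝ × ℝ → ℝ} (r : ℝ × ℝ)
    (hφ : DifferentiableAt ℝ φ r) (hg : ∀ x, (φ x).2 i = g x) {g' : ℝ × ℝ →L[ℝ] ℝ}
    (hg' : HasFDerivAt g g' r) (u : ℝ × ℝ) : (fderiv ℝ φ r u).2 i = g' u := by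
  have h1 : HasFDerivAt φ (fderiv ℝ φ r) r := hφ.hasFDerivAt
  have h2 : HasFDerivAt (fun x => (φ x).2) ((ContinuousLinearMap.snd ℝ (Fin 3 → ℝ) (Fin 3 → ℝ)).comp
    (fderiv ℝ φ r)) r := hasFDerivAt_snd.comp r h1
  have h3 : HasFDerivAt (fun x => (φ x).2 i) ((ContinuousLinearMap.proj (R := ℝ) i).comp
    ((ContinuousLinearMap.snd ℝ (Fin 3 → ℝ) (Fin 3 → ℝ)).comp (fderiv ℝ φ r))) r :=
    (hasFDerivAt_pi'.mp h2) i
  have h4 : (fun x => (φ x).2 i) = g := funext hg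
  rw [h4] at h3
  have h5 := h3.unique hg'
  rw [← h5]
  rfl

theorem param_at_smooth (A₁ B₁ A₂ B₂ : ℝ → ℝ) (σ : ℝ) (i j : Fin 3) (hA₁ : ContDiff ℝ ∞ A₁)
    (hB₁ : ContDiff ℝ ∞ B₁) (hA₂ : ContDiff ℝ ∞ A₂) (hB₂ : ContDiff ℝ ∞ B₂)
    (hlt : ∀ r : ℝ × ℝ, 0 < 1 - (A₁ r.1 + A₂ r.2) ^ 2) :
    ContDiff ℝ ∞ (param_at_map A₁ B₁ A₂ B₂ σ i j) := by
  have hA₁' : ContDiff ℝ ∞ (fun r : ℝ × ℝ => A₁ r.1) := hA₁.comp contDiff_fst
  have hB₁' : ContDiff ℝ ∞ (fun r : ℝ × ℝ => B₁ r.1) := hB₁.comp contDiff_fst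
  have hA₂' : ContDiff ℝ ∞ (fun r : ℝ × ℝ => A₂ r.2) := hA₂.comp contDiff_snd
  have hB₂' : ContDiff ℝ ∞ (fun r : ℝ × ℝ => B₂ r.2) := hB₂.comp contDiff_snd
  have hS : ContDiff ℝ ∞ (fun r : ℝ × ℝ => √(1 - (A₁ r.1 + A₂ r.2) ^ 2)) :=
    (contDiff_const.sub ((hA₁'.add hA₂').pow 2)).sqrt fun r => (hlt r).ne'
  unfold param_at_map
  refine ContDiff.prodMk ?_ ?_
  · rw [contDiff_pi]
    intro l
    by_cases h1 : l = i
    · simp only [h1, if_true]; exact hA₁'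
    · by_cases h2 : l = j
      · simp only [h2, if_true]
        rw [h2] at h1
        simp only [h1, if_false]
        exact hA₂'
      · simp only [h1, h2, if_false]
        exact (hA₁'.add hA₂').neg
  · rw [contDiff_pi]
    intro l
    by_cases h1 : l = i
    · simp only [h1, if_true]; exact hB₁'
    · by_cases h2 : l = j
      · simp only [h2, if_true]
        rw [h2] at h1
        simp only [h1, if_false]
        exact hB₂'
      · simp only [h1, h2, if_false]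
        exact contDiff_const.mul hS

theorem param_at {p : V} (hp : p ∈ surf) (i j k : Fin 3) (hij : i ≠ j) (hik : i ≠ k) (hjk : j ≠ k)
    (hk : p.2 k ≠ 0) : ∃ φ : ℝ × ℝ → V, ContDiff ℝ ∞ φ ∧ (∀ r, φ r ∈ surf) ∧ φ 0 = p ∧
      (∀ r u, fderiv ℝ φ r u = 0 → u = 0) ∧ ∀ᶠ x in 𝓝 p, x ∈ surf → x ∈ Set.range φ := by
  obtain ⟨hp1, hp2⟩ := hp
  have hpk := hp1 k
  have hk2 : 0 < p.2 k ^ 2 := by positivity
  have habs : |p.1 k| < 1 := by
    rw [← sq_lt_one_iff_abs_lt_one]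
    nlinarith
  obtain ⟨A₁, B₁, hA₁, hB₁, hA₁0, hB₁0, hc₁, hε₁, hd₁, hn₁⟩ := circ_param (p.1 i) (p.2 i) (hp1 i)
    ((1 - |p.1 k|) / 2) (by linarith)
  obtain ⟨A₂, B₂, hA₂, hB₂, hA₂0, hB₂0, hc₂, hε₂, hd₂, hn₂⟩ := circ_param (p.1 j) (p.2 j) (hp1 j)
    ((1 - |p.1 k|) / 2) (by linarith)
  have hsum : p.1 i + p.1 j + p.1 k = 0 := by
    rw [← param_at_sum p.1 i j k hij hik hjk]
    exact hp2
  have hlt : ∀ r : ℝ × ℝ, 0 < 1 - (A₁ r.1 + A₂ r.2) ^ 2 := by
    intro r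
    have h1 := abs_lt.mp (hε₁ r.1)
    have h2 := abs_lt.mp (hε₂ r.2)
    have h3 := neg_abs_le (p.1 k)
    have h4 := le_abs_self (p.1 k)
    have h5 : |A₁ r.1 + A₂ r.2| < 1 := by
      rw [abs_lt]
      constructor <;> linarith
    rw [← sq_lt_one_iff_abs_lt_one] at h5
    nlinarith
  set σ := p.2 k / |p.2 k| with hσ
  have hσ2 : σ ^ 2 = 1 := param_at_sgn_sq _ hk
  have hki : k ≠ i := hik.symm
  have hkj : k ≠ j := hjk.symm
  have hji : j ≠ i := hij.symm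
  have hsmooth := param_at_smooth A₁ B₁ A₂ B₂ σ i j hA₁ hB₁ hA₂ hB₂ hlt
  have e1i : ∀ r, (param_at_map A₁ B₁ A₂ B₂ σ i j r).1 i = A₁ r.1 := fun r => by
    simp [param_at_map]
  have e1j : ∀ r, (param_at_map A₁ B₁ A₂ B₂ σ i j r).1 j = A₂ r.2 := fun r => by
    simp [param_at_map, hji]
  have e1k : ∀ r, (param_at_map A₁ B₁ A₂ B₂ σ i j r).1 k = -(A₁ r.1 + A₂ r.2) := fun r => by
    simp only [param_at_map, hki, hkj, if_false]
  have e2i : ∀ r, (param_at_map A₁ B₁ A₂ B₂ σ i j r).2 i = B₁ r.1 := fun r => by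
    simp [param_at_map]
  have e2j : ∀ r, (param_at_map A₁ B₁ A₂ B₂ σ i j r).2 j = B₂ r.2 := fun r => by
    simp [param_at_map, hji]
  have e2k : ∀ r, (param_at_map A₁ B₁ A₂ B₂ σ i j r).2 k = σ * √(1 - (A₁ r.1 + A₂ r.2) ^ 2) :=
    fun r => by simp only [param_at_map, hki, hkj, if_false]
  refine ⟨param_at_map A₁ B₁ A₂ B₂ σ i j, hsmooth, ?_, ?_, ?_, ?_⟩
  · intro r
    refine ⟨fun l => ?_, ?_⟩
    · rcases param_at_cases i j k l hij hik hjk with rfl | rfl | rfl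
      · rw [e1i, e2i]; exact hc₁ _
      · rw [e1j, e2j]; exact hc₂ _
      · rw [e1k, e2k, mul_pow, hσ2, Real.sq_sqrt (hlt r).le]; ring
    · rw [param_at_sum _ i j k hij hik hjk, e1i, e1j, e1k]; ring
  · refine Prod.ext (funext fun l => ?_) (funext fun l => ?_)
    · rcases param_at_cases i j k l hij hik hjk with rfl | rfl | rfl
      · rw [e1i]; exact hA₁0
      · rw [e1j]; exact hA₂0
      · rw [e1k]
        have h1 : A₁ (0 : ℝ × ℝ).1 = p.1 i := hA₁0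
        have h2 : A₂ (0 : ℝ × ℝ).2 = p.1 j := hA₂0
        rw [h1, h2]; linarith
    · rcases param_at_cases i j k l hij hik hjk with rfl | rfl | rfl
      · rw [e2i]; exact hB₁0
      · rw [e2j]; exact hB₂0
      · rw [e2k]
        have h1 : A₁ (0 : ℝ × ℝ).1 = p.1 i := hA₁0
        have h2 : A₂ (0 : ℝ × ℝ).2 = p.1 j := hA₂0
        have h3 : 1 - (A₁ (0 : ℝ × ℝ).1 + A₂ (0 : ℝ × ℝ).2) ^ 2 = (p.2 l) ^ 2 := by
          rw [h1, h2]
          have : p.1 i + p.1 j = -p.1 l := by linarith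
          rw [this]
          linarith [hp1 l, neg_sq (p.1 l)]
        rw [h3, Real.sqrt_sq_eq_abs]
        exact param_at_sgn _ _ hk (by nlinarith)
  · intro r u hu
    have hdiff : DifferentiableAt ℝ (param_at_map A₁ B₁ A₂ B₂ σ i j) r :=
      hsmooth.contDiffAt.differentiableAt (by simp)
    obtain ⟨ρ₁, hρ₁, hdA₁, hdB₁⟩ := hd₁ r.1
    obtain ⟨ρ₂, hρ₂, hdA₂, hdB₂⟩ := hd₂ r.2
    have k1 := param_at_comp1 i r hdiff e1i (hdA₁.hasFDerivAt.comp r hasFDerivAt_fst) u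
    have k2 := param_at_comp2 i r hdiff e2i (hdB₁.hasFDerivAt.comp r hasFDerivAt_fst) u
    have k3 := param_at_comp1 j r hdiff e1j (hdA₂.hasFDerivAt.comp r hasFDerivAt_snd) u
    have k4 := param_at_comp2 j r hdiff e2j (hdB₂.hasFDerivAt.comp r hasFDerivAt_snd) u
    rw [hu] at k1 k2 k3 k4
    simp at k1 k2 k3 k4
    have hc1 := hc₁ r.1
    have hc2 := hc₂ r.2
    refine Prod.ext ?_ ?_
    · change u.1 = 0
      rcases k1 with k1 | k1
      · exact k1
      · rcases k2 with k2 | k2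
        · exact k2
        · exfalso
          rcases k1 with k1 | k1
          · exact hρ₁ k1
          · rcases k2 with k2 | k2
            · exact hρ₁ k2
            · rw [k1, k2] at hc1
              norm_num at hc1
    · change u.2 = 0
      rcases k3 with k1 | k1
      · exact k1
      · rcases k4 with k2 | k2
        · exact k2
        · exfalso
          rcases k1 with k1 | k1
          · exact hρ₂ k1
          · rcases k2 with k2 | k2
            · exact hρ₂ k2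
            · rw [k1, k2] at hc2
              norm_num at hc2
  · have t1 : Tendsto (fun x : V => (x.1 i, x.2 i)) (𝓝 p) (𝓝 (p.1 i, p.2 i)) := by
      have : Continuous (fun x : V => (x.1 i, x.2 i)) := by fun_prop
      exact this.tendsto p
    have t2 : Tendsto (fun x : V => (x.1 j, x.2 j)) (𝓝 p) (𝓝 (p.1 j, p.2 j)) := by
      have : Continuous (fun x : V => (x.1 j, x.2 j)) := by fun_prop
      exact this.tendsto p
    have t3 : ∀ᶠ x : V in 𝓝 p, 0 < x.2 k * p.2 k := by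
      have h1 : Continuous (fun x : V => x.2 k * p.2 k) := by fun_prop
      have h2 : Tendsto (fun x : V => x.2 k * p.2 k) (𝓝 p) (𝓝 (p.2 k * p.2 k)) := h1.tendsto p
      exact h2.eventually (lt_mem_nhds (by nlinarith))
    filter_upwards [t1.eventually hn₁, t2.eventually hn₂, t3] with x hx1 hx2 hx3 hx
    obtain ⟨r₁, hr₁, hr₁'⟩ := hx1 (hx.1 i)
    obtain ⟨r₂, hr₂, hr₂'⟩ := hx2 (hx.1 j)
    have hr₁ : A₁ r₁ = x.1 i := hr₁
    have hr₁' : B₁ r₁ = x.2 i := hr₁'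
    have hr₂ : A₂ r₂ = x.1 j := hr₂
    have hr₂' : B₂ r₂ = x.2 j := hr₂'
    have hxs : x.1 i + x.1 j + x.1 k = 0 := by
      rw [← param_at_sum x.1 i j k hij hik hjk]
      exact hx.2
    refine ⟨(r₁, r₂), Prod.ext (funext fun l => ?_) (funext fun l => ?_)⟩
    · rcases param_at_cases i j k l hij hik hjk with rfl | rfl | rfl
      · rw [e1i]; exact hr₁
      · rw [e1j]; exact hr₂
      · rw [e1k]
        change -(A₁ r₁ + A₂ r₂) = _
        rw [hr₁, hr₂]; linarith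
    · rcases param_at_cases i j k l hij hik hjk with rfl | rfl | rfl
      · rw [e2i]; exact hr₁'
      · rw [e2j]; exact hr₂'
      · rw [e2k]
        change σ * √(1 - (A₁ r₁ + A₂ r₂) ^ 2) = _
        rw [hr₁, hr₂]
        have h3 : 1 - (x.1 i + x.1 j) ^ 2 = (x.2 l) ^ 2 := by
          have : x.1 i + x.1 j = -x.1 l := by linarith
          rw [this]
          linarith [hx.1 l, neg_sq (x.1 l)]
        rw [h3, Real.sqrt_sq_eq_abs]
        exact param_at_sgn _ _ hk hx3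


end J_param_at

alias param_at := J_param_at.param_at

end Pool.Agent.Helper10.NCP
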