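import Mathlib
import Pool.Agent.Helper10.NCP.Base

open Set Filter Topology
open scoped RealInnerProductSpace ContDiff

noncomputable section

namespace Pool.Agent.Helper10.NCP

namespace J_tan_lin


-- TARGET: prove this (put auxiliary lemmas between the ASSUMED END line and the theorem)


theorem tan_lin {p v : V} (h : v ∈ tangent surf p) : LinS p v := by
  obtain ⟨c, hc, hc0, hd⟩ := h
  have h1 : ∀ k, HasDerivAt (fun s => (c s).1 k) (v.1 k) 0 := by
    intro k
    have h2 : HasDerivAt (fun s => (c s).1) v.1 0 := hd.fst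
    exact (hasDerivAt_pi.1 h2) k
  have h2 : ∀ k, HasDerivAt (fun s => (c s).2 k) (v.2 k) 0 := by
    intro k
    have h3 : HasDerivAt (fun s => (c s).2) v.2 0 := hd.snd
    exact (hasDerivAt_pi.1 h3) k
  constructor
  · intro k
    have h3 : HasDerivAt (fun s => (c s).1 k ^ 2 + (c s).2 k ^ 2)
        (2 * (c 0).1 k * v.1 k + 2 * (c 0).2 k * v.2 k) 0 := by
      have h4 := ((h1 k).pow 2).add ((h2 k).pow 2)
      have h5 : (2 * (c 0).1 k * v.1 k + 2 * (c 0).2 k * v.2 k) =
          ((2 : ℕ) : ℝ) * (c 0).1 k ^ (2 - 1) * v.1 k + ((2 : ℕ) : ℝ) * (c 0).2 k ^ (2 - 1) * v.2 k := by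
        norm_num
      rw [h5]
      exact h4
    have h4 : (fun s => (c s).1 k ^ 2 + (c s).2 k ^ 2) = fun _ => 1 := by
      funext s
      exact (hc s).1 k
    rw [h4] at h3
    have h5 := h3.unique (hasDerivAt_const (0 : ℝ) (1 : ℝ))
    rw [hc0] at h5
    linarith
  · have h3 : HasDerivAt (fun s => ∑ k, (c s).1 k) (∑ k, v.1 k) 0 := by
      have h4 := HasDerivAt.fun_sum (u := Finset.univ) (fun k _ => h1 k)
      exact h4
    have h4 : (fun s => ∑ k, (c s).1 k) = fun _ => 0 := by
      funext s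
      exact (hc s).2
    rw [h4] at h3
    exact h3.unique (hasDerivAt_const (0 : ℝ) (0 : ℝ))


end J_tan_lin

alias tan_lin := J_tan_lin.tan_lin

end Pool.Agent.Helper10.NCP
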