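import Mathlib
import Pool.Agent.Helper10.NCP.Base
import Pool.Agent.Helper10.NCP.J_den_pos
import Pool.Agent.Helper10.NCP.J_param_at
import Pool.Agent.Helper10.NCP.J_lin_surj
import Pool.Agent.Helper10.NCP.J_tan_lin

open Set Filter Topology
open scoped RealInnerProductSpace ContDiff

noncomputable section

namespace Pool.Agent.Helper10.NCP

namespace J_has_param


-- TARGET: prove this (put auxiliary lemmas between the ASSUMED END line and the theorem)

/-- velocities of parametrised curves are tangent -/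
theorem has_param_vel {φ : ℝ × ℝ → V} (hφ : ContDiff ℝ ∞ φ) (hm : ∀ r, φ r ∈ surf) (r u : ℝ × ℝ) :
    fderiv ℝ φ r u ∈ tangent surf (φ r) := by
  refine ⟨fun s => φ (r + s • u), fun s => hm _, by simp, ?_⟩
  have hd : HasFDerivAt φ (fderiv ℝ φ r) (r + (0 : ℝ) • u) := by
    rw [zero_smul, add_zero]
    exact (hφ.differentiable (by simp) r).hasFDerivAt
  have hc : HasDerivAt (fun s : ℝ => r + s • u) u 0 := by
    have h1 : HasDerivAt (fun s : ℝ => s • u) ((1 : ℝ) • u) 0 := (hasDerivAt_id (0 : ℝ)).smul_const u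
    rw [one_smul] at h1
    exact h1.const_add r
  exact HasFDerivAt.comp_hasDerivAt (l := φ) (f := fun s : ℝ => r + s • u) 0 hd hc

/-- local parametrisations -/
theorem has_param_ex {p : V} (hp : p ∈ surf) : ∃ φ : ℝ × ℝ → V, ContDiff ℝ ∞ φ ∧
    (∀ r, φ r ∈ surf) ∧ φ 0 = p ∧
      (∀ r u, fderiv ℝ φ r u = 0 → u = 0) ∧ ∀ᶠ x in 𝓝 p, x ∈ surf → x ∈ Set.range φ := by
  have h := den_pos p.1 p.2 hp.1 hp.2
  obtain ⟨k, _, hk⟩ : ∃ k ∈ (Finset.univ : Finset (Fin 3)), p.2 k ^ 2 ≠ 0 :=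
    Finset.exists_ne_zero_of_sum_ne_zero h.ne'
  have hk' : p.2 k ≠ 0 := fun h0 => hk (by rw [h0]; ring)
  have h3 : ∀ k : Fin 3, ∃ i j : Fin 3, i ≠ j ∧ i ≠ k ∧ j ≠ k := by decide
  obtain ⟨i, j, hij, hik, hjk⟩ := h3 k
  exact param_at hp i j k hij hik hjk hk'

theorem has_param : HasParam surf ∧ ∀ p ∈ surf, ∀ v, LinS p v → v ∈ tangent surf p := by
  constructor
  · intro p hp
    obtain ⟨φ, h1, h2, h3, h4, h5⟩ := has_param_ex hp
    refine ⟨φ, h1, h2, h3, h4, ?_, h5⟩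
    intro r v hv
    exact lin_surj (h2 r) (fderiv ℝ φ r) (h4 r) (fun u => tan_lin (has_param_vel h1 h2 r u))
      (tan_lin hv)
  · intro p hp v hv
    obtain ⟨φ, h1, h2, h3, h4, h5⟩ := has_param_ex hp
    obtain ⟨u, hu⟩ := lin_surj (h2 0) (fderiv ℝ φ 0) (h4 0)
      (fun u => tan_lin (has_param_vel h1 h2 0 u)) (v := v) (by rw [h3]; exact hv)
    have h6 := has_param_vel h1 h2 0 u
    rw [hu, h3] at h6
    exact h6


end J_has_param

alias has_param := J_has_param.has_param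

end Pool.Agent.Helper10.NCP
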