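import Mathlib
import Pool.Agent.Helper10.NCP.Base

open Set Filter Topology
open scoped RealInnerProductSpace ContDiff

noncomputable section

namespace Pool.Agent.Helper10.NCP

namespace J_met_fr


-- TARGET: prove this (put auxiliary lemmas between the ASSUMED END line and the theorem)

theorem met_fr_fd (x w : V × (ℝ × ℝ)) : fderiv ℝ imm x w =
    !₂[√(√2 - 1) * w.1.1 0, √(√2 - 1) * w.1.2 0, w.1.1 1, w.1.2 1, w.1.1 2, w.1.2 2, w.2.1, w.2.2,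
      √(√2) * ((w.1.1 0 * x.2.1 + x.1.1 0 * w.2.1) - (w.1.2 0 * x.2.2 + x.1.2 0 * w.2.2)),
      √(√2) * ((w.1.1 0 * x.2.2 + x.1.1 0 * w.2.2) + (w.1.2 0 * x.2.1 + x.1.2 0 * w.2.1))] := by
  have hd : Differentiable ℝ imm := by
    rw [differentiable_euclidean]
    intro i
    fin_cases i <;> simp [imm] <;> fun_prop
  have L : ∀ a b : ℝ, HasDerivAt (fun t : ℝ => a + t * b) b 0 := by
    intro a b
    have := ((hasDerivAt_id (0 : ℝ)).mul_const b).const_add a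
    simpa using this
  have LM : ∀ a b c d : ℝ, HasDerivAt (fun t : ℝ => (a + t * b) * (c + t * d)) (b * c + a * d) 0 := by
    intro a b c d
    have := (L a b).mul (L c d)
    simp only [zero_mul, add_zero] at this
    exact this
  have hline : HasDerivAt (fun t : ℝ => x + t • w) w 0 := by
    have := ((hasDerivAt_id (0 : ℝ)).smul_const w).const_add x
    simpa using this
  have hcomp : HasDerivAt (fun t : ℝ => imm (x + t • w)) (fderiv ℝ imm x w) 0 := by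
    have h1 : HasFDerivAt imm (fderiv ℝ imm x) (x + (0 : ℝ) • w) := by
      rw [zero_smul, add_zero]; exact (hd x).hasFDerivAt
    exact h1.comp_hasDerivAt 0 hline
  have hci : ∀ i, HasDerivAt (fun t : ℝ => imm (x + t • w) i) ((fderiv ℝ imm x w) i) 0 := by
    intro i
    exact (EuclideanSpace.proj (𝕜 := ℝ) i).hasFDerivAt.comp_hasDerivAt 0 hcomp
  ext i
  refine (hci i).unique ?_
  fin_cases i
  · exact (L (x.1.1 0) (w.1.1 0)).const_mul (√(√2 - 1))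
  · exact (L (x.1.2 0) (w.1.2 0)).const_mul (√(√2 - 1))
  · exact L (x.1.1 1) (w.1.1 1)
  · exact L (x.1.2 1) (w.1.2 1)
  · exact L (x.1.1 2) (w.1.1 2)
  · exact L (x.1.2 2) (w.1.2 2)
  · exact L x.2.1 w.2.1
  · exact L x.2.2 w.2.2
  · exact ((LM (x.1.1 0) (w.1.1 0) x.2.1 w.2.1).sub
      (LM (x.1.2 0) (w.1.2 0) x.2.2 w.2.2)).const_mul (√(√2))
  · exact ((LM (x.1.1 0) (w.1.1 0) x.2.2 w.2.2).add
      (LM (x.1.2 0) (w.1.2 0) x.2.1 w.2.1)).const_mul (√(√2))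

theorem met_fr {x w w' : V × (ℝ × ℝ)} (hx : x ∈ surf ×ˢ circ) (hw : Lin x w) (hw' : Lin x w') :
    ⟪fderiv ℝ imm x w, fderiv ℝ imm x w'⟫ =
      ∑ k, ang k x w * ang k x w' + ver x w * ver x w' := by
  obtain ⟨⟨ha, -⟩, hs⟩ := hx
  obtain ⟨⟨hl, -⟩, hm⟩ := hw
  obtain ⟨⟨hl', -⟩, hm'⟩ := hw'
  have hs' : x.2.1 ^ 2 + x.2.2 ^ 2 = 1 := hs
  have e1 : ∀ k, w.1.1 k = -(x.1.2 k * ang k x w) := by
    intro k; unfold ang
    linear_combination (-w.1.1 k) * ha k + x.1.1 k * hl k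
  have e2 : ∀ k, w.1.2 k = x.1.1 k * ang k x w := by
    intro k; unfold ang
    linear_combination (-w.1.2 k) * ha k + x.1.2 k * hl k
  have e1' : ∀ k, w'.1.1 k = -(x.1.2 k * ang k x w') := by
    intro k; unfold ang
    linear_combination (-w'.1.1 k) * ha k + x.1.1 k * hl' k
  have e2' : ∀ k, w'.1.2 k = x.1.1 k * ang k x w' := by
    intro k; unfold ang
    linear_combination (-w'.1.2 k) * ha k + x.1.2 k * hl' k
  obtain ⟨z, hz⟩ : ∃ z, z = x.2.1 * w.2.2 - x.2.2 * w.2.1 := ⟨_, rfl⟩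
  obtain ⟨z', hz'⟩ : ∃ z', z' = x.2.1 * w'.2.2 - x.2.2 * w'.2.1 := ⟨_, rfl⟩
  have f1 : w.2.1 = -(x.2.2 * z) := by
    rw [hz]; linear_combination (-w.2.1) * hs' + x.2.1 * hm
  have f2 : w.2.2 = x.2.1 * z := by
    rw [hz]; linear_combination (-w.2.2) * hs' + x.2.2 * hm
  have f1' : w'.2.1 = -(x.2.2 * z') := by
    rw [hz']; linear_combination (-w'.2.1) * hs' + x.2.1 * hm'
  have f2' : w'.2.2 = x.2.1 * z' := by
    rw [hz']; linear_combination (-w'.2.2) * hs' + x.2.2 * hm'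
  have P : ∀ k, w.1.1 k * w'.1.1 k + w.1.2 k * w'.1.2 k = ang k x w * ang k x w' := by
    intro k
    rw [e1, e2, e1', e2']
    linear_combination (ang k x w * ang k x w') * ha k
  have Q : w.2.1 * w'.2.1 + w.2.2 * w'.2.2 = z * z' := by
    rw [f1, f2, f1', f2']
    linear_combination (z * z') * hs'
  have R : ((w.1.1 0 * x.2.1 + x.1.1 0 * w.2.1) - (w.1.2 0 * x.2.2 + x.1.2 0 * w.2.2)) *
      ((w'.1.1 0 * x.2.1 + x.1.1 0 * w'.2.1) - (w'.1.2 0 * x.2.2 + x.1.2 0 * w'.2.2)) +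
      ((w.1.1 0 * x.2.2 + x.1.1 0 * w.2.2) + (w.1.2 0 * x.2.1 + x.1.2 0 * w.2.1)) *
      ((w'.1.1 0 * x.2.2 + x.1.1 0 * w'.2.2) + (w'.1.2 0 * x.2.1 + x.1.2 0 * w'.2.1)) =
      (ang 0 x w + z) * (ang 0 x w' + z') := by
    rw [e1, e2, e1', e2', f1, f2, f1', f2']
    linear_combination ((ang 0 x w + z) * (ang 0 x w' + z')) *
      ((x.2.1 ^ 2 + x.2.2 ^ 2) * ha 0 + hs')
  have s2 : √2 * √2 = (2 : ℝ) := Real.mul_self_sqrt (by norm_num)
  have h1le : 1 ≤ √(2 : ℝ) := by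
    rw [Real.one_le_sqrt]; norm_num
  have sα : √(√2 - 1) * √(√2 - 1) = √2 - 1 := Real.mul_self_sqrt (by linarith)
  have sδ : √(√2) * √(√2) = √2 := Real.mul_self_sqrt (Real.sqrt_nonneg _)
  have sB : √(1 + √2) * √(1 + √2) = 1 + √2 := Real.mul_self_sqrt (by positivity)
  have hinner : ⟪fderiv ℝ imm x w, fderiv ℝ imm x w'⟫ =
      (√(√2 - 1) * √(√2 - 1)) * (w.1.1 0 * w'.1.1 0 + w.1.2 0 * w'.1.2 0) +
      (w.1.1 1 * w'.1.1 1 + w.1.2 1 * w'.1.2 1) + (w.1.1 2 * w'.1.1 2 + w.1.2 2 * w'.1.2 2) +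
      (w.2.1 * w'.2.1 + w.2.2 * w'.2.2) +
      (√(√2) * √(√2)) *
      (((w.1.1 0 * x.2.1 + x.1.1 0 * w.2.1) - (w.1.2 0 * x.2.2 + x.1.2 0 * w.2.2)) *
      ((w'.1.1 0 * x.2.1 + x.1.1 0 * w'.2.1) - (w'.1.2 0 * x.2.2 + x.1.2 0 * w'.2.2)) +
      ((w.1.1 0 * x.2.2 + x.1.1 0 * w.2.2) + (w.1.2 0 * x.2.1 + x.1.2 0 * w.2.1)) *
      ((w'.1.1 0 * x.2.2 + x.1.1 0 * w'.2.2) + (w'.1.2 0 * x.2.1 + x.1.2 0 * w'.2.1))) := by
    rw [met_fr_fd, met_fr_fd, PiLp.inner_apply]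
    generalize √(√2 - 1) = α
    generalize √(√2) = δ
    simp only [Fin.sum_univ_succ, Fin.sum_univ_zero]
    simp
    ring
  rw [hinner, R, Q, P, P, P, sα, sδ, Fin.sum_univ_three]
  have hv : ver x w = √(1 + √2) * (z + (2 - √2) * ang 0 x w) := by
    unfold ver; rw [hz]
  have hv' : ver x w' = √(1 + √2) * (z' + (2 - √2) * ang 0 x w') := by
    unfold ver; rw [hz']
  rw [hv, hv']
  have h3 : √(1 + √2) * (z + (2 - √2) * ang 0 x w) * (√(1 + √2) * (z' + (2 - √2) * ang 0 x w')) =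
      (1 + √2) * ((z + (2 - √2) * ang 0 x w) * (z' + (2 - √2) * ang 0 x w')) := by
    linear_combination ((z + (2 - √2) * ang 0 x w) * (z' + (2 - √2) * ang 0 x w')) * sB
  rw [h3]
  obtain ⟨q, hq⟩ : ∃ q : ℝ, q = √2 := ⟨_, rfl⟩
  rw [← hq] at s2 ⊢
  generalize ang 0 x w = y0
  generalize ang 0 x w' = y0'
  linear_combination (-(q * y0 * y0') + 3 * y0 * y0' + z * y0' + z' * y0) * s2



end J_met_fr

alias met_fr := J_met_fr.met_fr

end Pool.Agent.Helper10.NCP
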