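import Mathlib
import Pool.Agent.Helper10.NCP.Base
import Pool.Agent.Helper10.NCP.J_tan_lin

open Set Filter Topology
open scoped RealInnerProductSpace ContDiff

noncomputable section

namespace Pool.Agent.Helper10.NCP

namespace J_tan_lin2


-- TARGET: prove this (put auxiliary lemmas between the ASSUMED END line and the theorem)

theorem tan_lin2 {x w : V × (ℝ × ℝ)} (h : w ∈ tangent (surf ×ˢ circ) x) : Lin x w := by
  obtain ⟨c, hc, h0, hd⟩ := h
  have hd1 : HasDerivAt (fun s => (c s).1) w.1 0 := hd.fst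
  have hd2 : HasDerivAt (fun s => (c s).2) w.2 0 := hd.snd
  have hd21 : HasDerivAt (fun s => (c s).2.1) w.2.1 0 := hd2.fst
  have hd22 : HasDerivAt (fun s => (c s).2.2) w.2.2 0 := hd2.snd
  refine ⟨tan_lin ⟨fun s => (c s).1, fun s => (hc s).1, congrArg Prod.fst h0, hd1⟩, ?_⟩
  have h1 := (hd21.fun_pow 2).fun_add (hd22.fun_pow 2)
  have h2 : (fun s => (c s).2.1 ^ 2 + (c s).2.2 ^ 2) = fun _ => (1 : ℝ) := by
    funext s
    exact (hc s).2
  rw [h2] at h1
  have h3 := h1.unique (hasDerivAt_const (0 : ℝ) (1 : ℝ))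
  rw [h0] at h3
  simp only [Nat.cast_ofNat, Nat.add_one_sub_one, pow_one] at h3
  linarith



end J_tan_lin2

alias tan_lin2 := J_tan_lin2.tan_lin2

end Pool.Agent.Helper10.NCP
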