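import Mathlib
import Pool.Agent.Helper10.NCP.Base
import Pool.Agent.Helper10.NCP.J_met_fr
import Pool.Agent.Helper10.NCP.J_tan_lin2

open Set Filter Topology
open scoped RealInnerProductSpace ContDiff

noncomputable section

namespace Pool.Agent.Helper10.NCP

namespace J_imm_on



theorem imm_on_rot (a b v w : ℝ) (h : a ^ 2 + b ^ 2 = 1) (h1 : a * v + b * w = 0)
    (h2 : a * w - b * v = 0) : v = 0 ∧ w = 0 := by
  constructor
  · have : v = (a ^ 2 + b ^ 2) * v := by rw [h, one_mul]
    rw [this]
    linear_combination a * h1 - b * h2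
  · have : w = (a ^ 2 + b ^ 2) * w := by rw [h, one_mul]
    rw [this]
    linear_combination b * h1 + a * h2

-- TARGET: prove this (put auxiliary lemmas between the ASSUMED END line and the theorem)

theorem imm_on : IsImmersionOn (surf ×ˢ circ) imm := by
  constructor
  · rw [contDiff_euclidean]
    intro i
    have h11 : ∀ k : Fin 3, ContDiff ℝ ∞ fun x : V × (ℝ × ℝ) => x.1.1 k := fun k =>
      (contDiff_apply ℝ ℝ k).comp (contDiff_fst.comp contDiff_fst)
    have h12 : ∀ k : Fin 3, ContDiff ℝ ∞ fun x : V × (ℝ × ℝ) => x.1.2 k := fun k =>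
      (contDiff_apply ℝ ℝ k).comp (contDiff_snd.comp contDiff_fst)
    have h21 : ContDiff ℝ ∞ fun x : V × (ℝ × ℝ) => x.2.1 := contDiff_fst.comp contDiff_snd
    have h22 : ContDiff ℝ ∞ fun x : V × (ℝ × ℝ) => x.2.2 := contDiff_snd.comp contDiff_snd
    fin_cases i
    · exact contDiff_const.mul (h11 0)
    · exact contDiff_const.mul (h12 0)
    · exact h11 1
    · exact h12 1
    · exact h11 2
    · exact h12 2
    · exact h21
    · exact h22
    · exact contDiff_const.mul (((h11 0).mul h21).sub ((h12 0).mul h22))
    · exact contDiff_const.mul (((h11 0).mul h22).add ((h12 0).mul h21))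
  · intro x hx v hv h0
    have hl := tan_lin2 hv
    have hm := met_fr hx hl hl
    rw [h0, inner_zero_left, Fin.sum_univ_three] at hm
    have ha0 : ang 0 x v = 0 := by
      have := mul_self_nonneg (ang 0 x v)
      have := mul_self_nonneg (ang 1 x v)
      have := mul_self_nonneg (ang 2 x v)
      have := mul_self_nonneg (ver x v)
      exact mul_self_eq_zero.1 (by linarith)
    have ha1 : ang 1 x v = 0 := by
      have := mul_self_nonneg (ang 0 x v)
      have := mul_self_nonneg (ang 1 x v)
      have := mul_self_nonneg (ang 2 x v)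
      have := mul_self_nonneg (ver x v)
      exact mul_self_eq_zero.1 (by linarith)
    have ha2 : ang 2 x v = 0 := by
      have := mul_self_nonneg (ang 0 x v)
      have := mul_self_nonneg (ang 1 x v)
      have := mul_self_nonneg (ang 2 x v)
      have := mul_self_nonneg (ver x v)
      exact mul_self_eq_zero.1 (by linarith)
    have hver : ver x v = 0 := by
      have := mul_self_nonneg (ang 0 x v)
      have := mul_self_nonneg (ang 1 x v)
      have := mul_self_nonneg (ang 2 x v)
      have := mul_self_nonneg (ver x v)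
      exact mul_self_eq_zero.1 (by linarith)
    have hang : ∀ k, ang k x v = 0 := by
      intro k
      fin_cases k
      · exact ha0
      · exact ha1
      · exact ha2
    have hs : √(1 + √2) ≠ 0 := by positivity
    unfold ver at hver
    rw [ha0, mul_zero, add_zero] at hver
    have hc := (mul_eq_zero.1 hver).resolve_left hs
    obtain ⟨⟨hx1, _⟩, hx2⟩ := hx
    obtain ⟨⟨hl1, _⟩, hl2⟩ := hl
    have hk : ∀ k, v.1.1 k = 0 ∧ v.1.2 k = 0 := fun k =>
      imm_on_rot _ _ _ _ (hx1 k) (hl1 k) (hang k)
    have hq : v.2.1 = 0 ∧ v.2.2 = 0 := imm_on_rot _ _ _ _ hx2 hl2 hc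
    refine Prod.ext (Prod.ext (funext fun k => (hk k).1) (funext fun k => (hk k).2))
      (Prod.ext hq.1 hq.2)


end J_imm_on

alias imm_on := J_imm_on.imm_on

end Pool.Agent.Helper10.NCP
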