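import Mathlib
import Pool.Agent.Helper10.NCP.Base

open Set Filter Topology
open scoped RealInnerProductSpace ContDiff

noncomputable section

namespace Pool.Agent.Helper10.NCP

namespace J_loop_con


-- TARGET: prove this (put auxiliary lemmas between the ASSUMED END line and the theorem)

def lpα : Fin 3 → ℝ := ![1, -1/2, -1/2]
def lpβ : Fin 3 → ℝ := ![0, √3/2, -(√3/2)]

def lpc (r : ℝ) : V := (fun k => lpα k * Real.cos r - lpβ k * Real.sin r,
  fun k => lpβ k * Real.cos r + lpα k * Real.sin r)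

def lpc' (r : ℝ) : V := (fun k => lpα k * (-Real.sin r) - lpβ k * Real.cos r,
  fun k => lpβ k * (-Real.sin r) + lpα k * Real.cos r)

theorem lp_hasDerivAt (r : ℝ) : HasDerivAt lpc (lpc' r) r := by
  unfold lpc lpc'
  apply HasDerivAt.prodMk
  · rw [hasDerivAt_pi]
    intro k
    exact ((Real.hasDerivAt_cos r).const_mul _).sub ((Real.hasDerivAt_sin r).const_mul _)
  · rw [hasDerivAt_pi]
    intro k
    exact ((Real.hasDerivAt_cos r).const_mul _).add ((Real.hasDerivAt_sin r).const_mul _)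

theorem lp_sq (k : Fin 3) : lpα k ^ 2 + lpβ k ^ 2 = 1 := by
  have h3 : (√3 : ℝ) ^ 2 = 3 := Real.sq_sqrt (by norm_num)
  fin_cases k
  · simp [lpα, lpβ]
  · simp only [lpα, lpβ]
    simp
    nlinarith
  · simp only [lpα, lpβ]
    simp
    nlinarith

theorem lp_mem (r : ℝ) : lpc r ∈ surf := by
  refine ⟨fun k => ?_, ?_⟩
  · have h := lp_sq k
    have h2 := Real.sin_sq_add_cos_sq r
    simp only [lpc]
    linear_combination h * (Real.sin r ^ 2 + Real.cos r ^ 2) + h2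
  · simp only [lpc, Fin.sum_univ_three]
    simp [lpα, lpβ]
    ring

theorem lp_cov_contDiff : ContDiff ℝ ∞ (cov : V × ℝ → V × (ℝ × ℝ)) := by
  unfold cov
  exact contDiff_fst.prodMk
    ((Real.contDiff_cos.comp (contDiff_const.mul contDiff_snd)).prodMk
      (Real.contDiff_sin.comp (contDiff_const.mul contDiff_snd)))

theorem lp_ver (r : ℝ) : ver (lpc r, ((1 : ℝ), (0 : ℝ))) (lpc' r, ((0 : ℝ), (0 : ℝ))) = √(1 + √2) * (2 - √2) := by
  have h2 := Real.sin_sq_add_cos_sq r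
  unfold ver ang
  simp only [lpc, lpc', lpα, lpβ, Matrix.cons_val_zero]
  linear_combination √(1 + √2) * (2 - √2) * h2

theorem loop_con {k₀ : ℝ} (hk : k₀ ^ 2 = 1) {Ψ Φ : V × ℝ → V × ℝ} (hΨ : ContDiff ℝ ∞ Ψ)
    (hΦ : ContDiff ℝ ∞ Φ) (hΦM : MapsTo Φ (surf ×ˢ univ) (surf ×ˢ univ))
    (hΨΦ : ∀ x ∈ surf ×ˢ (univ : Set ℝ), Ψ (Φ x) = x)
    (h : ∀ p ∈ surf, ∀ t, ∀ v ∈ tangent surf p, ∀ s,
      ver ((cov ∘ Ψ) (p, t)) (fderiv ℝ (cov ∘ Ψ) (p, t) (v, s)) = k₀ * s) : False := by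
  set q : ℝ → V × ℝ := fun r => Φ (lpc r, 0) with hq
  have hc0 : ∀ r, HasDerivAt (fun r => ((lpc r, (0 : ℝ)) : V × ℝ)) (lpc' r, 0) r := fun r =>
    (lp_hasDerivAt r).prodMk (hasDerivAt_const r (0 : ℝ))
  have hq' : ∀ r, HasDerivAt q (fderiv ℝ Φ (lpc r, 0) (lpc' r, 0)) r := fun r =>
    ((hΦ.differentiable (by simp)) (lpc r, (0 : ℝ))).hasFDerivAt.comp_hasDerivAt r (hc0 r)
  set q' : ℝ → V × ℝ := fun r => fderiv ℝ Φ (lpc r, 0) (lpc' r, 0) with hq'd
  have hmem : ∀ r, q r ∈ surf ×ˢ (univ : Set ℝ) := fun r => hΦM ⟨lp_mem r, mem_univ _⟩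
  have htan : ∀ r, (q' r).1 ∈ tangent surf (q r).1 := by
    intro r
    refine ⟨fun s => (q (r + s)).1, fun s => (hmem (r + s)).1, by simp, ?_⟩
    have h1 : HasDerivAt (fun s : ℝ => r + s) 1 0 := by
      simpa using (hasDerivAt_id (0 : ℝ)).const_add r
    have h2 : HasDerivAt q (q' r) (r + 0) := by simpa using hq' r
    have h3 := h2.scomp (0 : ℝ) h1
    simp only [one_smul] at h3
    have h4 := (hasFDerivAt_fst (𝕜 := ℝ) (E := V) (F := ℝ) (p := q (r + 0))).comp_hasDerivAt (0 : ℝ) h3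
    exact h4
  have hcovΨ : ∀ r, (cov ∘ Ψ) (q r) = (lpc r, ((1 : ℝ), (0 : ℝ))) := by
    intro r
    have h1 : Ψ (q r) = (lpc r, 0) := hΨΦ _ ⟨lp_mem r, mem_univ _⟩
    simp only [Function.comp, h1, cov]
    simp
  have hder : ∀ r, fderiv ℝ (cov ∘ Ψ) (q r) (q' r) = (lpc' r, ((0 : ℝ), (0 : ℝ))) := by
    intro r
    have h1 : DifferentiableAt ℝ (cov ∘ Ψ) (q r) :=
      ((lp_cov_contDiff.comp hΨ).differentiable (by simp)) (q r)
    have h2 := h1.hasFDerivAt.comp_hasDerivAt r (hq' r)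
    have h3 : ((cov ∘ Ψ) ∘ q) = fun r => (lpc r, ((1 : ℝ), (0 : ℝ))) := funext hcovΨ
    rw [h3] at h2
    have h4 : HasDerivAt (fun r => ((lpc r, ((1 : ℝ), (0 : ℝ))) : V × (ℝ × ℝ))) (lpc' r, ((0 : ℝ), (0 : ℝ))) r :=
      (lp_hasDerivAt r).prodMk (hasDerivAt_const r ((1 : ℝ), (0 : ℝ)))
    exact h2.unique h4
  have hkey : ∀ r, √(1 + √2) * (2 - √2) = k₀ * (q' r).2 := by
    intro r
    have h1 := h (q r).1 (hmem r).1 (q r).2 (q' r).1 (htan r) (q' r).2
    have h2 : ((q r).1, (q r).2) = q r := rfl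
    have h3 : ((q' r).1, (q' r).2) = q' r := rfl
    rw [h2, h3, hder r, hcovΨ r, lp_ver r] at h1
    exact h1
  have hpos : 0 < √(1 + √2) * (2 - √2) := by
    have h1 : 0 < √(1 + √2) := Real.sqrt_pos.2 (by positivity)
    have h2 : √2 < 2 := by
      rw [Real.sqrt_lt' (by norm_num)]; norm_num
    exact mul_pos h1 (by linarith)
  have hsnd : ∀ r, HasDerivAt (fun r => (q r).2) (q' r).2 r := fun r =>
    (hasFDerivAt_snd (𝕜 := ℝ) (E := V) (F := ℝ) (p := q r)).comp_hasDerivAt r (hq' r)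
  have hper : lpc (2 * Real.pi) = lpc 0 := by
    simp [lpc]
  have hπ : (0 : ℝ) < 2 * Real.pi := by positivity
  obtain ⟨r, -, hr⟩ := exists_hasDerivAt_eq_zero (f := fun r => (q r).2) (f' := fun r => (q' r).2) hπ
    (fun x _ => (hsnd x).continuousAt.continuousWithinAt) (by simp only [hq, hper]) (fun x _ => hsnd x)
  have h5 := hkey r
  rw [hr, mul_zero] at h5
  linarith


end J_loop_con

alias loop_con := J_loop_con.loop_con

end Pool.Agent.Helper10.NCP
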