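import Mathlib
import Pool.Agent.Helper10.NCP.Base

open Set Filter Topology
open scoped RealInnerProductSpace ContDiff

noncomputable section

namespace Pool.Agent.Helper10.NCP

namespace J_fr_map


-- TARGET: prove this (put auxiliary lemmas between the ASSUMED END line and the theorem)

section frmap

variable {X : Type} [NormedAddCommGroup X] [NormedSpace ℝ X]

theorem fr_smd {u : X → ℝ} (hu : ContDiff ℝ ∞ u) (e : X) :
    ContDiff ℝ ∞ (fun x => fderiv ℝ u x e) := by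
  have h : ContDiff ℝ ∞ (fderiv ℝ u) := hu.fderiv_right (m := ∞) (by simp)
  exact h.clm_apply contDiff_const

theorem fr_sm {u v : X → ℝ} (hu : ContDiff ℝ ∞ u) (hv : ContDiff ℝ ∞ v) (e : X) :
    ContDiff ℝ ∞ (fun x => u x * fderiv ℝ v x e - v x * fderiv ℝ u x e) :=
  (hu.mul (fr_smd hv e)).sub (hv.mul (fr_smd hu e))

theorem fr_ortho {u v : X → ℝ} (hu : ContDiff ℝ ∞ u) (hv : ContDiff ℝ ∞ v)
    (h : ∀ x, u x ^ 2 + v x ^ 2 = 1) (x e : X) :
    u x * fderiv ℝ u x e + v x * fderiv ℝ v x e = 0 := by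
  have hu' : HasFDerivAt u (fderiv ℝ u x) x := (hu.differentiable (by simp) x).hasFDerivAt
  have hv' : HasFDerivAt v (fderiv ℝ v x) x := (hv.differentiable (by simp) x).hasFDerivAt
  have h1 := (hu'.mul hu').add (hv'.mul hv')
  have h2 : (fun x => u x * u x + v x * v x) = fun _ => (1:ℝ) := by
    funext y
    have := h y
    nlinarith
  have h3 : HasFDerivAt (fun x => u x * u x + v x * v x) _ x := h1
  rw [h2] at h3
  have h4 := h3.unique (hasFDerivAt_const (1:ℝ) x)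
  have h5 := congrArg (fun L : X →L[ℝ] ℝ => L e) h4
  simp at h5
  linarith

theorem fr_du {u v : X → ℝ} (hu : ContDiff ℝ ∞ u) (hv : ContDiff ℝ ∞ v)
    (h : ∀ x, u x ^ 2 + v x ^ 2 = 1) (x e : X) :
    fderiv ℝ u x e = -(v x * (u x * fderiv ℝ v x e - v x * fderiv ℝ u x e)) := by
  have h1 := fr_ortho hu hv h x e
  have h2 := h x
  linear_combination (-(fderiv ℝ u x e)) * h2 + u x * h1

theorem fr_dv {u v : X → ℝ} (hu : ContDiff ℝ ∞ u) (hv : ContDiff ℝ ∞ v)
    (h : ∀ x, u x ^ 2 + v x ^ 2 = 1) (x e : X) :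
    fderiv ℝ v x e = u x * (u x * fderiv ℝ v x e - v x * fderiv ℝ u x e) := by
  have h1 := fr_ortho hu hv h x e
  have h2 := h x
  linear_combination (-(fderiv ℝ v x e)) * h2 + v x * h1

theorem fr_symm {u : X → ℝ} (hu : ContDiff ℝ ∞ u) (x e e' : X) :
    fderiv ℝ (fun y => fderiv ℝ u y e) x e' = fderiv ℝ (fun y => fderiv ℝ u y e') x e := by
  have h : ContDiff ℝ ∞ (fderiv ℝ u) := hu.fderiv_right (m := ∞) (by simp)
  have hd : HasFDerivAt (fderiv ℝ u) (fderiv ℝ (fderiv ℝ u) x) x :=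
    (h.differentiable (by simp) x).hasFDerivAt
  have h1 : ∀ e e' : X, fderiv ℝ (fun y => fderiv ℝ u y e) x e' =
      fderiv ℝ (fderiv ℝ u) x e' e := by
    intro e e'
    have h2 := hd.clm_apply (hasFDerivAt_const e x)
    have h3 : HasFDerivAt (fun y => fderiv ℝ u y e) _ x := h2
    rw [h3.fderiv]
    simp
  rw [h1, h1]
  have hsymm : IsSymmSndFDerivAt ℝ u x := by
    apply (hu.contDiffAt (x := x)).isSymmSndFDerivAt
    rw [minSmoothness_of_isRCLikeNormedField]
    first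
      | exact ENat.LEInfty.out
      | simp
  exact hsymm.eq e' e

theorem fr_closed {u v : X → ℝ} (hu : ContDiff ℝ ∞ u) (hv : ContDiff ℝ ∞ v)
    (h : ∀ x, u x ^ 2 + v x ^ 2 = 1) (x e e' : X) :
    fderiv ℝ (fun y => u y * fderiv ℝ v y e - v y * fderiv ℝ u y e) x e' =
      fderiv ℝ (fun y => u y * fderiv ℝ v y e' - v y * fderiv ℝ u y e') x e := by
  have hu' : HasFDerivAt u (fderiv ℝ u x) x := (hu.differentiable (by simp) x).hasFDerivAt
  have hv' : HasFDerivAt v (fderiv ℝ v x) x := (hv.differentiable (by simp) x).hasFDerivAt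
  have h1 : ∀ e e' : X, fderiv ℝ (fun y => u y * fderiv ℝ v y e - v y * fderiv ℝ u y e) x e' =
      fderiv ℝ u x e' * fderiv ℝ v x e + u x * fderiv ℝ (fun y => fderiv ℝ v y e) x e' -
      (fderiv ℝ v x e' * fderiv ℝ u x e + v x * fderiv ℝ (fun y => fderiv ℝ u y e) x e') := by
    intro e e'
    have ha : HasFDerivAt (fun y => fderiv ℝ v y e) (fderiv ℝ (fun y => fderiv ℝ v y e) x) x :=
      ((fr_smd hv e).differentiable (by simp) x).hasFDerivAt
    have hb : HasFDerivAt (fun y => fderiv ℝ u y e) (fderiv ℝ (fun y => fderiv ℝ u y e) x) x :=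
      ((fr_smd hu e).differentiable (by simp) x).hasFDerivAt
    have hc : HasFDerivAt (fun y => u y * fderiv ℝ v y e - v y * fderiv ℝ u y e) _ x :=
      (hu'.mul ha).sub (hv'.mul hb)
    rw [hc.fderiv]
    simp
    ring
  rw [h1, h1, fr_symm hv x e e', fr_symm hu x e e']
  have e1 := fr_du hu hv h x e
  have e2 := fr_du hu hv h x e'
  have e3 := fr_dv hu hv h x e
  have e4 := fr_dv hu hv h x e'
  have e5 : fderiv ℝ u x e' * fderiv ℝ v x e = fderiv ℝ v x e' * fderiv ℝ u x e := by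
    linear_combination e2 * fderiv ℝ v x e - e4 * fderiv ℝ u x e -
      (u x * fderiv ℝ v x e' - v x * fderiv ℝ u x e') * (v x * e3 + u x * e1)
  have e6 : fderiv ℝ u x e * fderiv ℝ v x e' = fderiv ℝ v x e * fderiv ℝ u x e' := by
    linarith
  linarith

theorem fr_comp {W : Type} [NormedAddCommGroup W] [NormedSpace ℝ W] {G : X → W}
    (hG : ContDiff ℝ ∞ G) (π : W →L[ℝ] ℝ) :
    ContDiff ℝ ∞ (fun x => π (G x)) ∧
      ∀ x e, fderiv ℝ (fun x => π (G x)) x e = π (fderiv ℝ G x e) := by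
  refine ⟨π.contDiff.comp hG, ?_⟩
  intro x e
  have h1 : HasFDerivAt G (fderiv ℝ G x) x := (hG.differentiable (by simp) x).hasFDerivAt
  have h2 : HasFDerivAt (fun x => π (G x)) _ x := π.hasFDerivAt.comp x h1
  rw [h2.fderiv]
  rfl

end frmap

theorem fr_map {X : Type} [NormedAddCommGroup X] [NormedSpace ℝ X] (G : X → V × (ℝ × ℝ))
    (hG : ContDiff ℝ ∞ G) (hM : ∀ x, G x ∈ surf ×ˢ circ) :
    Frame (fun k x => (G x).1.1 k) (fun k x => (G x).1.2 k)
      (fun k x e => ang k (G x) (fderiv ℝ G x e)) (fun x e => ver (G x) (fderiv ℝ G x e)) := by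
  have hS : ∀ x, (∀ k, (G x).1.1 k ^ 2 + (G x).1.2 k ^ 2 = 1) ∧ ∑ k, (G x).1.1 k = 0 :=
    fun x => (hM x).1
  have hC : ∀ x, (G x).2.1 ^ 2 + (G x).2.2 ^ 2 = 1 := fun x => (hM x).2
  -- components
  let pa : Fin 3 → (V × (ℝ × ℝ) →L[ℝ] ℝ) := fun k =>
    (ContinuousLinearMap.proj (R := ℝ) (φ := fun _ : Fin 3 => ℝ) k).comp
      ((ContinuousLinearMap.fst ℝ (Fin 3 → ℝ) (Fin 3 → ℝ)).comp
        (ContinuousLinearMap.fst ℝ V (ℝ × ℝ)))
  let pb : Fin 3 → (V × (ℝ × ℝ) →L[ℝ] ℝ) := fun k =>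
    (ContinuousLinearMap.proj (R := ℝ) (φ := fun _ : Fin 3 => ℝ) k).comp
      ((ContinuousLinearMap.snd ℝ (Fin 3 → ℝ) (Fin 3 → ℝ)).comp
        (ContinuousLinearMap.fst ℝ V (ℝ × ℝ)))
  let pc : V × (ℝ × ℝ) →L[ℝ] ℝ := (ContinuousLinearMap.fst ℝ ℝ ℝ).comp
    (ContinuousLinearMap.snd ℝ V (ℝ × ℝ))
  let pd : V × (ℝ × ℝ) →L[ℝ] ℝ := (ContinuousLinearMap.snd ℝ ℝ ℝ).comp
    (ContinuousLinearMap.snd ℝ V (ℝ × ℝ))
  have ha : ∀ k, ContDiff ℝ ∞ (fun x => (G x).1.1 k) ∧
      ∀ x e, fderiv ℝ (fun x => (G x).1.1 k) x e = (fderiv ℝ G x e).1.1 k :=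
    fun k => fr_comp hG (pa k)
  have hb : ∀ k, ContDiff ℝ ∞ (fun x => (G x).1.2 k) ∧
      ∀ x e, fderiv ℝ (fun x => (G x).1.2 k) x e = (fderiv ℝ G x e).1.2 k :=
    fun k => fr_comp hG (pb k)
  have hc : ContDiff ℝ ∞ (fun x => (G x).2.1) ∧
      ∀ x e, fderiv ℝ (fun x => (G x).2.1) x e = (fderiv ℝ G x e).2.1 := fr_comp hG pc
  have hd : ContDiff ℝ ∞ (fun x => (G x).2.2) ∧
      ∀ x e, fderiv ℝ (fun x => (G x).2.2) x e = (fderiv ℝ G x e).2.2 := fr_comp hG pd
  have hang : ∀ k x e, ang k (G x) (fderiv ℝ G x e) =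
      (G x).1.1 k * fderiv ℝ (fun x => (G x).1.2 k) x e -
        (G x).1.2 k * fderiv ℝ (fun x => (G x).1.1 k) x e := by
    intro k x e
    rw [(ha k).2, (hb k).2]
    rfl
  have hver : ∀ x e, ver (G x) (fderiv ℝ G x e) =
      √(1 + √2) * (((G x).2.1 * fderiv ℝ (fun x => (G x).2.2) x e -
        (G x).2.2 * fderiv ℝ (fun x => (G x).2.1) x e) +
        (2 - √2) * ((G x).1.1 0 * fderiv ℝ (fun x => (G x).1.2 0) x e -
        (G x).1.2 0 * fderiv ℝ (fun x => (G x).1.1 0) x e)) := by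
    intro x e
    rw [← hang, hc.2, hd.2]
    rfl
  have hsma : ∀ k e, ContDiff ℝ ∞ (fun x => (G x).1.1 k * fderiv ℝ (fun x => (G x).1.2 k) x e -
        (G x).1.2 k * fderiv ℝ (fun x => (G x).1.1 k) x e) :=
    fun k e => fr_sm (ha k).1 (hb k).1 e
  have hsmc : ∀ e, ContDiff ℝ ∞ (fun x => (G x).2.1 * fderiv ℝ (fun x => (G x).2.2) x e -
        (G x).2.2 * fderiv ℝ (fun x => (G x).2.1) x e) :=
    fun e => fr_sm hc.1 hd.1 e
  refine
    { sm_a := fun k => (ha k).1
      sm_b := fun k => (hb k).1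
      sm_A := ?_
      sm_U := ?_
      add_A := ?_
      smul_A := ?_
      add_U := ?_
      smul_U := ?_
      sq := fun k x => (hS x).1 k
      sum := fun x => (hS x).2
      da := ?_
      db := ?_
      orth := ?_
      cl_A := ?_
      cl_U := ?_ }
  · intro k e
    simp only [hang]
    exact hsma k e
  · intro e
    simp only [hver]
    exact contDiff_const.mul ((hsmc e).add (contDiff_const.mul (hsma 0 e)))
  · intro k x e e'
    simp only [hang]
    simp only [map_add]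
    ring
  · intro k x r e
    simp only [hang]
    simp only [map_smul, smul_eq_mul]
    ring
  · intro x e e'
    simp only [hver]
    simp only [map_add]
    ring
  · intro x r e
    simp only [hver]
    simp only [map_smul, smul_eq_mul]
    ring
  · intro k x e
    simp only [hang]
    exact fr_du (ha k).1 (hb k).1 (fun x => (hS x).1 k) x e
  · intro k x e
    simp only [hang]
    exact fr_dv (ha k).1 (hb k).1 (fun x => (hS x).1 k) x e
  · intro x e
    have h1 : ∀ k, (G x).1.2 k * ang k (G x) (fderiv ℝ G x e) = -((fderiv ℝ G x e).1.1 k) := by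
      intro k
      rw [← (ha k).2, fr_du (ha k).1 (hb k).1 (fun x => (hS x).1 k) x e, hang, neg_neg]
    have h2 : ∑ k, (G x).1.2 k * ang k (G x) (fderiv ℝ G x e) =
        -∑ k, (fderiv ℝ G x e).1.1 k := by
      rw [← Finset.sum_neg_distrib]
      exact Finset.sum_congr rfl fun k _ => h1 k
    have h3 : fderiv ℝ (fun x => (∑ k, pa k) (G x)) x e = (∑ k, pa k) (fderiv ℝ G x e) :=
      (fr_comp hG (∑ k, pa k)).2 x e
    have h4 : (fun x => (∑ k, pa k) (G x)) = fun _ => (0:ℝ) := by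
      funext y
      rw [ContinuousLinearMap.sum_apply]
      exact (hS y).2
    rw [h4, ContinuousLinearMap.sum_apply] at h3
    have h5 : ∑ k, (fderiv ℝ G x e).1.1 k = 0 := by
      have h6 : (0:ℝ) = ∑ k, (fderiv ℝ G x e).1.1 k := by
        have h7 : fderiv ℝ (fun _ : X => (0:ℝ)) x e = 0 := by simp
        rw [h7] at h3
        exact h3
      exact h6.symm
    show ∑ k, (G x).1.2 k * ang k (G x) (fderiv ℝ G x e) = 0
    rw [h2, h5, neg_zero]
  · intro k x e e'
    simp only [hang]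
    exact fr_closed (ha k).1 (hb k).1 (fun x => (hS x).1 k) x e e'
  · intro x e e'
    simp only [hver]
    have key : ∀ e e' : X, fderiv ℝ (fun x => √(1 + √2) * (((G x).2.1 * fderiv ℝ (fun x => (G x).2.2) x e -
        (G x).2.2 * fderiv ℝ (fun x => (G x).2.1) x e) +
        (2 - √2) * ((G x).1.1 0 * fderiv ℝ (fun x => (G x).1.2 0) x e -
        (G x).1.2 0 * fderiv ℝ (fun x => (G x).1.1 0) x e))) x e' =
        √(1 + √2) * (fderiv ℝ (fun x => (G x).2.1 * fderiv ℝ (fun x => (G x).2.2) x e -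
        (G x).2.2 * fderiv ℝ (fun x => (G x).2.1) x e) x e' +
        (2 - √2) * fderiv ℝ (fun x => (G x).1.1 0 * fderiv ℝ (fun x => (G x).1.2 0) x e -
        (G x).1.2 0 * fderiv ℝ (fun x => (G x).1.1 0) x e) x e') := by
      intro e e'
      have h1 := ((hsmc e).differentiable (by simp) x).hasFDerivAt
      have h2 := ((hsma 0 e).differentiable (by simp) x).hasFDerivAt
      have h3 : HasFDerivAt (fun x => √(1 + √2) * (((G x).2.1 * fderiv ℝ (fun x => (G x).2.2) x e -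
        (G x).2.2 * fderiv ℝ (fun x => (G x).2.1) x e) +
        (2 - √2) * ((G x).1.1 0 * fderiv ℝ (fun x => (G x).1.2 0) x e -
        (G x).1.2 0 * fderiv ℝ (fun x => (G x).1.1 0) x e))) _ x :=
        (h1.add (h2.const_mul (2 - √2))).const_mul (√(1 + √2))
      rw [h3.fderiv]
      rfl
    rw [key, key, fr_closed hc.1 hd.1 hC x e e',
      fr_closed (ha 0).1 (hb 0).1 (fun x => (hS x).1 0) x e e']


end J_fr_map

alias fr_map := J_fr_map.fr_map

end Pool.Agent.Helper10.NCP
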