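import Mathlib
import Pool.Agent.Helper10.NCP.Base
import Pool.Agent.Helper10.NCP.J_den_pos

open Set Filter Topology
open scoped RealInnerProductSpace ContDiff

noncomputable section

namespace Pool.Agent.Helper10.NCP

namespace J_fr_jac


-- TARGET: prove this (put auxiliary lemmas between the ASSUMED END line and the theorem)

theorem fr_jac_line {G : ℝ × ℝ → ℝ} (hG : Differentiable ℝ G) (x v : ℝ × ℝ) :
    HasDerivAt (fun s : ℝ => G (x + s • v)) (fderiv ℝ G x v) 0 := by
  have hc : HasDerivAt (fun s : ℝ => x + s • v) v 0 := by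
    have h1 : HasDerivAt (fun s : ℝ => s • v) ((1 : ℝ) • v) 0 := (hasDerivAt_id (0 : ℝ)).smul_const v
    rw [one_smul] at h1
    exact h1.const_add x
  have hG' : HasFDerivAt G (fderiv ℝ G x) (x + (0 : ℝ) • v) := by
    rw [zero_smul, add_zero]
    exact (hG x).hasFDerivAt
  exact hG'.comp_hasDerivAt (0 : ℝ) hc

theorem fr_jac_s {G : ℝ × ℝ → ℝ} (hG : Differentiable ℝ G) (t : ℝ) :
    HasDerivAt (fun s : ℝ => G (s, t)) (fderiv ℝ G (0, t) (1, 0)) 0 := by
  have h := fr_jac_line hG (0, t) (1, 0)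
  refine h.congr_of_eventuallyEq (Eventually.of_forall fun s => ?_)
  simp

theorem fr_jac_t {G : ℝ × ℝ → ℝ} (hG : Differentiable ℝ G) (t : ℝ) :
    HasDerivAt (fun t : ℝ => G (0, t)) (fderiv ℝ G (0, t) (0, 1)) t := by
  have hc : HasDerivAt (fun t : ℝ => ((0 : ℝ), t)) ((0 : ℝ), (1 : ℝ)) t :=
    (hasDerivAt_const t (0 : ℝ)).prodMk (hasDerivAt_id t)
  exact (hG (0, t)).hasFDerivAt.comp_hasDerivAt t hc

/-- symmetry of second derivatives -/
theorem fr_jac_symm {f : ℝ × ℝ → ℝ} (hf : ContDiff ℝ ∞ f) (x v w : ℝ × ℝ) :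
    fderiv ℝ (fun y => fderiv ℝ f y v) x w = fderiv ℝ (fun y => fderiv ℝ f y w) x v := by
  have h1 : ContDiff ℝ ∞ (fderiv ℝ f) := hf.fderiv_right (by norm_cast)
  have h2 : Differentiable ℝ (fderiv ℝ f) := h1.differentiable (by simp)
  have h3 : ∀ u : ℝ × ℝ, ∀ z : ℝ × ℝ,
      fderiv ℝ (fun y => fderiv ℝ f y u) x z = fderiv ℝ (fderiv ℝ f) x z u := by
    intro u z
    have h4 : HasFDerivAt (fun y => fderiv ℝ f y u)
        ((fderiv ℝ (fderiv ℝ f) x).flip u) x := by
      have h5 := (h2 x).hasFDerivAt.clm_apply (hasFDerivAt_const u x)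
      refine h5.congr_fderiv ?_
      ext z
      · simp
      · simp
    rw [h4.fderiv]
    rfl
  rw [h3, h3]
  have h6 : IsSymmSndFDerivAt ℝ f x := by
    refine ContDiffAt.isSymmSndFDerivAt hf.contDiffAt ?_
    simp only [minSmoothness_of_isRCLikeNormedField]
    norm_cast
  exact h6.eq w v

theorem fr_jac {a b : Fin 3 → ℝ × ℝ → ℝ} {A : Fin 3 → ℝ × ℝ → ℝ × ℝ → ℝ} {U : ℝ × ℝ → ℝ × ℝ → ℝ}
    (h : Frame a b A U)
    (hg : ∀ k x, fderiv ℝ (fun y => A k y (0, 1)) x (0, 1) =
      -((∑ j, a j x * A j x (0, 1) ^ 2) / ∑ j, b j x ^ 2) * b k x) (k : Fin 3) (t : ℝ) :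
    HasDerivAt (fun t => A k (0, t) (1, 0)) (fderiv ℝ (fun y => A k y (0, 1)) (0, t) (1, 0)) t ∧
    HasDerivAt (fun t => fderiv ℝ (fun y => A k y (0, 1)) (0, t) (1, 0))
      (-((∑ j, a j (0, t) * A j (0, t) (0, 1) ^ 2) / ∑ j, b j (0, t) ^ 2) *
          (a k (0, t) * A k (0, t) (1, 0)) +
        ((∑ j, b j (0, t) * A j (0, t) (1, 0) * A j (0, t) (0, 1) ^ 2 -
            2 * ∑ j, a j (0, t) * A j (0, t) (0, 1) *
              fderiv ℝ (fun y => A j y (0, 1)) (0, t) (1, 0)) / (∑ j, b j (0, t) ^ 2) +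
          2 * (∑ j, a j (0, t) * A j (0, t) (0, 1) ^ 2) *
            (∑ j, a j (0, t) * b j (0, t) * A j (0, t) (1, 0)) / (∑ j, b j (0, t) ^ 2) ^ 2) *
        b k (0, t)) t := by
  have da : ∀ j, Differentiable ℝ (a j) := fun j => (h.sm_a j).differentiable (by simp)
  have db : ∀ j, Differentiable ℝ (b j) := fun j => (h.sm_b j).differentiable (by simp)
  have dA : ∀ j e, Differentiable ℝ (fun y => A j y e) := fun j e =>
    (h.sm_A j e).differentiable (by simp)
  constructor
  · have h1 := fr_jac_t (dA k (1, 0)) t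
    rw [h.cl_A k (0, t) (1, 0) (0, 1)] at h1
    exact h1
  · have hf := h.sm_A k (0, 1)
    have hg1 : ContDiff ℝ ∞ (fun y => fderiv ℝ (fun y => A k y (0, 1)) y (1, 0)) := by
      have h1 : ContDiff ℝ ∞ (fderiv ℝ (fun y => A k y (0, 1))) := hf.fderiv_right (by norm_cast)
      exact h1.clm_apply contDiff_const
    have h1 := fr_jac_t (hg1.differentiable (by simp)) t
    rw [fr_jac_symm hf (0, t) (1, 0) (0, 1)] at h1
    have hfun : (fun y => fderiv ℝ (fun y => A k y (0, 1)) y (0, 1)) =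
        fun x => -((∑ j, a j x * A j x (0, 1) ^ 2) / ∑ j, b j x ^ 2) * b k x := by
      funext x
      exact hg k x
    rw [hfun] at h1
    have hDpos : ∀ x, 0 < ∑ j, b j x ^ 2 := fun x =>
      den_pos (fun j => a j x) (fun j => b j x) (fun j => h.sq j x) (h.sum x)
    have ha : ∀ j, HasDerivAt (fun s => a j (s, t)) (-(b j (0, t) * A j (0, t) (1, 0))) 0 := by
      intro j
      have := fr_jac_s (da j) t
      rwa [h.da] at this
    have hb : ∀ j, HasDerivAt (fun s => b j (s, t)) (a j (0, t) * A j (0, t) (1, 0)) 0 := by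
      intro j
      have := fr_jac_s (db j) t
      rwa [h.db] at this
    have hA : ∀ j, HasDerivAt (fun s => A j (s, t) (0, 1))
        (fderiv ℝ (fun y => A j y (0, 1)) (0, t) (1, 0)) 0 := fun j => fr_jac_s (dA j (0, 1)) t
    have hN : HasDerivAt (fun s => ∑ j, a j (s, t) * A j (s, t) (0, 1) ^ 2)
        (-(∑ j, b j (0, t) * A j (0, t) (1, 0) * A j (0, t) (0, 1) ^ 2) +
          2 * ∑ j, a j (0, t) * A j (0, t) (0, 1) *
              fderiv ℝ (fun y => A j y (0, 1)) (0, t) (1, 0)) 0 := by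
      have h2 := HasDerivAt.fun_sum (u := (Finset.univ : Finset (Fin 3)))
        (fun j _ => (ha j).fun_mul ((hA j).fun_pow 2))
      refine h2.congr_deriv ?_
      rw [Finset.mul_sum, ← Finset.sum_neg_distrib, ← Finset.sum_add_distrib]
      refine Finset.sum_congr rfl fun j _ => ?_
      push_cast
      ring
    have hD : HasDerivAt (fun s => ∑ j, b j (s, t) ^ 2)
        (2 * ∑ j, a j (0, t) * b j (0, t) * A j (0, t) (1, 0)) 0 := by
      have h2 := HasDerivAt.fun_sum (u := (Finset.univ : Finset (Fin 3)))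
        (fun j _ => (hb j).fun_pow 2)
      refine h2.congr_deriv ?_
      rw [Finset.mul_sum]
      refine Finset.sum_congr rfl fun j _ => ?_
      push_cast
      ring
    have hF := (hN.fun_div hD (hDpos (0, t)).ne').fun_neg.fun_mul (hb k)
    have hFd : Differentiable ℝ
        (fun x => -((∑ j, a j x * A j x (0, 1) ^ 2) / ∑ j, b j x ^ 2) * b k x) := by
      have e1 : Differentiable ℝ (fun x => ∑ j, a j x * A j x (0, 1) ^ 2) :=
        Differentiable.fun_sum fun j _ => (da j).fun_mul ((dA j (0, 1)).fun_pow 2)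
      have e2 : Differentiable ℝ (fun x => ∑ j, b j x ^ 2) :=
        Differentiable.fun_sum fun j _ => (db j).fun_pow 2
      have e3 : Differentiable ℝ
          (fun x => (∑ j, a j x * A j x (0, 1) ^ 2) / ∑ j, b j x ^ 2) := by
        simp only [div_eq_mul_inv]
        exact e1.fun_mul (e2.fun_inv (fun x => (hDpos x).ne'))
      exact (e3.fun_neg).fun_mul (db k)
    have huniq := (fr_jac_s hFd t).unique hF
    rw [huniq] at h1
    refine h1.congr_deriv ?_
    have hD0 := (hDpos (0, t)).ne'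
    generalize (∑ j, b j (0, t) ^ 2) = DD at hD0 ⊢
    generalize (∑ j, b j (0, t) * A j (0, t) (1, 0) * A j (0, t) (0, 1) ^ 2) = S1
    generalize (∑ j, a j (0, t) * A j (0, t) (0, 1) *
              fderiv ℝ (fun y => A j y (0, 1)) (0, t) (1, 0)) = S2
    generalize (∑ j, a j (0, t) * b j (0, t) * A j (0, t) (1, 0)) = S3
    generalize (∑ j, a j (0, t) * A j (0, t) (0, 1) ^ 2) = NN
    field_simp
    ring


end J_fr_jac

alias fr_jac := J_fr_jac.fr_jac

end Pool.Agent.Helper10.NCP
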