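import Mathlib
import Pool.Agent.Helper10.NCP.Base

open Set Filter Topology
open scoped RealInnerProductSpace ContDiff

noncomputable section

namespace Pool.Agent.Helper10.NCP

namespace J_c1_ineq


-- TARGET: prove this (put auxiliary lemmas between the ASSUMED END line and the theorem)

theorem c1_ineq_aux (a0 a1 a2 b0 b1 b2 P0 P1 P2 : ℝ) (s0 : a0 ^ 2 + b0 ^ 2 = 1)
    (s1 : a1 ^ 2 + b1 ^ 2 = 1) (s2 : a2 ^ 2 + b2 ^ 2 = 1) (hs : a0 + a1 + a2 = 0)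
    (h1 : b1 * P0 = b0 * P1) (h2 : b2 * P0 = b0 * P2) (h3 : b2 * P1 = b1 * P2) :
    a1 * a2 * P0 ^ 2 + a0 * a2 * P1 ^ 2 + a0 * a1 * P2 ^ 2 ≤ 0 := by
  have hD : 0 < b0 ^ 2 + b1 ^ 2 + b2 ^ 2 := by
    by_contra hc
    push Not at hc
    have e0 : b0 ^ 2 = 0 := by nlinarith [sq_nonneg b0, sq_nonneg b1, sq_nonneg b2]
    have e1 : b1 ^ 2 = 0 := by nlinarith [sq_nonneg b0, sq_nonneg b1, sq_nonneg b2]
    have e2 : b2 ^ 2 = 0 := by nlinarith [sq_nonneg b0, sq_nonneg b1, sq_nonneg b2]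
    rw [e0, add_zero] at s0
    rw [e1, add_zero] at s1
    rw [e2, add_zero] at s2
    have e3 : a2 = -(a0 + a1) := by linarith
    have e4 : a0 * a1 = -1 / 2 := by
      rw [e3] at s2
      linarith [s0, s1, s2, (by ring : (-(a0 + a1)) ^ 2 = a0 ^ 2 + 2 * (a0 * a1) + a1 ^ 2)]
    have e5 : (a0 * a1) ^ 2 = 1 := by rw [mul_pow, s0, s1, one_mul]
    rw [e4] at e5
    norm_num at e5
  have hb0 : b0 ^ 2 = 1 - a0 ^ 2 := by linarith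
  have hb1 : b1 ^ 2 = 1 - a1 ^ 2 := by linarith
  have hb2 : b2 ^ 2 = 1 - a2 ^ 2 := by linarith
  have q0 : (b0 ^ 2 + b1 ^ 2 + b2 ^ 2) * P0 ^ 2 = b0 ^ 2 * (P0 ^ 2 + P1 ^ 2 + P2 ^ 2) := by
    linear_combination (b1 * P0 + b0 * P1) * h1 + (b2 * P0 + b0 * P2) * h2
  have q1 : (b0 ^ 2 + b1 ^ 2 + b2 ^ 2) * P1 ^ 2 = b1 ^ 2 * (P0 ^ 2 + P1 ^ 2 + P2 ^ 2) := by
    linear_combination (-(b1 * P0 + b0 * P1)) * h1 + (b2 * P1 + b1 * P2) * h3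
  have q2 : (b0 ^ 2 + b1 ^ 2 + b2 ^ 2) * P2 ^ 2 = b2 ^ 2 * (P0 ^ 2 + P1 ^ 2 + P2 ^ 2) := by
    linear_combination (-(b2 * P0 + b0 * P2)) * h2 - (b2 * P1 + b1 * P2) * h3
  have key : (b0 ^ 2 + b1 ^ 2 + b2 ^ 2) *
      (a1 * a2 * P0 ^ 2 + a0 * a2 * P1 ^ 2 + a0 * a1 * P2 ^ 2) =
      -(1 / 2) * (a0 ^ 2 + a1 ^ 2 + a2 ^ 2) * (P0 ^ 2 + P1 ^ 2 + P2 ^ 2) := by
    have e1 : (b0 ^ 2 + b1 ^ 2 + b2 ^ 2) *
        (a1 * a2 * P0 ^ 2 + a0 * a2 * P1 ^ 2 + a0 * a1 * P2 ^ 2) =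
        (a1 * a2 * b0 ^ 2 + a0 * a2 * b1 ^ 2 + a0 * a1 * b2 ^ 2) *
          (P0 ^ 2 + P1 ^ 2 + P2 ^ 2) := by
      linear_combination (a1 * a2) * q0 + (a0 * a2) * q1 + (a0 * a1) * q2
    rw [e1, hb0, hb1, hb2]
    have e2 : a1 * a2 * (1 - a0 ^ 2) + a0 * a2 * (1 - a1 ^ 2) + a0 * a1 * (1 - a2 ^ 2) =
        -(1 / 2) * (a0 ^ 2 + a1 ^ 2 + a2 ^ 2) := by
      linear_combination ((a0 + a1 + a2) / 2 - a0 * a1 * a2) * hs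
    rw [e2]
  have hle : (b0 ^ 2 + b1 ^ 2 + b2 ^ 2) *
      (a1 * a2 * P0 ^ 2 + a0 * a2 * P1 ^ 2 + a0 * a1 * P2 ^ 2) ≤ 0 := by
    rw [key]
    have : 0 ≤ (a0 ^ 2 + a1 ^ 2 + a2 ^ 2) * (P0 ^ 2 + P1 ^ 2 + P2 ^ 2) := by positivity
    linarith
  by_contra hc
  push Not at hc
  have := mul_pos hD hc
  linarith

theorem c1_ineq (a b X Y : Fin 3 → ℝ) (sq : ∀ k, a k ^ 2 + b k ^ 2 = 1) (sum : ∑ k, a k = 0)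
    (hX : ∑ k, b k * X k = 0) (hY : ∑ k, b k * Y k = 0) :
    (∑ k, a k * X k ^ 2) * (∑ k, a k * Y k ^ 2) ≤ (∑ k, a k * X k * Y k) ^ 2 := by
  simp only [Fin.sum_univ_three] at sum hX hY ⊢
  have h := c1_ineq_aux (a 0) (a 1) (a 2) (b 0) (b 1) (b 2)
    (X 1 * Y 2 - X 2 * Y 1) (X 2 * Y 0 - X 0 * Y 2) (X 0 * Y 1 - X 1 * Y 0)
    (sq 0) (sq 1) (sq 2) sum
    (by linear_combination (Y 2) * hX - (X 2) * hY)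
    (by linear_combination (X 1) * hY - (Y 1) * hX)
    (by linear_combination (Y 0) * hX - (X 0) * hY)
  linarith [h, (by ring : (a 0 * X 0 * Y 0 + a 1 * X 1 * Y 1 + a 2 * X 2 * Y 2) ^ 2 -
    (a 0 * X 0 ^ 2 + a 1 * X 1 ^ 2 + a 2 * X 2 ^ 2) *
      (a 0 * Y 0 ^ 2 + a 1 * Y 1 ^ 2 + a 2 * Y 2 ^ 2) =
    -(a 1 * a 2 * (X 1 * Y 2 - X 2 * Y 1) ^ 2 + a 0 * a 2 * (X 2 * Y 0 - X 0 * Y 2) ^ 2 +
      a 0 * a 1 * (X 0 * Y 1 - X 1 * Y 0) ^ 2))]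



end J_c1_ineq

alias c1_ineq := J_c1_ineq.c1_ineq

end Pool.Agent.Helper10.NCP
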