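import Mathlib
import Pool.Agent.Helper10.NCP.Base
import Pool.Agent.Helper10.NCP.J_c1_ineq
import Pool.Agent.Helper10.NCP.J_den_pos

open Set Filter Topology
open scoped RealInnerProductSpace ContDiff

noncomputable section

namespace Pool.Agent.Helper10.NCP

namespace J_od_convex


-- TARGET: prove this (put auxiliary lemmas between the ASSUMED END line and the theorem)

theorem od_convex (a b w ξ η : Fin 3 → ℝ → ℝ) (mu : ℝ → ℝ)
    (sq : ∀ k t, a k t ^ 2 + b k t ^ 2 = 1) (sum : ∀ t, ∑ k, a k t = 0)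
    (hbw : ∀ t, ∑ k, b k t * w k t = 0) (hbξ : ∀ t, ∑ k, b k t * ξ k t = 0)
    (hbη : ∀ t, ∑ k, b k t * η k t = -∑ k, a k t * w k t * ξ k t)
    (hξ : ∀ k t, HasDerivAt (ξ k) (η k t) t)
    (hη : ∀ k t, HasDerivAt (η k)
      (-((∑ j, a j t * w j t ^ 2) / ∑ j, b j t ^ 2) * (a k t * ξ k t) + mu t * b k t) t)
    {t₀ t₁ : ℝ} (h01 : t₀ < t₁) (h0 : ∀ k, ξ k t₀ = 0) (h1 : ∀ k, ξ k t₁ = 0) :
    ∀ t ∈ Set.Icc t₀ t₁, ∀ k, ξ k t = 0 := by
  have hf : ∀ t, HasDerivAt (fun s => ∑ k, ξ k s ^ 2) (∑ k, 2 * ξ k t * η k t) t := by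
    intro t
    have h := HasDerivAt.fun_sum (u := Finset.univ) (fun k (_ : k ∈ Finset.univ) => (hξ k t).pow 2)
    refine h.congr_deriv ?_
    apply Finset.sum_congr rfl
    intro k _
    simp
  have hg : ∀ t, HasDerivAt (fun s => ∑ k, 2 * ξ k s * η k s)
      (∑ k, (2 * η k t * η k t + 2 * ξ k t *
        (-((∑ j, a j t * w j t ^ 2) / ∑ j, b j t ^ 2) * (a k t * ξ k t) + mu t * b k t))) t := by
    intro t
    exact HasDerivAt.fun_sum (u := Finset.univ) (fun k (_ : k ∈ Finset.univ) =>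
      ((hξ k t).const_mul 2).mul (hη k t))
  have hpos : ∀ t, 0 ≤ ∑ k, (2 * η k t * η k t + 2 * ξ k t *
        (-((∑ j, a j t * w j t ^ 2) / ∑ j, b j t ^ 2) * (a k t * ξ k t) + mu t * b k t)) := by
    intro t
    have hD := den_pos (fun k => a k t) (fun k => b k t) (fun k => sq k t) (sum t)
    have hc1 := c1_ineq (fun k => a k t) (fun k => b k t) (fun k => w k t) (fun k => ξ k t)
      (fun k => sq k t) (sum t) (hbw t) (hbξ t)
    have hcs := Finset.sum_mul_sq_le_sq_mul_sq Finset.univ (fun k => b k t) (fun k => η k t)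
    rw [hbη t, neg_sq] at hcs
    have hbx := hbξ t
    set D : ℝ := ∑ j, b j t ^ 2 with hDdef
    set W : ℝ := ∑ j, a j t * w j t ^ 2 with hW
    have hD' : 0 < D := hD
    have e1 : ∑ k, (2 * η k t * η k t + 2 * ξ k t *
        (-(W / D) * (a k t * ξ k t) + mu t * b k t))
        = 2 * ((∑ k, η k t ^ 2) - W / D * (∑ k, a k t * ξ k t ^ 2) + mu t * ∑ k, b k t * ξ k t) := by
      rw [Fin.sum_univ_three, Fin.sum_univ_three, Fin.sum_univ_three, Fin.sum_univ_three]
      ring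
    rw [e1, hbx, mul_zero, add_zero]
    have h3 : W * (∑ k, a k t * ξ k t ^ 2) ≤ D * ∑ k, η k t ^ 2 := le_trans hc1 hcs
    have h4 : W / D * (∑ k, a k t * ξ k t ^ 2) ≤ ∑ k, η k t ^ 2 := by
      rw [div_mul_eq_mul_div, div_le_iff₀ hD']
      linarith
    linarith
  have hmono : Monotone (fun s => ∑ k, 2 * ξ k s * η k s) := by
    apply monotone_of_deriv_nonneg (fun t => (hg t).differentiableAt)
    intro t
    rw [(hg t).deriv]
    exact hpos t
  have hnn : ∀ t, 0 ≤ ∑ k, ξ k t ^ 2 := fun t => Finset.sum_nonneg (fun k _ => sq_nonneg _)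
  have hf0 : ∑ k, ξ k t₀ ^ 2 = 0 := Finset.sum_eq_zero (fun k _ => by rw [h0 k]; ring)
  have hf1 : ∑ k, ξ k t₁ ^ 2 = 0 := Finset.sum_eq_zero (fun k _ => by rw [h1 k]; ring)
  have hzero : ∀ t ∈ Set.Icc t₀ t₁, ∑ k, ξ k t ^ 2 = 0 := by
    intro t ht
    rcases eq_or_lt_of_le ht.1 with h | hlt0
    · rw [← h]
      exact hf0
    rcases eq_or_lt_of_le ht.2 with h | hlt1
    · rw [h]
      exact hf1
    by_contra hne
    have hp : 0 < ∑ k, ξ k t ^ 2 := lt_of_le_of_ne (hnn t) (Ne.symm hne)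
    have hcont : Continuous (fun s => ∑ k, ξ k s ^ 2) :=
      continuous_iff_continuousAt.2 (fun s => (hf s).continuousAt)
    obtain ⟨c, hc, hc'⟩ := exists_hasDerivAt_eq_slope (fun s => ∑ k, ξ k s ^ 2)
      (fun s => ∑ k, 2 * ξ k s * η k s) hlt0 hcont.continuousOn (fun x _ => hf x)
    obtain ⟨d, hd, hd'⟩ := exists_hasDerivAt_eq_slope (fun s => ∑ k, ξ k s ^ 2)
      (fun s => ∑ k, 2 * ξ k s * η k s) hlt1 hcont.continuousOn (fun x _ => hf x)
    have hcd : c ≤ d := (hc.2.trans hd.1).le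
    have hm := hmono hcd
    simp only at hm hc' hd'
    rw [hc', hd', hf0, hf1] at hm
    have h5 : 0 < (∑ k, ξ k t ^ 2 - 0) / (t - t₀) := by
      apply div_pos
      · linarith
      · linarith
    have h6 : (0 - ∑ k, ξ k t ^ 2) / (t₁ - t) < 0 := by
      apply div_neg_of_neg_of_pos
      · linarith
      · linarith
    linarith
  intro t ht k
  have h7 := hzero t ht
  rw [Finset.sum_eq_zero_iff_of_nonneg (fun k _ => sq_nonneg _)] at h7
  exact pow_eq_zero_iff (two_ne_zero) |>.1 (h7 k (Finset.mem_univ k))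


end J_od_convex

alias od_convex := J_od_convex.od_convex

end Pool.Agent.Helper10.NCP
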