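import Mathlib
import Pool.Agent.Helper10.NCP.Base
import Pool.Agent.Helper10.NCP.J_den_pos

open Set Filter Topology
open scoped RealInnerProductSpace ContDiff

noncomputable section

namespace Pool.Agent.Helper10.NCP

namespace J_od_unique


-- TARGET: prove this (put auxiliary lemmas between the ASSUMED END line and the theorem)

/-- the vector field of the linear system -/
def odVf (a b w : Fin 3 → ℝ → ℝ) (t : ℝ) (p : (Fin 3 → ℝ) × (Fin 3 → ℝ)) :
    (Fin 3 → ℝ) × (Fin 3 → ℝ) :=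
  (p.2, fun k => -((∑ j, a j t * w j t ^ 2) / ∑ j, b j t ^ 2) * (a k t * p.1 k) +
    ((∑ j, b j t * p.1 j * w j t ^ 2 - 2 * ∑ j, a j t * w j t * p.2 j) /
      (∑ j, b j t ^ 2) + 2 * (∑ j, a j t * w j t ^ 2) * (∑ j, a j t * b j t * p.1 j) /
      (∑ j, b j t ^ 2) ^ 2) * b k t)

theorem odVf_sub (a b w : Fin 3 → ℝ → ℝ) (t : ℝ) (p q : (Fin 3 → ℝ) × (Fin 3 → ℝ)) :
    odVf a b w t (p - q) = odVf a b w t p - odVf a b w t q := by
  unfold odVf
  refine Prod.ext rfl ?_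
  funext k
  simp only [Prod.fst_sub, Prod.snd_sub, Pi.sub_apply, Fin.sum_univ_three]
  ring

theorem odVf_smul (a b w : Fin 3 → ℝ → ℝ) (t r : ℝ) (p : (Fin 3 → ℝ) × (Fin 3 → ℝ)) :
    odVf a b w t (r • p) = r • odVf a b w t p := by
  unfold odVf
  refine Prod.ext rfl ?_
  funext k
  simp only [Prod.smul_fst, Prod.smul_snd, Pi.smul_apply, smul_eq_mul, Fin.sum_univ_three]
  ring

theorem odVf_cont (a b w : Fin 3 → ℝ → ℝ)
    (ca : ∀ k, Continuous (a k)) (cb : ∀ k, Continuous (b k)) (cw : ∀ k, Continuous (w k))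
    (sq : ∀ k t, a k t ^ 2 + b k t ^ 2 = 1) (sum : ∀ t, ∑ k, a k t = 0) :
    Continuous (fun x : ℝ × ((Fin 3 → ℝ) × (Fin 3 → ℝ)) => odVf a b w x.1 x.2) := by
  have hD : ∀ t, ∑ j, b j t ^ 2 ≠ 0 := fun t => (den_pos (fun k => a k t) (fun k => b k t)
    (fun k => sq k t) (sum t)).ne'
  have hDc : Continuous (fun x : ℝ × ((Fin 3 → ℝ) × (Fin 3 → ℝ)) => ∑ j, b j x.1 ^ 2) := by
    fun_prop
  unfold odVf
  refine Continuous.prodMk (by fun_prop) (continuous_pi fun k => ?_)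
  refine Continuous.add (Continuous.mul (Continuous.neg ?_) (by fun_prop))
    (Continuous.mul (Continuous.add ?_ ?_) (by fun_prop))
  · exact Continuous.div (by fun_prop) hDc (fun x => hD x.1)
  · exact Continuous.div (by fun_prop) hDc (fun x => hD x.1)
  · exact Continuous.div (by fun_prop) (hDc.pow 2) (fun x => pow_ne_zero 2 (hD x.1))

theorem od_unique (a b w ξ η : Fin 3 → ℝ → ℝ) (mu : ℝ → ℝ)
    (ca : ∀ k, Continuous (a k)) (cb : ∀ k, Continuous (b k)) (cw : ∀ k, Continuous (w k))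
    (sq : ∀ k t, a k t ^ 2 + b k t ^ 2 = 1) (sum : ∀ t, ∑ k, a k t = 0)
    (hmu : ∀ t, mu t = (∑ j, b j t * ξ j t * w j t ^ 2 - 2 * ∑ j, a j t * w j t * η j t) /
      (∑ j, b j t ^ 2) + 2 * (∑ j, a j t * w j t ^ 2) * (∑ j, a j t * b j t * ξ j t) /
      (∑ j, b j t ^ 2) ^ 2)
    (hξ : ∀ k t, HasDerivAt (ξ k) (η k t) t)
    (hη : ∀ k t, HasDerivAt (η k)
      (-((∑ j, a j t * w j t ^ 2) / ∑ j, b j t ^ 2) * (a k t * ξ k t) + mu t * b k t) t)
    {t₀ : ℝ} (h0 : ∀ k, ξ k t₀ = 0) (h1 : ∀ k, η k t₀ = 0) : ∀ t k, ξ k t = 0 := by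
  have hcont := odVf_cont a b w ca cb cw sq sum
  intro t k
  obtain ⟨A, B, htA, htB, h0A, h0B⟩ : ∃ A B : ℝ, A < t ∧ t < B ∧ A < t₀ ∧ t₀ < B :=
    ⟨min t t₀ - 1, max t t₀ + 1, by linarith [min_le_left t t₀], by linarith [le_max_left t t₀],
      by linarith [min_le_right t t₀], by linarith [le_max_right t t₀]⟩
  have hcomp : IsCompact (Icc A B ×ˢ Metric.closedBall (0 : (Fin 3 → ℝ) × (Fin 3 → ℝ)) 1) :=
    isCompact_Icc.prod (isCompact_closedBall _ _)
  obtain ⟨K, hK⟩ := hcomp.exists_bound_of_continuousOn hcont.continuousOn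
  have hK0 : 0 ≤ K := le_trans (norm_nonneg _) (hK (t, 0) ⟨⟨htA.le, htB.le⟩, by simp⟩)
  have hKb : ∀ s ∈ Icc A B, ∀ p, ‖odVf a b w s p‖ ≤ K * ‖p‖ := by
    intro s hs p
    by_cases hp : p = 0
    · subst hp
      have h2 := odVf_smul a b w s 0 0
      rw [zero_smul, zero_smul] at h2
      rw [h2]
      simp
    · have hn : ‖p‖ ≠ 0 := norm_ne_zero_iff.2 hp
      have h2 : odVf a b w s p = ‖p‖ • odVf a b w s (‖p‖⁻¹ • p) := by
        rw [← odVf_smul, smul_smul, mul_inv_cancel₀ hn, one_smul]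
      rw [h2, norm_smul, norm_norm, mul_comm]
      refine mul_le_mul_of_nonneg_right (hK (s, ‖p‖⁻¹ • p) ⟨hs, ?_⟩) (norm_nonneg _)
      rw [mem_closedBall_zero_iff, norm_smul, norm_inv, norm_norm, inv_mul_cancel₀ hn]
  have hlip : ∀ s ∈ Ioo A B, LipschitzOnWith K.toNNReal (odVf a b w s) univ := by
    intro s hs
    refine LipschitzOnWith.of_dist_le_mul fun p _ q _ => ?_
    rw [dist_eq_norm, dist_eq_norm, ← odVf_sub, Real.coe_toNNReal _ hK0]
    exact hKb s ⟨hs.1.le, hs.2.le⟩ _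
  have hz : ∀ s, odVf a b w s 0 = 0 := by
    intro s
    have h2 := odVf_smul a b w s 0 0
    rw [zero_smul, zero_smul] at h2
    exact h2
  have heq := ODE_solution_unique_of_mem_Ioo (v := odVf a b w) (s := fun _ => univ)
    (K := K.toNNReal) (f := fun s => ((fun k => ξ k s, fun k => η k s) : (Fin 3 → ℝ) × (Fin 3 → ℝ)))
    (g := fun _ => 0) (a := A) (b := B) (t₀ := t₀) hlip ⟨h0A, h0B⟩
    (by
      intro s hs
      refine ⟨?_, mem_univ _⟩
      refine HasDerivAt.prodMk (hasDerivAt_pi.2 fun k => hξ k s) (hasDerivAt_pi.2 fun k => ?_)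
      have h2 := hη k s
      rw [hmu s] at h2
      exact h2)
    (by
      intro s hs
      refine ⟨?_, mem_univ _⟩
      rw [hz]
      exact hasDerivAt_const s _)
    (by
      refine Prod.ext ?_ ?_
      · funext k; exact h0 k
      · funext k; exact h1 k)
  have h3 := heq ⟨htA, htB⟩
  have h4 := congrArg Prod.fst h3
  exact congrFun h4 k


end J_od_unique

alias od_unique := J_od_unique.od_unique

end Pool.Agent.Helper10.NCP
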