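import Mathlib
import Pool.Agent.Helper10.NCP.Base
import Pool.Agent.Helper10.NCP.J_den_pos
import Pool.Agent.Helper10.NCP.J_od_convex
import Pool.Agent.Helper10.NCP.J_od_unique
import Pool.Agent.Helper10.NCP.J_fr_jac

open Set Filter Topology
open scoped RealInnerProductSpace ContDiff

noncomputable section

namespace Pool.Agent.Helper10.NCP

namespace J_fr_zero


-- TARGET: prove this (put auxiliary lemmas between the ASSUMED END line and the theorem)

theorem fr_zero_curve {f : ℝ × ℝ → ℝ} (hf : ContDiff ℝ ∞ f) (t : ℝ) :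
    HasDerivAt (fun t : ℝ => f (0, t)) (fderiv ℝ f (0, t) (0, 1)) t := by
  have h1 : HasFDerivAt f (fderiv ℝ f (0, t)) (0, t) :=
    ((hf.differentiable (by simp)) (0, t)).hasFDerivAt
  have h2 : HasDerivAt (fun t : ℝ => ((0, t) : ℝ × ℝ)) (0, 1) t :=
    (hasDerivAt_const t (0 : ℝ)).prodMk (hasDerivAt_id t)
  exact h1.comp_hasDerivAt t h2

theorem fr_zero_symm {G : ℝ × ℝ → ℝ} (hG : ContDiff ℝ ∞ G) (x e e' : ℝ × ℝ) :
    fderiv ℝ (fun y => fderiv ℝ G y e) x e' = fderiv ℝ (fun y => fderiv ℝ G y e') x e := by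
  have hd : Differentiable ℝ (fderiv ℝ G) :=
    (hG.fderiv_right (m := ∞) (by simp)).differentiable (by simp)
  have key : ∀ u u' : ℝ × ℝ, fderiv ℝ (fun y => fderiv ℝ G y u) x u' =
      fderiv ℝ (fderiv ℝ G) x u' u := by
    intro u u'
    rw [fderiv_clm_apply (hd x) (differentiableAt_const u)]
    simp
  rw [key, key]
  have hs : IsSymmSndFDerivAt ℝ G x :=
    (hG.contDiffAt (x := x)).isSymmSndFDerivAt (by
      simp only [minSmoothness_of_isRCLikeNormedField]
      exact WithTop.coe_le_coe.2 le_top)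
  exact hs e' e

theorem fr_zero {a b : Fin 3 → ℝ × ℝ → ℝ} {A : Fin 3 → ℝ × ℝ → ℝ × ℝ → ℝ}
    {U : ℝ × ℝ → ℝ × ℝ → ℝ} (h : Frame a b A U)
    (hg : ∀ k x, fderiv ℝ (fun y => A k y (0, 1)) x (0, 1) =
      -((∑ j, a j x * A j x (0, 1) ^ 2) / ∑ j, b j x ^ 2) * b k x)
    (hu : ∀ x, fderiv ℝ (fun y => U y (0, 1)) x (0, 1) = 0)
    {t₀ t₁ : ℝ} (h01 : t₀ < t₁)
    (hA0 : ∀ k, A k (0, t₀) (1, 0) = 0) (hA1 : ∀ k, A k (0, t₁) (1, 0) = 0)
    (hU0 : U (0, t₀) (1, 0) = 0) (hU1 : U (0, t₁) (1, 0) = 0) (t : ℝ) :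
    (∀ k, A k (0, t) (1, 0) = 0) ∧ U (0, t) (1, 0) = 0 := by
  have hcur : Continuous (fun t : ℝ => ((0, t) : ℝ × ℝ)) := by fun_prop
  constructor
  · have hξ : ∀ k t, HasDerivAt (fun t => A k (0, t) (1, 0))
        (fderiv ℝ (fun y => A k y (0, 1)) (0, t) (1, 0)) t := fun k t => (fr_jac h hg k t).1
    have hη := fun k t => (fr_jac h hg k t).2
    have hbη : ∀ t : ℝ, ∑ k, b k (0, t) * fderiv ℝ (fun y => A k y (0, 1)) (0, t) (1, 0) =
        -∑ k, a k (0, t) * A k (0, t) (0, 1) * A k (0, t) (1, 0) := by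
      intro t
      have h1 : HasDerivAt (fun t : ℝ => ∑ k, b k (0, t) * A k (0, t) (1, 0))
          (∑ k, ((a k (0, t) * A k (0, t) (0, 1)) * A k (0, t) (1, 0) +
            b k (0, t) * fderiv ℝ (fun y => A k y (0, 1)) (0, t) (1, 0))) t := by
        apply HasDerivAt.fun_sum
        intro k _
        have hb := fr_zero_curve (h.sm_b k) t
        rw [h.db] at hb
        exact hb.mul (hξ k t)
      have h2 : (fun t : ℝ => ∑ k, b k (0, t) * A k (0, t) (1, 0)) = fun _ => 0 := by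
        funext t
        exact h.orth (0, t) (1, 0)
      rw [h2] at h1
      have h3 := h1.unique (hasDerivAt_const t (0 : ℝ))
      rw [Finset.sum_add_distrib] at h3
      linarith
    have hconv := od_convex (fun k t => a k (0, t)) (fun k t => b k (0, t))
      (fun k t => A k (0, t) (0, 1)) (fun k t => A k (0, t) (1, 0))
      (fun k t => fderiv ℝ (fun y => A k y (0, 1)) (0, t) (1, 0)) _
      (fun k t => h.sq k (0, t)) (fun t => h.sum (0, t)) (fun t => h.orth (0, t) (0, 1))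
      (fun t => h.orth (0, t) (1, 0)) hbη hξ hη h01 hA0 hA1
    have hm : (t₀ + t₁) / 2 ∈ Set.Ioo t₀ t₁ := ⟨by linarith, by linarith⟩
    have hηm : ∀ k, fderiv ℝ (fun y => A k y (0, 1)) (0, (t₀ + t₁) / 2) (1, 0) = 0 := by
      intro k
      have h1 := hξ k ((t₀ + t₁) / 2)
      have h2 : (fun t : ℝ => A k (0, t) (1, 0)) =ᶠ[𝓝 ((t₀ + t₁) / 2)] fun _ => (0 : ℝ) := by
        filter_upwards [Ioo_mem_nhds hm.1 hm.2] with t ht
        exact hconv t ⟨ht.1.le, ht.2.le⟩ k
      exact h1.unique ((hasDerivAt_const _ (0 : ℝ)).congr_of_eventuallyEq h2)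
    have huniq := od_unique (fun k t => a k (0, t)) (fun k t => b k (0, t))
      (fun k t => A k (0, t) (0, 1)) (fun k t => A k (0, t) (1, 0))
      (fun k t => fderiv ℝ (fun y => A k y (0, 1)) (0, t) (1, 0)) _
      (fun k => (h.sm_a k).continuous.comp hcur) (fun k => (h.sm_b k).continuous.comp hcur)
      (fun k => (h.sm_A k (0, 1)).continuous.comp hcur)
      (fun k t => h.sq k (0, t)) (fun t => h.sum (0, t)) (fun t => rfl) hξ hη
      (t₀ := (t₀ + t₁) / 2) (fun k => hconv _ ⟨hm.1.le, hm.2.le⟩ k) hηm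
    intro k
    exact huniq t k
  · have hG := h.sm_U (0, 1)
    have hζ : ∀ t : ℝ, HasDerivAt (fun t : ℝ => U (0, t) (1, 0))
        (fderiv ℝ (fun y => U y (0, 1)) (0, t) (1, 0)) t := by
      intro t
      have := fr_zero_curve (h.sm_U (1, 0)) t
      rw [h.cl_U] at this
      exact this
    have hG1 : ContDiff ℝ ∞ (fun x => fderiv ℝ (fun y => U y (0, 1)) x (1, 0)) :=
      (hG.fderiv_right (m := ∞) (by simp)).clm_apply contDiff_const
    have hσ : ∀ t : ℝ, HasDerivAt (fun t : ℝ => fderiv ℝ (fun y => U y (0, 1)) (0, t) (1, 0))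
        0 t := by
      intro t
      have h1 := fr_zero_curve hG1 t
      rw [fr_zero_symm hG] at h1
      have h2 : (fun y => fderiv ℝ (fun y => U y (0, 1)) y (0, 1)) = fun _ => (0 : ℝ) := by
        funext x
        exact hu x
      rw [h2] at h1
      simpa using h1
    have hσc : ∀ t : ℝ, fderiv ℝ (fun y => U y (0, 1)) (0, t) (1, 0) =
        fderiv ℝ (fun y => U y (0, 1)) (0, 0) (1, 0) := by
      intro t
      exact is_const_of_deriv_eq_zero (fun t => (hσ t).differentiableAt)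
        (fun t => (hσ t).deriv) t 0
    set c : ℝ := fderiv ℝ (fun y => U y (0, 1)) (0, 0) (1, 0) with hc
    have hlin : ∀ t : ℝ, HasDerivAt (fun t : ℝ => U (0, t) (1, 0) - c * t) 0 t := by
      intro t
      have h1 : HasDerivAt (fun t : ℝ => U (0, t) (1, 0) - c * t)
          (fderiv ℝ (fun y => U y (0, 1)) (0, t) (1, 0) - c * 1) t :=
        (hζ t).sub ((hasDerivAt_id t).const_mul c)
      rw [hσc t, mul_one, sub_self] at h1
      exact h1
    have hconst : ∀ t : ℝ, U (0, t) (1, 0) - c * t = U (0, t₀) (1, 0) - c * t₀ := by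
      intro t
      exact is_const_of_deriv_eq_zero (f := fun t : ℝ => U (0, t) (1, 0) - c * t)
        (fun t => (hlin t).differentiableAt) (fun t => (hlin t).deriv) t t₀
    have h1 := hconst t₁
    rw [hU0, hU1] at h1
    have hc0 : c = 0 := by
      have : c * (t₁ - t₀) = 0 := by linarith
      rcases mul_eq_zero.1 this with h2 | h2
      · exact h2
      · linarith
    have h2 := hconst t
    rw [hU0, hc0] at h2
    linarith


end J_fr_zero

alias fr_zero := J_fr_zero.fr_zero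

end Pool.Agent.Helper10.NCP
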