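import Mathlib
import Pool.Agent.Helper10.NCP.Base

open Set Filter Topology
open scoped RealInnerProductSpace ContDiff

noncomputable section

namespace Pool.Agent.Helper10.NCP

namespace J_realize


-- TARGET: prove this (put auxiliary lemmas between the ASSUMED END line and the theorem)

theorem realize {x : V × (ℝ × ℝ)} (hx : x ∈ surf ×ˢ circ) (Y : Fin 3 → ℝ) (y : ℝ)
    (hY : ∑ k, x.1.2 k * Y k = 0) :
    ∃ w, Lin x w ∧ (∀ k, ang k x w = Y k) ∧ ver x w = y := by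
  obtain ⟨⟨hx1, hx2⟩, hx3⟩ := hx
  have hx3' : x.2.1 ^ 2 + x.2.2 ^ 2 = 1 := hx3
  obtain ⟨z, hz⟩ : ∃ z : ℝ, z = y / √(1 + √2) - (2 - √2) * Y 0 := ⟨_, rfl⟩
  have hang : ∀ k, ang k x ((fun k => -(x.1.2 k * Y k), fun k => x.1.1 k * Y k),
      (-x.2.2 * z, x.2.1 * z)) = Y k := by
    intro k
    show x.1.1 k * (x.1.1 k * Y k) - x.1.2 k * (-(x.1.2 k * Y k)) = Y k
    linear_combination (Y k) * hx1 k
  refine ⟨((fun k => -(x.1.2 k * Y k), fun k => x.1.1 k * Y k), (-x.2.2 * z, x.2.1 * z)),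
    ⟨⟨fun k => ?_, ?_⟩, ?_⟩, hang, ?_⟩
  · show x.1.1 k * (-(x.1.2 k * Y k)) + x.1.2 k * (x.1.1 k * Y k) = 0
    ring
  · show ∑ k, -(x.1.2 k * Y k) = 0
    rw [Finset.sum_neg_distrib, hY, neg_zero]
  · show x.2.1 * (-x.2.2 * z) + x.2.2 * (x.2.1 * z) = 0
    ring
  · unfold ver
    rw [hang 0]
    show √(1 + √2) * ((x.2.1 * (x.2.1 * z) - x.2.2 * (-x.2.2 * z)) + (2 - √2) * Y 0) = y
    have h1 : √(1 + √2) ≠ 0 := by positivity
    have h2 : (x.2.1 * (x.2.1 * z) - x.2.2 * (-x.2.2 * z)) = z := by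
      linear_combination z * hx3'
    rw [h2, hz]
    field_simp
    ring


end J_realize

alias realize := J_realize.realize

end Pool.Agent.Helper10.NCP
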