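import Mathlib
import Pool.Agent.Helper10.NCP.Base
import Pool.Agent.Helper10.NCP.J_realize
import Pool.Agent.Helper10.NCP.J_met_fr

open Set Filter Topology
open scoped RealInnerProductSpace ContDiff

noncomputable section

namespace Pool.Agent.Helper10.NCP

namespace J_accel


-- TARGET: prove this (put auxiliary lemmas between the ASSUMED END line and the theorem)

theorem accel_hd (f : ℝ → Fin 10 → ℝ) (f' : Fin 10 → ℝ) (t : ℝ)
    (h : ∀ i, HasDerivAt (fun s => f s i) (f' i) t) :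
    HasDerivAt (fun s => (WithLp.toLp 2 (f s) : EuclideanSpace ℝ (Fin 10)))
      (WithLp.toLp 2 f') t := by
  have h1 : HasDerivAt f f' t := hasDerivAt_pi.mpr h
  exact ((PiLp.continuousLinearEquiv 2 ℝ (fun _ : Fin 10 => ℝ)).symm :
    (Fin 10 → ℝ) →L[ℝ] EuclideanSpace ℝ (Fin 10)).hasFDerivAt.comp_hasDerivAt t h1

theorem accel_a {γ : ℝ → V × (ℝ × ℝ)} {v : V × (ℝ × ℝ)} {s : ℝ} (h : HasDerivAt γ v s)
    (k : Fin 3) : HasDerivAt (fun s => (γ s).1.1 k) (v.1.1 k) s :=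
  ((ContinuousLinearMap.proj (R := ℝ) (φ := fun _ : Fin 3 => ℝ) k).comp
    ((ContinuousLinearMap.fst ℝ (Fin 3 → ℝ) (Fin 3 → ℝ)).comp
      (ContinuousLinearMap.fst ℝ V (ℝ × ℝ)))).hasFDerivAt.comp_hasDerivAt s h

theorem accel_b {γ : ℝ → V × (ℝ × ℝ)} {v : V × (ℝ × ℝ)} {s : ℝ} (h : HasDerivAt γ v s)
    (k : Fin 3) : HasDerivAt (fun s => (γ s).1.2 k) (v.1.2 k) s :=
  ((ContinuousLinearMap.proj (R := ℝ) (φ := fun _ : Fin 3 => ℝ) k).comp
    ((ContinuousLinearMap.snd ℝ (Fin 3 → ℝ) (Fin 3 → ℝ)).comp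
      (ContinuousLinearMap.fst ℝ V (ℝ × ℝ)))).hasFDerivAt.comp_hasDerivAt s h

theorem accel_p {γ : ℝ → V × (ℝ × ℝ)} {v : V × (ℝ × ℝ)} {s : ℝ} (h : HasDerivAt γ v s) :
    HasDerivAt (fun s => (γ s).2.1) v.2.1 s :=
  ((ContinuousLinearMap.fst ℝ ℝ ℝ).comp
    (ContinuousLinearMap.snd ℝ V (ℝ × ℝ))).hasFDerivAt.comp_hasDerivAt s h

theorem accel_q {γ : ℝ → V × (ℝ × ℝ)} {v : V × (ℝ × ℝ)} {s : ℝ} (h : HasDerivAt γ v s) :
    HasDerivAt (fun s => (γ s).2.2) v.2.2 s :=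
  ((ContinuousLinearMap.snd ℝ ℝ ℝ).comp
    (ContinuousLinearMap.snd ℝ V (ℝ × ℝ))).hasFDerivAt.comp_hasDerivAt s h

/-- the differential of `imm` -/
def accel_D (x w : V × (ℝ × ℝ)) : Fin 10 → ℝ :=
  ![√(√2 - 1) * w.1.1 0, √(√2 - 1) * w.1.2 0, w.1.1 1, w.1.2 1, w.1.1 2, w.1.2 2, w.2.1, w.2.2,
    √(√2) * ((w.1.1 0 * x.2.1 + x.1.1 0 * w.2.1) - (w.1.2 0 * x.2.2 + x.1.2 0 * w.2.2)),
    √(√2) * ((w.1.1 0 * x.2.2 + x.1.1 0 * w.2.2) + (w.1.2 0 * x.2.1 + x.1.2 0 * w.2.1))]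

/-- the second derivative of `imm` along a curve -/
def accel_DD (x v A : V × (ℝ × ℝ)) : Fin 10 → ℝ :=
  ![√(√2 - 1) * A.1.1 0, √(√2 - 1) * A.1.2 0, A.1.1 1, A.1.2 1, A.1.1 2, A.1.2 2, A.2.1, A.2.2,
    √(√2) * (((A.1.1 0 * x.2.1 + v.1.1 0 * v.2.1) + (v.1.1 0 * v.2.1 + x.1.1 0 * A.2.1)) -
      ((A.1.2 0 * x.2.2 + v.1.2 0 * v.2.2) + (v.1.2 0 * v.2.2 + x.1.2 0 * A.2.2))),
    √(√2) * (((A.1.1 0 * x.2.2 + v.1.1 0 * v.2.2) + (v.1.1 0 * v.2.2 + x.1.1 0 * A.2.2)) +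
      ((A.1.2 0 * x.2.1 + v.1.2 0 * v.2.1) + (v.1.2 0 * v.2.1 + x.1.2 0 * A.2.1)))]

theorem accel_imm {γ : ℝ → V × (ℝ × ℝ)} {v : V × (ℝ × ℝ)} {s : ℝ} (h : HasDerivAt γ v s) :
    HasDerivAt (fun s => imm (γ s)) (WithLp.toLp 2 (accel_D (γ s) v)) s := by
  unfold imm
  apply accel_hd
  intro i
  fin_cases i
  · exact (accel_a h 0).const_mul _
  · exact (accel_b h 0).const_mul _
  · exact accel_a h 1
  · exact accel_b h 1
  · exact accel_a h 2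
  · exact accel_b h 2
  · exact accel_p h
  · exact accel_q h
  · exact (((accel_a h 0).mul (accel_p h)).sub ((accel_b h 0).mul (accel_q h))).const_mul _
  · exact (((accel_a h 0).mul (accel_q h)).add ((accel_b h 0).mul (accel_p h))).const_mul _

theorem accel_fderiv (x w : V × (ℝ × ℝ)) :
    fderiv ℝ imm x w = WithLp.toLp 2 (accel_D x w) := by
  have hd : DifferentiableAt ℝ imm x := by
    have h1 : ContDiff ℝ 1 imm := by
      rw [contDiff_euclidean]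
      intro i
      unfold imm
      fin_cases i <;> simp <;> fun_prop
    exact (h1.differentiable one_ne_zero) x
  have h1 : HasDerivAt (fun s : ℝ => x + s • w) w 0 := by
    simpa using ((hasDerivAt_id (0 : ℝ)).smul_const w).const_add x
  have h2 := accel_imm h1
  have h3 : HasFDerivAt imm (fderiv ℝ imm x) (x + (0 : ℝ) • w) := by
    rw [zero_smul, add_zero]
    exact hd.hasFDerivAt
  have h4 := h3.comp_hasDerivAt (0 : ℝ) h1
  have h5 := h4.unique h2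
  rw [h5, zero_smul, add_zero]

theorem accel_dd {c c' : ℝ → V × (ℝ × ℝ)} {v A : V × (ℝ × ℝ)} {t : ℝ} (h : HasDerivAt c v t)
    (h' : HasDerivAt c' A t) (hv : c' t = v) :
    HasDerivAt (fun s => (WithLp.toLp 2 (accel_D (c s) (c' s)) : EuclideanSpace ℝ (Fin 10)))
      (WithLp.toLp 2 (accel_DD (c t) v A)) t := by
  subst hv
  apply accel_hd
  intro i
  fin_cases i
  · exact (accel_a h' 0).const_mul _
  · exact (accel_b h' 0).const_mul _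
  · exact accel_a h' 1
  · exact accel_b h' 1
  · exact accel_a h' 2
  · exact accel_b h' 2
  · exact accel_p h'
  · exact accel_q h'
  · exact ((((accel_a h' 0).mul (accel_p h)).add ((accel_a h 0).mul (accel_p h'))).sub
      (((accel_b h' 0).mul (accel_q h)).add ((accel_b h 0).mul (accel_q h')))).const_mul _
  · exact ((((accel_a h' 0).mul (accel_q h)).add ((accel_a h 0).mul (accel_q h'))).add
      (((accel_b h' 0).mul (accel_p h)).add ((accel_b h 0).mul (accel_p h')))).const_mul _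

theorem accel_ang {c c' : ℝ → V × (ℝ × ℝ)} {v A : V × (ℝ × ℝ)} {t : ℝ} (h : HasDerivAt c v t)
    (h' : HasDerivAt c' A t) (hv : c' t = v) (k : Fin 3) :
    HasDerivAt (fun s => ang k (c s) (c' s)) ((c t).1.1 k * A.1.2 k - (c t).1.2 k * A.1.1 k) t := by
  subst hv
  unfold ang
  have h1 := ((accel_a h k).mul (accel_b h' k)).sub ((accel_b h k).mul (accel_a h' k))
  refine h1.congr_deriv ?_
  ring

theorem accel_ver {c c' : ℝ → V × (ℝ × ℝ)} {v A : V × (ℝ × ℝ)} {t : ℝ} (h : HasDerivAt c v t)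
    (h' : HasDerivAt c' A t) (hv : c' t = v) :
    HasDerivAt (fun s => ver (c s) (c' s)) (√(1 + √2) * (((c t).2.1 * A.2.2 - (c t).2.2 * A.2.1) +
      (2 - √2) * ((c t).1.1 0 * A.1.2 0 - (c t).1.2 0 * A.1.1 0))) t := by
  have h2 := accel_ang h h' hv 0
  subst hv
  unfold ver
  have h1 := ((accel_p h).mul (accel_q h')).sub ((accel_q h).mul (accel_p h'))
  have h3 := (h1.add (h2.const_mul (2 - √2))).const_mul (√(1 + √2))
  refine h3.congr_deriv ?_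
  ring

theorem accel_alg (a b p q A1 A2 A3 A4 m n y z r : ℝ) (h1 : a ^ 2 + b ^ 2 = 1)
    (h2 : p ^ 2 + q ^ 2 = 1) (hr : r ^ 2 = 2) :
    (r - 1) * (A1 * (-b * y) + A2 * (a * y)) + (A3 * (-q * z) + A4 * (p * z)) +
      r * ((((A1 * p + (-b * m) * (-q * n)) + ((-b * m) * (-q * n) + a * A3)) -
          ((A2 * q + (a * m) * (p * n)) + ((a * m) * (p * n) + b * A4))) *
        (((-b * y) * p + a * (-q * z)) - ((a * y) * q + b * (p * z))) +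
        (((A1 * q + (-b * m) * (p * n)) + ((-b * m) * (p * n) + a * A4)) +
          ((A2 * p + (a * m) * (-q * n)) + ((a * m) * (-q * n) + b * A3))) *
        (((-b * y) * q + a * (p * z)) + ((a * y) * p + b * (-q * z)))) =
    (a * A2 - b * A1) * y +
      (1 + r) * ((p * A4 - q * A3) + (2 - r) * (a * A2 - b * A1)) * (z + (2 - r) * y) := by
  linear_combination
    (((p * A4 - q * A3) * y + (a * A2 - b * A1) * z) + (3 - r) * (a * A2 - b * A1) * y) * hr +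
    r * ((y + z) * (a * A2 - b * A1)) * h2 + r * ((y + z) * (p * A4 - q * A3)) * h1

theorem accel_rot {a b u v : ℝ} (h1 : a ^ 2 + b ^ 2 = 1) (h : a * u + b * v = 0) :
    ∃ m : ℝ, a * v - b * u = m ∧ u = -b * m ∧ v = a * m := by
  refine ⟨a * v - b * u, rfl, ?_, ?_⟩
  · linear_combination (-u) * h1 + a * h
  · linear_combination (-v) * h1 + b * h

theorem accel_inner0 (f g : Fin 10 → ℝ) :
    ⟪(WithLp.toLp 2 f : EuclideanSpace ℝ (Fin 10)), WithLp.toLp 2 g⟫ =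
    f 0 * g 0 + f 1 * g 1 + f 2 * g 2 + f 3 * g 3 + f 4 * g 4 + f 5 * g 5 + f 6 * g 6 +
      f 7 * g 7 + f 8 * g 8 + f 9 * g 9 := by
  have h1 : ⟪(WithLp.toLp 2 f : EuclideanSpace ℝ (Fin 10)), WithLp.toLp 2 g⟫ =
      ∑ i, f i * g i := by
    rw [PiLp.inner_apply]
    apply Finset.sum_congr rfl
    intro i _
    exact mul_comm (g i) (f i)
  rw [h1, Fin.sum_univ_castSucc, Fin.sum_univ_castSucc, Fin.sum_univ_eight]
  rfl

theorem accel_inner (x v A w : V × (ℝ × ℝ)) :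
    ⟪(WithLp.toLp 2 (accel_DD x v A) : EuclideanSpace ℝ (Fin 10)),
      WithLp.toLp 2 (accel_D x w)⟫ =
    (√(√2 - 1) * A.1.1 0) * (√(√2 - 1) * w.1.1 0) + (√(√2 - 1) * A.1.2 0) * (√(√2 - 1) * w.1.2 0) +
    A.1.1 1 * w.1.1 1 + A.1.2 1 * w.1.2 1 + A.1.1 2 * w.1.1 2 + A.1.2 2 * w.1.2 2 +
    A.2.1 * w.2.1 + A.2.2 * w.2.2 +
    (√(√2) * (((A.1.1 0 * x.2.1 + v.1.1 0 * v.2.1) + (v.1.1 0 * v.2.1 + x.1.1 0 * A.2.1)) -
      ((A.1.2 0 * x.2.2 + v.1.2 0 * v.2.2) + (v.1.2 0 * v.2.2 + x.1.2 0 * A.2.2)))) *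
    (√(√2) * ((w.1.1 0 * x.2.1 + x.1.1 0 * w.2.1) - (w.1.2 0 * x.2.2 + x.1.2 0 * w.2.2))) +
    (√(√2) * (((A.1.1 0 * x.2.2 + v.1.1 0 * v.2.2) + (v.1.1 0 * v.2.2 + x.1.1 0 * A.2.2)) +
      ((A.1.2 0 * x.2.1 + v.1.2 0 * v.2.1) + (v.1.2 0 * v.2.1 + x.1.2 0 * A.2.1)))) *
    (√(√2) * ((w.1.1 0 * x.2.2 + x.1.1 0 * w.2.2) + (w.1.2 0 * x.2.1 + x.1.2 0 * w.2.1))) := by
  rw [accel_inner0]
  rfl

theorem accel {c : ℝ → V × (ℝ × ℝ)} (hc : ContDiff ℝ ∞ c) (hM : ∀ t, c t ∈ surf ×ˢ circ) (t : ℝ)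
    {w : V × (ℝ × ℝ)} (hw : Lin (c t) w) :
    ⟪deriv (deriv (imm ∘ c)) t, fderiv ℝ imm (c t) w⟫ =
      ∑ k, deriv (fun s => ang k (c s) (deriv c s)) t * ang k (c t) w +
        deriv (fun s => ver (c s) (deriv c s)) t * ver (c t) w := by
  obtain ⟨hdc, hc1⟩ := contDiff_infty_iff_deriv.mp hc
  obtain ⟨hdc1, -⟩ := contDiff_infty_iff_deriv.mp hc1
  have hd : ∀ s, HasDerivAt c (deriv c s) s := fun s => (hdc s).hasDerivAt
  have hd' : ∀ s, HasDerivAt (deriv c) (deriv (deriv c) s) s := fun s => (hdc1 s).hasDerivAt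
  have e1 : deriv (imm ∘ c) = fun s => WithLp.toLp 2 (accel_D (c s) (deriv c s)) := by
    funext s
    exact (accel_imm (hd s)).deriv
  have e2 : deriv (deriv (imm ∘ c)) t =
      WithLp.toLp 2 (accel_DD (c t) (deriv c t) (deriv (deriv c) t)) := by
    rw [e1]
    exact (accel_dd (hd t) (hd' t) rfl).deriv
  have e3 : ∀ k, deriv (fun s => ang k (c s) (deriv c s)) t = _ := fun k =>
    (accel_ang (hd t) (hd' t) rfl k).deriv
  have e4 : deriv (fun s => ver (c s) (deriv c s)) t = _ := (accel_ver (hd t) (hd' t) rfl).deriv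
  have hx := hM t
  have hsq : ∀ s k, (c s).1.1 k ^ 2 + (c s).1.2 k ^ 2 = 1 := fun s k => (hM s).1.1 k
  have hci : ∀ s, (c s).2.1 ^ 2 + (c s).2.2 ^ 2 = 1 := fun s => (hM s).2
  have hv1 : (c t).1.1 0 * (deriv c t).1.1 0 + (c t).1.2 0 * (deriv c t).1.2 0 = 0 := by
    have h1 := ((accel_a (hd t) 0).pow 2).add ((accel_b (hd t) 0).pow 2)
    have h2 : (fun s => (c s).1.1 0 ^ 2 + (c s).1.2 0 ^ 2) = fun _ => (1 : ℝ) :=
      funext (fun s => hsq s 0)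
    have h3 := h1.unique (h2 ▸ hasDerivAt_const t (1 : ℝ) :
      HasDerivAt (fun s => (c s).1.1 0 ^ 2 + (c s).1.2 0 ^ 2) 0 t)
    simp at h3
    linarith
  have hv2 : (c t).2.1 * (deriv c t).2.1 + (c t).2.2 * (deriv c t).2.2 = 0 := by
    have h1 := ((accel_p (hd t)).pow 2).add ((accel_q (hd t)).pow 2)
    have h2 : (fun s => (c s).2.1 ^ 2 + (c s).2.2 ^ 2) = fun _ => (1 : ℝ) :=
      funext (fun s => hci s)
    have h3 := h1.unique (h2 ▸ hasDerivAt_const t (1 : ℝ) :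
      HasDerivAt (fun s => (c s).2.1 ^ 2 + (c s).2.2 ^ 2) 0 t)
    simp at h3
    linarith
  have h12 := hsq t
  have h3 := hci t
  generalize deriv (deriv c) t = A at e2 e3 e4
  generalize deriv c t = v at e2 hv1 hv2
  generalize c t = x at *
  rw [e2, e4, accel_fderiv, Fin.sum_univ_three, e3, e3, e3]
  obtain ⟨m, -, hm1, hm2⟩ := accel_rot (h12 0) hv1
  obtain ⟨n, -, hn1, hn2⟩ := accel_rot h3 hv2
  obtain ⟨y0, hy0, hy01, hy02⟩ := accel_rot (h12 0) (hw.1.1 0)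
  obtain ⟨y1, hy1, hy11, hy12⟩ := accel_rot (h12 1) (hw.1.1 1)
  obtain ⟨y2, hy2, hy21, hy22⟩ := accel_rot (h12 2) (hw.1.1 2)
  obtain ⟨z, hz, hz1, hz2⟩ := accel_rot h3 hw.2
  have r0 : (0 : ℝ) ≤ √2 := Real.sqrt_nonneg 2
  have r1 : (1 : ℝ) ≤ √2 := Real.one_le_sqrt.mpr (by norm_num)
  have hr : (√2) ^ 2 = 2 := Real.sq_sqrt (by norm_num)
  have hα : √(√2 - 1) * √(√2 - 1) = √2 - 1 := Real.mul_self_sqrt (by linarith)
  have hδ : √(√2) * √(√2) = √2 := Real.mul_self_sqrt r0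
  have hβ : √(1 + √2) * √(1 + √2) = 1 + √2 := Real.mul_self_sqrt (by linarith)
  have f0 : ang 0 x w = y0 := hy0
  have f1 : ang 1 x w = y1 := hy1
  have f2 : ang 2 x w = y2 := hy2
  have f3 : ver x w = √(1 + √2) * (z + (2 - √2) * y0) := by
    unfold ver
    rw [hz, f0]
  rw [f0, f1, f2, f3, accel_inner]
  rw [hy01, hy02, hy11, hy12, hy21, hy22, hz1, hz2, hm1, hm2, hn1, hn2]
  have halg := accel_alg (x.1.1 0) (x.1.2 0) x.2.1 x.2.2 (A.1.1 0) (A.1.2 0) A.2.1 A.2.2 m n y0 z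
    (√2) (h12 0) h3 hr
  linear_combination halg + (A.1.1 0 * (-x.1.2 0 * y0) + A.1.2 0 * (x.1.1 0 * y0)) * hα +
    ((((A.1.1 0 * x.2.1 + (-x.1.2 0 * m) * (-x.2.2 * n)) +
        ((-x.1.2 0 * m) * (-x.2.2 * n) + x.1.1 0 * A.2.1)) -
          ((A.1.2 0 * x.2.2 + (x.1.1 0 * m) * (x.2.1 * n)) +
            ((x.1.1 0 * m) * (x.2.1 * n) + x.1.2 0 * A.2.2))) *
        (((-x.1.2 0 * y0) * x.2.1 + x.1.1 0 * (-x.2.2 * z)) -
          ((x.1.1 0 * y0) * x.2.2 + x.1.2 0 * (x.2.1 * z))) +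
        (((A.1.1 0 * x.2.2 + (-x.1.2 0 * m) * (x.2.1 * n)) +
          ((-x.1.2 0 * m) * (x.2.1 * n) + x.1.1 0 * A.2.2)) +
          ((A.1.2 0 * x.2.1 + (x.1.1 0 * m) * (-x.2.2 * n)) +
            ((x.1.1 0 * m) * (-x.2.2 * n) + x.1.2 0 * A.2.1))) *
        (((-x.1.2 0 * y0) * x.2.2 + x.1.1 0 * (x.2.1 * z)) +
          ((x.1.1 0 * y0) * x.2.1 + x.1.2 0 * (-x.2.2 * z)))) * hδ -
    ((x.2.1 * A.2.2 - x.2.2 * A.2.1) + (2 - √2) * (x.1.1 0 * A.1.2 0 - x.1.2 0 * A.1.1 0)) *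
      (z + (2 - √2) * y0) * hβ


end J_accel

alias accel := J_accel.accel

end Pool.Agent.Helper10.NCP
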