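import Mathlib
import Pool.Agent.Helper10.NCP.Base
import Pool.Agent.Helper10.NCP.J_den_pos
import Pool.Agent.Helper10.NCP.J_fr_map
import Pool.Agent.Helper10.NCP.J_realize
import Pool.Agent.Helper10.NCP.J_accel

open Set Filter Topology
open scoped RealInnerProductSpace ContDiff

noncomputable section

namespace Pool.Agent.Helper10.NCP

namespace J_geo_eq


-- TARGET: prove this (put auxiliary lemmas between the ASSUMED END line and the theorem)

theorem aux1_352 (b D : Fin 3 → ℝ) (D' : ℝ) (hb : 0 < ∑ k, b k ^ 2)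
    (h : ∀ (Y : Fin 3 → ℝ) (y : ℝ), ∑ k, b k * Y k = 0 → ∑ k, D k * Y k + D' * y = 0) :
    (∀ k, D k = ((∑ j, D j * b j) / ∑ j, b j ^ 2) * b k) ∧ D' = 0 := by
  have hD' : D' = 0 := by
    have := h (fun _ => 0) 1 (by simp)
    simpa using this
  refine ⟨?_, hD'⟩
  obtain ⟨r, hr⟩ : ∃ r : ℝ, r = (∑ j, D j * b j) / ∑ j, b j ^ 2 := ⟨_, rfl⟩
  rw [← hr]
  have hr2 : r * ∑ j, b j ^ 2 = ∑ j, D j * b j := by
    rw [hr]; field_simp
  have hY : ∑ k, b k * (D k - r * b k) = 0 := by
    simp only [Fin.sum_univ_three] at hr2 ⊢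
    linarith
  have h1 := h (fun k => D k - r * b k) 0 hY
  have h2 : ∑ k, (D k - r * b k) ^ 2 = 0 := by
    simp only [Fin.sum_univ_three] at h1 hY ⊢
    linear_combination h1 - r * hY
  have h3 := (Finset.sum_eq_zero_iff_of_nonneg (fun k _ => sq_nonneg (D k - r * b k))).1 h2
  intro k
  have h4 := h3 k (Finset.mem_univ k)
  have h5 : D k - r * b k = 0 := by
    exact pow_eq_zero_iff (two_ne_zero) |>.1 h4
  linarith

theorem geo_eq (ht : ∀ x ∈ surf ×ˢ circ, ∀ w, Lin x w → w ∈ tangent (surf ×ˢ circ) x)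
    {c : ℝ → V × (ℝ × ℝ)} (hc : IsGeodesic (surf ×ˢ circ) imm c) (t : ℝ) :
    (∀ k, deriv (fun s => ang k (c s) (deriv c s)) t =
      -((∑ j, (c t).1.1 j * ang j (c t) (deriv c t) ^ 2) / ∑ j, (c t).1.2 j ^ 2) * (c t).1.2 k) ∧
    deriv (fun s => ver (c s) (deriv c s)) t = 0 := by
  have hM := hc.2.1
  have hF := fr_map c hc.1 hM
  have hden : 0 < ∑ k, (c t).1.2 k ^ 2 :=
    den_pos (fun k => (c t).1.1 k) (fun k => (c t).1.2 k) (fun k => hF.sq k t) (hF.sum t)
  have key := aux1_352 (fun k => (c t).1.2 k)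
    (fun k => deriv (fun s => ang k (c s) (deriv c s)) t)
    (deriv (fun s => ver (c s) (deriv c s)) t) hden (by
      intro Y y hY
      obtain ⟨w, hw, hw1, hw2⟩ := realize (hM t) Y y hY
      have h1 := hc.2.2 t w (ht _ (hM t) w hw)
      rw [accel hc.1 hM t hw] at h1
      simpa only [hw1, hw2] using h1)
  refine ⟨fun k => ?_, key.2⟩
  have hk := key.1 k
  have hS : ∑ j, deriv (fun s => ang j (c s) (deriv c s)) t * (c t).1.2 j =
      -∑ j, (c t).1.1 j * ang j (c t) (deriv c t) ^ 2 := by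
    have hdA : ∀ j, HasDerivAt (fun s => ang j (c s) (deriv c s))
        (deriv (fun s => ang j (c s) (deriv c s)) t) t := by
      intro j
      have h := (hF.sm_A j 1).differentiable (by simp) t
      exact h.hasDerivAt
    have hdb : ∀ j, HasDerivAt (fun s => (c s).1.2 j)
        ((c t).1.1 j * ang j (c t) (deriv c t)) t := by
      intro j
      have h := ((hF.sm_b j).differentiable (by simp) t).hasDerivAt
      have h2 : deriv (fun s => (c s).1.2 j) t = (c t).1.1 j * ang j (c t) (deriv c t) :=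
        hF.db j t 1
      rw [← h2]
      exact h
    have hsum : HasDerivAt (fun s => ∑ j, (c s).1.2 j * ang j (c s) (deriv c s))
        (∑ j, ((c t).1.1 j * ang j (c t) (deriv c t) * ang j (c t) (deriv c t) +
          (c t).1.2 j * deriv (fun s => ang j (c s) (deriv c s)) t)) t :=
      HasDerivAt.fun_sum fun j _ => (hdb j).mul (hdA j)
    have hzero : (fun s => ∑ j, (c s).1.2 j * ang j (c s) (deriv c s)) = fun _ => (0 : ℝ) := by
      funext s
      exact hF.orth s 1
    rw [hzero] at hsum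
    have h0 := hsum.unique (hasDerivAt_const t (0 : ℝ))
    simp only [Fin.sum_univ_three] at h0 ⊢
    linear_combination h0
  rw [hS] at hk
  rw [hk]
  ring


end J_geo_eq

alias geo_eq := J_geo_eq.geo_eq

end Pool.Agent.Helper10.NCP
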