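import Mathlib
import Pool.Agent.Helper10.NCP.Base
import Pool.Agent.Helper10.NCP.J_has_param

open Set Filter Topology
open scoped RealInnerProductSpace ContDiff

noncomputable section

namespace Pool.Agent.Helper10.NCP

namespace J_mem_tan2


-- TARGET: prove this (put auxiliary lemmas between the ASSUMED END line and the theorem)

theorem mem_tan2 : ∀ x ∈ surf ×ˢ circ, ∀ w, Lin x w → w ∈ tangent (surf ×ˢ circ) x := by
  rintro ⟨p, q⟩ ⟨hp, hq⟩ ⟨v, u⟩ ⟨h1, h2⟩
  obtain ⟨c₁, hc1, hc10, hc1d⟩ := has_param.2 p hp v h1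
  have hq' : q.1 ^ 2 + q.2 ^ 2 = 1 := hq
  have h2' : q.1 * u.1 + q.2 * u.2 = 0 := h2
  obtain ⟨z, hz⟩ : ∃ z : ℝ, z = q.1 * u.2 - q.2 * u.1 := ⟨_, rfl⟩
  have hu1 : -(q.2 * z) = u.1 := by
    rw [hz]
    linear_combination (-q.1) * h2' + u.1 * hq'
  have hu2 : q.1 * z = u.2 := by
    rw [hz]
    linear_combination (-q.2) * h2' + u.2 * hq'
  have e0 : HasDerivAt (fun s : ℝ => z * s) z 0 := by
    simpa using (hasDerivAt_id (0 : ℝ)).const_mul z
  have ec : HasDerivAt (fun s : ℝ => Real.cos (z * s)) (-Real.sin (z * 0) * z) 0 :=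
    (Real.hasDerivAt_cos (z * 0)).comp (0 : ℝ) e0
  have es : HasDerivAt (fun s : ℝ => Real.sin (z * s)) (Real.cos (z * 0) * z) 0 :=
    (Real.hasDerivAt_sin (z * 0)).comp (0 : ℝ) e0
  refine ⟨fun s => (c₁ s, (q.1 * Real.cos (z * s) - q.2 * Real.sin (z * s),
    q.2 * Real.cos (z * s) + q.1 * Real.sin (z * s))), ?_, ?_, ?_⟩
  · intro s
    refine ⟨hc1 s, ?_⟩
    show (q.1 * Real.cos (z * s) - q.2 * Real.sin (z * s)) ^ 2 +
      (q.2 * Real.cos (z * s) + q.1 * Real.sin (z * s)) ^ 2 = 1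
    have h := Real.sin_sq_add_cos_sq (z * s)
    linear_combination (Real.cos (z * s) ^ 2 + Real.sin (z * s) ^ 2) * hq' + h
  · show (c₁ 0, (q.1 * Real.cos (z * 0) - q.2 * Real.sin (z * 0),
      q.2 * Real.cos (z * 0) + q.1 * Real.sin (z * 0))) = (p, q)
    rw [hc10, mul_zero, Real.cos_zero, Real.sin_zero]
    simp
  · have d1 : HasDerivAt (fun s : ℝ => q.1 * Real.cos (z * s) - q.2 * Real.sin (z * s)) u.1 0 := by
      have h3 := (ec.const_mul q.1).sub (es.const_mul q.2)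
      have h4 : q.1 * (-Real.sin (z * 0) * z) - q.2 * (Real.cos (z * 0) * z) = u.1 := by
        rw [mul_zero, Real.cos_zero, Real.sin_zero, ← hu1]
        ring
      rw [h4] at h3
      exact h3
    have d2 : HasDerivAt (fun s : ℝ => q.2 * Real.cos (z * s) + q.1 * Real.sin (z * s)) u.2 0 := by
      have h3 := (ec.const_mul q.2).add (es.const_mul q.1)
      have h4 : q.2 * (-Real.sin (z * 0) * z) + q.1 * (Real.cos (z * 0) * z) = u.2 := by
        rw [mul_zero, Real.cos_zero, Real.sin_zero, ← hu2]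
        ring
      rw [h4] at h3
      exact h3
    exact hc1d.prodMk (d1.prodMk d2)


end J_mem_tan2

alias mem_tan2 := J_mem_tan2.mem_tan2

end Pool.Agent.Helper10.NCP
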