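import Mathlib
import Pool.Agent.Helper10.NCP.Base
import Pool.Agent.Helper10.NCP.J_fr_map
import Pool.Agent.Helper10.NCP.J_fr_zero
import Pool.Agent.Helper10.NCP.J_geo_eq
import Pool.Agent.Helper10.NCP.J_tan_lin2
import Pool.Agent.Helper10.NCP.J_mem_tan2

open Set Filter Topology
open scoped RealInnerProductSpace ContDiff

noncomputable section

namespace Pool.Agent.Helper10.NCP

namespace J_no_conj


-- TARGET: prove this (put auxiliary lemmas between the ASSUMED END line and the theorem)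

theorem slice2 {F : Type} [NormedAddCommGroup F] [NormedSpace ℝ F] {f : ℝ × ℝ → F}
    (hf : Differentiable ℝ f) (s t : ℝ) :
    HasDerivAt (fun r => f (s, r)) (fderiv ℝ f (s, t) (0, 1)) t := by
  have h1 : HasDerivAt (fun r : ℝ => ((s, r) : ℝ × ℝ)) (0, 1) t :=
    (hasDerivAt_const t s).prodMk (hasDerivAt_id t)
  exact (hf (s, t)).hasFDerivAt.comp_hasDerivAt t h1

theorem slice1 {F : Type} [NormedAddCommGroup F] [NormedSpace ℝ F] {f : ℝ × ℝ → F}
    (hf : Differentiable ℝ f) (s t : ℝ) :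
    HasDerivAt (fun r => f (r, t)) (fderiv ℝ f (s, t) (1, 0)) s := by
  have h1 : HasDerivAt (fun r : ℝ => ((r, t) : ℝ × ℝ)) (1, 0) s :=
    (hasDerivAt_id s).prodMk (hasDerivAt_const s t)
  exact (hf (s, t)).hasFDerivAt.comp_hasDerivAt s h1

theorem ang_ver_zero {x w : V × (ℝ × ℝ)} (hx : x ∈ surf ×ˢ circ) (hl : Lin x w)
    (ha : ∀ k, ang k x w = 0) (hv : ver x w = 0) : w = 0 := by
  obtain ⟨⟨h1, h1'⟩, h2⟩ := hl
  have hs : ∀ k, x.1.1 k ^ 2 + x.1.2 k ^ 2 = 1 := hx.1.1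
  have hc : x.2.1 ^ 2 + x.2.2 ^ 2 = 1 := hx.2
  have e1 : ∀ k, w.1.1 k = 0 := by
    intro k
    have h3 := h1 k
    have h4 : x.1.1 k * w.1.2 k - x.1.2 k * w.1.1 k = 0 := ha k
    have h5 := hs k
    linear_combination (x.1.1 k) * h3 - (x.1.2 k) * h4 - (w.1.1 k) * h5
  have e2 : ∀ k, w.1.2 k = 0 := by
    intro k
    have h3 := h1 k
    have h4 : x.1.1 k * w.1.2 k - x.1.2 k * w.1.1 k = 0 := ha k
    have h5 := hs k
    linear_combination (x.1.2 k) * h3 + (x.1.1 k) * h4 - (w.1.2 k) * h5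
  have hpos : √(1 + √2) ≠ 0 := by positivity
  have h6 : x.2.1 * w.2.2 - x.2.2 * w.2.1 = 0 := by
    unfold ver at hv
    rw [ha 0] at hv
    rcases mul_eq_zero.1 hv with h | h
    · exact absurd h hpos
    · linarith
  have e3 : w.2.1 = 0 := by
    linear_combination (x.2.1) * h2 - (x.2.2) * h6 - (w.2.1) * hc
  have e4 : w.2.2 = 0 := by
    linear_combination (x.2.2) * h2 + (x.2.1) * h6 - (w.2.2) * hc
  refine Prod.ext (Prod.ext (funext e1) (funext e2)) (Prod.ext e3 e4)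

theorem no_conj_lt (Γ : ℝ × ℝ → V × (ℝ × ℝ)) (hΓ : ContDiff ℝ ∞ Γ)
    (hgeo : ∀ s, IsGeodesic (surf ×ˢ circ) imm fun t => Γ (s, t)) (a b : ℝ) (hab : a < b)
    (ha : fderiv ℝ Γ (0, a) (1, 0) = 0) (hb : fderiv ℝ Γ (0, b) (1, 0) = 0) (t : ℝ) :
    fderiv ℝ Γ (0, t) (1, 0) = 0 := by
  have hM : ∀ x, Γ x ∈ surf ×ˢ circ := fun x => (hgeo x.1).2.1 x.2
  have F := fr_map Γ hΓ hM
  have hd : Differentiable ℝ Γ := hΓ.differentiable (by simp)
  have hang0 : ∀ k x, ang k x 0 = 0 := by intro k x; simp [ang]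
  have hver0 : ∀ x, ver x 0 = 0 := by intro x; simp [ver, ang]
  have hder : ∀ s r, deriv (fun t => Γ (s, t)) r = fderiv ℝ Γ (s, r) (0, 1) := by
    intro s r
    exact (slice2 hd s r).deriv
  have hg : ∀ k (x : ℝ × ℝ),
      fderiv ℝ (fun y => ang k (Γ y) (fderiv ℝ Γ y (0, 1))) x (0, 1) =
      -((∑ j, (Γ x).1.1 j * ang j (Γ x) (fderiv ℝ Γ x (0, 1)) ^ 2) / ∑ j, (Γ x).1.2 j ^ 2)
        * (Γ x).1.2 k := by
    intro k x
    have h1 := (geo_eq mem_tan2 (hgeo x.1) x.2).1 k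
    have h2 : Differentiable ℝ (fun y => ang k (Γ y) (fderiv ℝ Γ y (0, 1))) :=
      (F.sm_A k (0, 1)).differentiable (by simp)
    have h3 := (slice2 h2 x.1 x.2).deriv
    simp only [hder] at h1
    rw [← h3]
    exact h1
  have hu : ∀ x : ℝ × ℝ,
      fderiv ℝ (fun y => ver (Γ y) (fderiv ℝ Γ y (0, 1))) x (0, 1) = 0 := by
    intro x
    have h1 := (geo_eq mem_tan2 (hgeo x.1) x.2).2
    have h2 : Differentiable ℝ (fun y => ver (Γ y) (fderiv ℝ Γ y (0, 1))) :=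
      (F.sm_U (0, 1)).differentiable (by simp)
    have h3 := (slice2 h2 x.1 x.2).deriv
    simp only [hder] at h1
    rw [← h3]
    exact h1
  have key := fr_zero F hg hu hab (fun k => by rw [ha]; exact hang0 k _)
    (fun k => by rw [hb]; exact hang0 k _) (by rw [ha]; exact hver0 _)
    (by rw [hb]; exact hver0 _) t
  have ht : fderiv ℝ Γ (0, t) (1, 0) ∈ tangent (surf ×ˢ circ) (Γ (0, t)) :=
    ⟨fun s => Γ (s, t), fun s => hM _, rfl, slice1 hd 0 t⟩
  exact ang_ver_zero (hM _) (tan_lin2 ht) key.1 key.2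

theorem no_conj : NoConjugatePoints (surf ×ˢ circ) imm := by
  intro Γ hΓ hgeo a b hab ha hb t
  rcases lt_or_gt_of_ne hab with h | h
  · exact no_conj_lt Γ hΓ hgeo a b h ha hb t
  · exact no_conj_lt Γ hΓ hgeo b a h hb ha t


end J_no_conj

alias no_conj := J_no_conj.no_conj

end Pool.Agent.Helper10.NCP
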