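import Mathlib
import Pool.Agent.Helper10.NCP.Base
import Pool.Agent.Helper10.NCP.J_den_pos

open Set Filter Topology
open scoped RealInnerProductSpace ContDiff

noncomputable section

namespace Pool.Agent.Helper10.NCP

namespace J_perp_line


-- TARGET: prove this (put auxiliary lemmas between the ASSUMED END line and the theorem)

theorem perp_line {a b : Fin 3 → ℝ} (sq : ∀ k, a k ^ 2 + b k ^ 2 = 1) (sum : ∑ k, a k = 0)
    (A : Fin 3 → (ℝ × ℝ) × ℝ →ₗ[ℝ] ℝ) (U : (ℝ × ℝ) × ℝ →ₗ[ℝ] ℝ)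
    (inj : ∀ e, (∀ k, A k e = 0) → U e = 0 → e = 0) (orth : ∀ e, ∑ k, b k * A k e = 0) :
    (∀ (Z : Fin 3 → ℝ) (z : ℝ), (∀ e, ∑ k, Z k * A k e + z * U e = 0) →
      z = 0 ∧ ∃ l, ∀ k, Z k = l * b k) ∧
    ∀ (Y : Fin 3 → ℝ) (y : ℝ), ∑ k, b k * Y k = 0 → ∃ e, (∀ k, A k e = Y k) ∧ U e = y := by
  have hden := den_pos a b sq sum
  have hsec : ∀ (Y : Fin 3 → ℝ) (y : ℝ), ∑ k, b k * Y k = 0 →
      ∃ e, (∀ k, A k e = Y k) ∧ U e = y := by
    obtain ⟨L, hL⟩ : ∃ L : (ℝ × ℝ) × ℝ →ₗ[ℝ] (Fin 3 → ℝ) × ℝ, L = (LinearMap.pi A).prod U :=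
      ⟨_, rfl⟩
    have hLa : ∀ e, L e = (fun k => A k e, U e) := by intro e; rw [hL]; rfl
    obtain ⟨φ, hφ⟩ : ∃ φ : (Fin 3 → ℝ) × ℝ →ₗ[ℝ] ℝ, ∀ Y y, φ (Y, y) = ∑ k, b k * Y k := by
      refine ⟨(∑ k, b k • (LinearMap.proj k : (Fin 3 → ℝ) →ₗ[ℝ] ℝ)).comp
        (LinearMap.fst ℝ (Fin 3 → ℝ) ℝ), fun Y y => ?_⟩
      simp
    have hinj : Function.Injective L := by
      rw [injective_iff_map_eq_zero]
      intro e he
      rw [hLa] at he
      have h1 := congrArg Prod.fst he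
      have h2 := congrArg Prod.snd he
      exact inj e (fun k => congrFun h1 k) h2
    have hr : Module.finrank ℝ (LinearMap.range L) = 3 := by
      rw [LinearMap.finrank_range_of_inj hinj]
      simp
    have hsurj : LinearMap.range φ = ⊤ := by
      rw [LinearMap.range_eq_top]
      intro r
      refine ⟨(fun k => r / (∑ k, b k ^ 2) * b k, 0), ?_⟩
      rw [hφ]
      have h1 : ∑ k, b k * (r / (∑ k, b k ^ 2) * b k) = r / (∑ k, b k ^ 2) * ∑ k, b k ^ 2 := by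
        rw [Finset.mul_sum]
        exact Finset.sum_congr rfl fun k _ => by ring
      rw [h1, div_mul_cancel₀ _ hden.ne']
    have hk : Module.finrank ℝ (LinearMap.ker φ) = 3 := by
      have h1 := LinearMap.finrank_range_add_finrank_ker φ
      rw [hsurj, finrank_top] at h1
      have h2 : Module.finrank ℝ ((Fin 3 → ℝ) × ℝ) = 4 := by simp
      have h3 : Module.finrank ℝ ℝ = 1 := Module.finrank_self ℝ
      omega
    have hle : LinearMap.range L ≤ LinearMap.ker φ := by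
      rintro _ ⟨e, rfl⟩
      rw [LinearMap.mem_ker, hLa, hφ]
      exact orth e
    have heq : LinearMap.range L = LinearMap.ker φ :=
      Submodule.eq_of_le_of_finrank_eq hle (hr.trans hk.symm)
    intro Y y hY
    have h1 : (Y, y) ∈ LinearMap.ker φ := by rw [LinearMap.mem_ker, hφ]; exact hY
    rw [← heq] at h1
    obtain ⟨e, he⟩ := h1
    rw [hLa] at he
    have h2 := congrArg Prod.fst he
    have h3 := congrArg Prod.snd he
    exact ⟨e, fun k => congrFun h2 k, h3⟩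
  refine ⟨fun Z z hZ => ?_, hsec⟩
  have hz : z = 0 := by
    obtain ⟨e, he1, he2⟩ := hsec 0 1 (by simp)
    have h1 := hZ e
    rw [he2] at h1
    have h2 : ∑ k, Z k * A k e = 0 := Finset.sum_eq_zero fun k _ => by rw [he1 k]; simp
    rw [h2] at h1
    linarith
  refine ⟨hz, (∑ k, Z k * b k) / (∑ k, b k ^ 2), ?_⟩
  obtain ⟨l, hl⟩ : ∃ l, l = (∑ k, Z k * b k) / (∑ k, b k ^ 2) := ⟨_, rfl⟩
  rw [← hl]
  have hl2 : l * ∑ k, b k ^ 2 = ∑ k, Z k * b k := by rw [hl, div_mul_cancel₀ _ hden.ne']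
  have hbY : ∑ k, b k * (Z k - l * b k) = 0 := by
    have h1 : ∑ k, b k * (Z k - l * b k) = ∑ k, Z k * b k - l * ∑ k, b k ^ 2 := by
      rw [Finset.mul_sum, ← Finset.sum_sub_distrib]
      exact Finset.sum_congr rfl fun k _ => by ring
    rw [h1, hl2, sub_self]
  obtain ⟨e, he1, he2⟩ := hsec (fun k => Z k - l * b k) 0 hbY
  have h1 := hZ e
  rw [he2, mul_zero, add_zero] at h1
  have h2 : ∑ k, (Z k - l * b k) ^ 2 = 0 := by
    have h3 : ∑ k, (Z k - l * b k) ^ 2 = ∑ k, Z k * A k e - l * ∑ k, b k * (Z k - l * b k) := by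
      rw [Finset.mul_sum, ← Finset.sum_sub_distrib]
      exact Finset.sum_congr rfl fun k _ => by rw [he1 k]; ring
    rw [h3, h1, hbY]; ring
  intro k
  have h4 := (Finset.sum_eq_zero_iff_of_nonneg (fun k _ => sq_nonneg (Z k - l * b k))).mp h2 k
    (Finset.mem_univ k)
  have h5 := pow_eq_zero_iff (two_ne_zero) |>.mp h4
  linarith


end J_perp_line

alias perp_line := J_perp_line.perp_line

end Pool.Agent.Helper10.NCP
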