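import Mathlib
import Pool.Agent.Helper10.NCP.Base
import Pool.Agent.Helper10.NCP.J_perp_line

open Set Filter Topology
open scoped RealInnerProductSpace ContDiff

noncomputable section

namespace Pool.Agent.Helper10.NCP

namespace J_ex_ne


-- TARGET: prove this (put auxiliary lemmas between the ASSUMED END line and the theorem)

theorem ex_ne {a b : Fin 3 → (ℝ × ℝ) × ℝ → ℝ} {A : Fin 3 → (ℝ × ℝ) × ℝ → (ℝ × ℝ) × ℝ → ℝ}
    {U : (ℝ × ℝ) × ℝ → (ℝ × ℝ) × ℝ → ℝ} (h : Frame a b A U) (Q : ℝ × ℝ → ℝ × ℝ → ℝ)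
    (hQ : ∀ r t u s, ∑ k, A k (r, t) (u, s) ^ 2 + U (r, t) (u, s) ^ 2 = Q r u + s ^ 2)
    (hpos : ∀ r u, u ≠ 0 → 0 < Q r u) : ∃ x k, a k x ≠ 0 := by
  by_contra hcon
  have h0 : ∀ x k, a k x = 0 := by
    intro x k
    by_contra hne
    exact hcon ⟨x, k, hne⟩
  have hA : ∀ k x e, A k x e = 0 := by
    intro k x e
    have h1 := h.da k x e
    have h2 : a k = fun _ => 0 := funext fun y => h0 y k
    rw [h2] at h1
    have h3 := h.sq k x
    rw [h0 x k] at h3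
    have h4 : b k x ≠ 0 := by
      intro hb
      rw [hb] at h3
      norm_num at h3
    have h5 : b k x * A k x e = 0 := by
      have h6 : fderiv ℝ (fun _ : (ℝ × ℝ) × ℝ => (0 : ℝ)) x e = 0 := by
        rw [fderiv_fun_const]
        rfl
      rw [h6] at h1
      linarith
    exact (mul_eq_zero.1 h5).resolve_left h4
  obtain ⟨p, hp⟩ : ∃ p, p = U ((0, 0), 0) ((1, 0), 0) := ⟨_, rfl⟩
  obtain ⟨q, hq⟩ : ∃ q, q = U ((0, 0), 0) ((0, 1), 0) := ⟨_, rfl⟩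
  have hlin : ∀ s t : ℝ, U ((0, 0), 0) ((s, t), 0) = s * p + t * q := by
    intro s t
    have e1 : (((s, t), 0) : (ℝ × ℝ) × ℝ) = s • ((1, 0), 0) + t • ((0, 1), 0) := by
      simp
    rw [e1, h.add_U, h.smul_U, h.smul_U, ← hp, ← hq]
  obtain ⟨u, hu, hU⟩ : ∃ u : ℝ × ℝ, u ≠ 0 ∧ U ((0, 0), 0) (u, 0) = 0 := by
    by_cases hz : p = 0 ∧ q = 0
    · refine ⟨(1, 0), by simp, ?_⟩
      rw [hlin, hz.1, hz.2]
      ring
    · refine ⟨(q, -p), ?_, ?_⟩
      · intro he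
        apply hz
        rw [Prod.mk_eq_zero] at he
        exact ⟨neg_eq_zero.1 he.2, he.1⟩
      · rw [hlin]
        ring
  have h1 := hQ (0, 0) 0 u 0
  rw [hU] at h1
  have h2 := hpos (0, 0) u hu
  simp only [hA] at h1
  norm_num at h1
  rw [← h1] at h2
  exact lt_irrefl _ h2


end J_ex_ne

alias ex_ne := J_ex_ne.ex_ne

end Pool.Agent.Helper10.NCP
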