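import Mathlib
import Pool.Agent.Helper10.NCP.Base
import Pool.Agent.Helper10.NCP.J_den_pos

open Set Filter Topology
open scoped RealInnerProductSpace ContDiff

noncomputable section

namespace Pool.Agent.Helper10.NCP

namespace J_c1_pos


-- TARGET: prove this (put auxiliary lemmas between the ASSUMED END line and the theorem)

theorem c1_pos_aux (a0 a1 a2 b0 b1 b2 x0 x1 x2 y0 y1 y2 : ℝ) (q0 : a0 ^ 2 + b0 ^ 2 = 1)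
    (q1 : a1 ^ 2 + b1 ^ 2 = 1) (q2 : a2 ^ 2 + b2 ^ 2 = 1) (sum : a0 + a1 + a2 = 0)
    (hD : 0 < b0 ^ 2 + b1 ^ 2 + b2 ^ 2)
    (hX : b0 * x0 + b1 * x1 + b2 * x2 = 0) (hY : b0 * y0 + b1 * y1 + b2 * y2 = 0)
    (h : (a0 * x0 * y0 + a1 * x1 * y1 + a2 * x2 * y2) ^ 2 =
      (a0 * x0 ^ 2 + a1 * x1 ^ 2 + a2 * x2 ^ 2) * (a0 * y0 ^ 2 + a1 * y1 ^ 2 + a2 * y2 ^ 2))
    (ha : 0 < a0 ^ 2 + a1 ^ 2 + a2 ^ 2) (hXY : x0 * y0 + x1 * y1 + x2 * y2 = 0) :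
    x0 ^ 2 + x1 ^ 2 + x2 ^ 2 = 0 ∨ y0 ^ 2 + y1 ^ 2 + y2 ^ 2 = 0 := by
  obtain ⟨c0, hc0⟩ : ∃ c0, c0 = x1 * y2 - x2 * y1 := ⟨_, rfl⟩
  obtain ⟨c1, hc1⟩ : ∃ c1, c1 = x2 * y0 - x0 * y2 := ⟨_, rfl⟩
  obtain ⟨c2, hc2⟩ : ∃ c2, c2 = x0 * y1 - x1 * y0 := ⟨_, rfl⟩
  have e01 : b0 * c1 = b1 * c0 := by
    rw [hc0, hc1]
    linear_combination x2 * hY - y2 * hX
  have e02 : b0 * c2 = b2 * c0 := by
    rw [hc0, hc2]
    linear_combination y1 * hX - x1 * hY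
  have e12 : b1 * c2 = b2 * c1 := by
    rw [hc1, hc2]
    linear_combination x0 * hY - y0 * hX
  obtain ⟨t, ht⟩ : ∃ t, t = (b0 * c0 + b1 * c1 + b2 * c2) / (b0 ^ 2 + b1 ^ 2 + b2 ^ 2) := ⟨_, rfl⟩
  have k0 : c0 = t * b0 := by
    rw [ht, div_mul_eq_mul_div, eq_div_iff hD.ne']
    linear_combination - b1 * e01 - b2 * e02
  have k1 : c1 = t * b1 := by
    rw [ht, div_mul_eq_mul_div, eq_div_iff hD.ne']
    linear_combination b0 * e01 - b2 * e12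
  have k2 : c2 = t * b2 := by
    rw [ht, div_mul_eq_mul_div, eq_div_iff hD.ne']
    linear_combination b0 * e02 + b1 * e12
  have hL : a1 * a2 * c0 ^ 2 + a0 * a2 * c1 ^ 2 + a0 * a1 * c2 ^ 2 = 0 := by
    rw [hc0, hc1, hc2]
    linear_combination - h
  have hT : t ^ 2 * (a0 ^ 2 + a1 ^ 2 + a2 ^ 2) = 0 := by
    rw [k0, k1, k2] at hL
    linear_combination (-2) * hL + 2 * t ^ 2 * (a1 * a2 * q0 + a0 * a2 * q1 + a0 * a1 * q2)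
      + (t ^ 2 * (a0 + a1 + a2) - 2 * t ^ 2 * a0 * a1 * a2) * sum
  have ht0 : t = 0 := by
    rcases mul_eq_zero.1 hT with h1 | h1
    · exact pow_eq_zero_iff (two_ne_zero) |>.1 h1
    · exact absurd h1 ha.ne'
  rw [ht0, zero_mul] at k0 k1 k2
  rw [hc0] at k0
  rw [hc1] at k1
  rw [hc2] at k2
  have hprod : (x0 ^ 2 + x1 ^ 2 + x2 ^ 2) * (y0 ^ 2 + y1 ^ 2 + y2 ^ 2) = 0 := by
    linear_combination (x1 * y2 - x2 * y1) * k0 + (x2 * y0 - x0 * y2) * k1 +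
      (x0 * y1 - x1 * y0) * k2 + (x0 * y0 + x1 * y1 + x2 * y2) * hXY
  exact mul_eq_zero.1 hprod

theorem c1_pos (a b X Y : Fin 3 → ℝ) (sq : ∀ k, a k ^ 2 + b k ^ 2 = 1) (sum : ∑ k, a k = 0)
    (hX : ∑ k, b k * X k = 0) (hY : ∑ k, b k * Y k = 0)
    (h : (∑ k, a k * X k * Y k) ^ 2 = (∑ k, a k * X k ^ 2) * (∑ k, a k * Y k ^ 2))
    (ha : ∃ k, a k ≠ 0) (hXY : ∑ k, X k * Y k = 0) : (∀ k, X k = 0) ∨ ∀ k, Y k = 0 := by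
  have hD := den_pos a b sq sum
  have ha2 : 0 < ∑ k, a k ^ 2 := by
    obtain ⟨k, hk⟩ := ha
    exact Finset.sum_pos' (fun i _ => sq_nonneg (a i)) ⟨k, Finset.mem_univ k, by positivity⟩
  rw [Fin.sum_univ_three] at sum hX hY hXY hD ha2
  rw [Fin.sum_univ_three, Fin.sum_univ_three, Fin.sum_univ_three] at h
  have hvan : ∀ Z : Fin 3 → ℝ, Z 0 ^ 2 + Z 1 ^ 2 + Z 2 ^ 2 = 0 → ∀ k, Z k = 0 := by
    intro Z hZ k
    have h0 := sq_nonneg (Z 0)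
    have h1 := sq_nonneg (Z 1)
    have h2 := sq_nonneg (Z 2)
    have z0 : Z 0 ^ 2 = 0 := by linarith
    have z1 : Z 1 ^ 2 = 0 := by linarith
    have z2 : Z 2 ^ 2 = 0 := by linarith
    fin_cases k
    · exact pow_eq_zero_iff two_ne_zero |>.1 z0
    · exact pow_eq_zero_iff two_ne_zero |>.1 z1
    · exact pow_eq_zero_iff two_ne_zero |>.1 z2
  rcases c1_pos_aux (a 0) (a 1) (a 2) (b 0) (b 1) (b 2) (X 0) (X 1) (X 2) (Y 0) (Y 1) (Y 2)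
    (sq 0) (sq 1) (sq 2) sum hD hX hY h ha2 hXY with h1 | h1
  · exact Or.inl (hvan X h1)
  · exact Or.inr (hvan Y h1)


end J_c1_pos

alias c1_pos := J_c1_pos.c1_pos

end Pool.Agent.Helper10.NCP
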