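import Mathlib
import Pool.Agent.Helper10.NCP.Base

open Set Filter Topology
open scoped RealInnerProductSpace ContDiff

noncomputable section

namespace Pool.Agent.Helper10.NCP

namespace J_koszul


-- TARGET: prove this (put auxiliary lemmas between the ASSUMED END line and the theorem)

/-- the metric -/
def Bm (A : Fin 3 → (ℝ × ℝ) × ℝ → (ℝ × ℝ) × ℝ → ℝ) (U : (ℝ × ℝ) × ℝ → (ℝ × ℝ) × ℝ → ℝ)
    (e e' y : (ℝ × ℝ) × ℝ) : ℝ := ∑ k, A k y e * A k y e' + U y e * U y e'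

theorem Bm_eq {a b : Fin 3 → (ℝ × ℝ) × ℝ → ℝ} {A : Fin 3 → (ℝ × ℝ) × ℝ → (ℝ × ℝ) × ℝ → ℝ}
    {U : (ℝ × ℝ) × ℝ → (ℝ × ℝ) × ℝ → ℝ} (h : Frame a b A U) (Q : ℝ × ℝ → ℝ × ℝ → ℝ)
    (hQ : ∀ r t u s, ∑ k, A k (r, t) (u, s) ^ 2 + U (r, t) (u, s) ^ 2 = Q r u + s ^ 2)
    (e e' y : (ℝ × ℝ) × ℝ) :
    Bm A U e e' y = (Q y.1 (e.1 + e'.1) - Q y.1 e.1 - Q y.1 e'.1) / 2 + e.2 * e'.2 := by
  obtain ⟨r, t⟩ := y
  obtain ⟨u, s⟩ := e
  obtain ⟨u', s'⟩ := e'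
  have h1 := hQ r t (u + u') (s + s')
  have h2 := hQ r t u s
  have h3 := hQ r t u' s'
  have h4 : ((u + u', s + s') : (ℝ × ℝ) × ℝ) = (u, s) + (u', s') := rfl
  rw [h4] at h1
  simp only [h.add_A, h.add_U, Fin.sum_univ_three] at h1 h2 h3
  simp only [Bm, Fin.sum_univ_three]
  linarith

theorem Q_zero {a b : Fin 3 → (ℝ × ℝ) × ℝ → ℝ} {A : Fin 3 → (ℝ × ℝ) × ℝ → (ℝ × ℝ) × ℝ → ℝ}
    {U : (ℝ × ℝ) × ℝ → (ℝ × ℝ) × ℝ → ℝ} (h : Frame a b A U) (Q : ℝ × ℝ → ℝ × ℝ → ℝ)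
    (hQ : ∀ r t u s, ∑ k, A k (r, t) (u, s) ^ 2 + U (r, t) (u, s) ^ 2 = Q r u + s ^ 2)
    (r : ℝ × ℝ) : Q r 0 = 0 := by
  have h1 := hQ r 0 0 0
  have h2 : ∀ k, A k (r, 0) ((0 : ℝ × ℝ), (0 : ℝ)) = 0 := by
    intro k
    have := h.smul_A k (r, 0) 0 ((0 : ℝ × ℝ), (0 : ℝ))
    rw [zero_mul, zero_smul] at this
    exact this
  have h3 : U (r, 0) ((0 : ℝ × ℝ), (0 : ℝ)) = 0 := by
    have := h.smul_U (r, 0) 0 ((0 : ℝ × ℝ), (0 : ℝ))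
    rw [zero_mul, zero_smul] at this
    exact this
  simp only [h2, h3, Fin.sum_univ_three] at h1
  linarith

theorem Bm_deriv {a b : Fin 3 → (ℝ × ℝ) × ℝ → ℝ} {A : Fin 3 → (ℝ × ℝ) × ℝ → (ℝ × ℝ) × ℝ → ℝ}
    {U : (ℝ × ℝ) × ℝ → (ℝ × ℝ) × ℝ → ℝ} (h : Frame a b A U) (e e' x : (ℝ × ℝ) × ℝ) :
    HasFDerivAt (Bm A U e e') (∑ k, (A k x e • fderiv ℝ (fun y => A k y e') x +
      A k x e' • fderiv ℝ (fun y => A k y e) x) +
      (U x e • fderiv ℝ (fun y => U y e') x + U x e' • fderiv ℝ (fun y => U y e) x)) x := by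
  have h1 : ∀ k e, HasFDerivAt (fun y => A k y e) (fderiv ℝ (fun y => A k y e) x) x := fun k e =>
    ((h.sm_A k e).differentiable (by simp) x).hasFDerivAt
  have h2 : ∀ e, HasFDerivAt (fun y => U y e) (fderiv ℝ (fun y => U y e) x) x := fun e =>
    ((h.sm_U e).differentiable (by simp) x).hasFDerivAt
  have h3 : HasFDerivAt (fun y => ∑ k, A k y e * A k y e') (∑ k, (A k x e • fderiv ℝ (fun y => A k y e') x +
      A k x e' • fderiv ℝ (fun y => A k y e) x)) x := by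
    have := HasFDerivAt.sum (u := Finset.univ) (A := fun k y => A k y e * A k y e')
      (fun k _ => (h1 k e).mul (h1 k e'))
    refine HasFDerivAt.congr_of_eventuallyEq this ?_
    filter_upwards with y
    simp
  exact h3.add ((h2 e).mul (h2 e'))

theorem koszul {a b : Fin 3 → (ℝ × ℝ) × ℝ → ℝ} {A : Fin 3 → (ℝ × ℝ) × ℝ → (ℝ × ℝ) × ℝ → ℝ}
    {U : (ℝ × ℝ) × ℝ → (ℝ × ℝ) × ℝ → ℝ} (h : Frame a b A U) (Q : ℝ × ℝ → ℝ × ℝ → ℝ)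
    (hQ : ∀ r t u s, ∑ k, A k (r, t) (u, s) ^ 2 + U (r, t) (u, s) ^ 2 = Q r u + s ^ 2)
    (x e e' : (ℝ × ℝ) × ℝ) :
    ∑ k, fderiv ℝ (fun y => A k y (0, 1)) x e * A k x e' +
      fderiv ℝ (fun y => U y (0, 1)) x e * U x e' = 0 := by
  -- derivative of `m(T, e')`
  have h1 : ∀ e v : (ℝ × ℝ) × ℝ, fderiv ℝ (Bm A U (0, 1) e) x v = 0 := by
    intro e v
    have : Bm A U (0, 1) e = fun _ => e.2 := by
      funext y
      rw [Bm_eq h Q hQ]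
      simp [Q_zero h Q hQ]
    rw [this]
    simp
  -- derivative in the direction `T`
  have h2 : ∀ e e' : (ℝ × ℝ) × ℝ, fderiv ℝ (Bm A U e e') x (0, 1) = 0 := by
    intro e e'
    rw [← (Bm_deriv h e e' x).differentiableAt.lineDeriv_eq_fderiv]
    unfold lineDeriv
    have : (fun t : ℝ => Bm A U e e' (x + t • ((0, 1) : (ℝ × ℝ) × ℝ))) = fun _ => Bm A U e e' x := by
      funext t
      rw [Bm_eq h Q hQ, Bm_eq h Q hQ]
      simp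
    rw [this]
    simp
  have a1 := h1 e' e
  have a2 := h1 e e'
  have a3 := h2 e e'
  rw [(Bm_deriv h _ _ x).fderiv] at a1 a2 a3
  simp only [Fin.sum_univ_three, add_apply, smul_apply,
    smul_eq_mul] at a1 a2 a3 ⊢
  rw [h.cl_A 0 x e (0, 1), h.cl_A 1 x e (0, 1), h.cl_A 2 x e (0, 1), h.cl_U x e (0, 1),
    h.cl_A 0 x e' (0, 1), h.cl_A 1 x e' (0, 1), h.cl_A 2 x e' (0, 1), h.cl_U x e' (0, 1)] at a3
  rw [h.cl_A 0 x e e', h.cl_A 1 x e e', h.cl_A 2 x e e', h.cl_U x e e'] at a2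
  linarith


end J_koszul

alias koszul := J_koszul.koszul

end Pool.Agent.Helper10.NCP
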