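import Mathlib
import Pool.Agent.Helper10.NCP.Base
import Pool.Agent.Helper10.NCP.J_den_pos
import Pool.Agent.Helper10.NCP.J_koszul
import Pool.Agent.Helper10.NCP.J_perp_line

open Set Filter Topology
open scoped RealInnerProductSpace ContDiff

noncomputable section

namespace Pool.Agent.Helper10.NCP

namespace J_par_der


-- TARGET: prove this (put auxiliary lemmas between the ASSUMED END line and the theorem)

theorem par_der {a b : Fin 3 → (ℝ × ℝ) × ℝ → ℝ} {A : Fin 3 → (ℝ × ℝ) × ℝ → (ℝ × ℝ) × ℝ → ℝ}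
    {U : (ℝ × ℝ) × ℝ → (ℝ × ℝ) × ℝ → ℝ} (h : Frame a b A U) (Q : ℝ × ℝ → ℝ × ℝ → ℝ)
    (hQ : ∀ r t u s, ∑ k, A k (r, t) (u, s) ^ 2 + U (r, t) (u, s) ^ 2 = Q r u + s ^ 2)
    (hpos : ∀ r u, u ≠ 0 → 0 < Q r u) (x e : (ℝ × ℝ) × ℝ) :
    fderiv ℝ (fun y => U y (0, 1)) x e = 0 ∧
    ∀ k, fderiv ℝ (fun y => A k y (0, 1)) x e =
      -((∑ j, a j x * A j x e * A j x (0, 1)) / ∑ j, b j x ^ 2) * b k x := by
  have hA0 : ∀ k y, A k y 0 = 0 := by
    intro k y
    have h1 := h.smul_A k y 0 0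
    rw [zero_smul, zero_mul] at h1
    exact h1
  have hU0 : ∀ y, U y 0 = 0 := by
    intro y
    have h1 := h.smul_U y 0 0
    rw [zero_smul, zero_mul] at h1
    exact h1
  have hinj : ∀ e, (∀ k, A k x e = 0) → U x e = 0 → e = 0 := by
    rintro ⟨u, s⟩ h1 h2
    obtain ⟨r, t⟩ := x
    have h3 := hQ r t u s
    rw [h2, Finset.sum_eq_zero (fun k _ => by rw [h1 k]; ring)] at h3
    have h4 := hQ r t 0 0
    have h5 : ((0 : ℝ × ℝ), (0 : ℝ)) = (0 : (ℝ × ℝ) × ℝ) := rfl
    rw [h5, hU0, Finset.sum_eq_zero (fun k _ => by rw [hA0 k]; ring)] at h4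
    have hu : u = 0 := by
      by_contra hne
      have h6 := hpos r u hne
      nlinarith [sq_nonneg s]
    rw [hu] at h3 ⊢
    have hs : s = 0 := by
      have h7 : s ^ 2 = 0 := by nlinarith
      exact pow_eq_zero_iff (two_ne_zero) |>.mp h7
    rw [hs]
    rfl
  set LA : Fin 3 → (ℝ × ℝ) × ℝ →ₗ[ℝ] ℝ := fun k =>
    { toFun := A k x
      map_add' := h.add_A k x
      map_smul' := fun r e => h.smul_A k x r e } with hLA
  set LU : (ℝ × ℝ) × ℝ →ₗ[ℝ] ℝ :=
    { toFun := U x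
      map_add' := h.add_U x
      map_smul' := fun r e => h.smul_U x r e } with hLU
  obtain ⟨hz, l, hl⟩ := (perp_line (fun k => h.sq k x) (h.sum x) LA LU hinj (h.orth x)).1
    (fun k => fderiv ℝ (fun y => A k y (0, 1)) x e) (fderiv ℝ (fun y => U y (0, 1)) x e)
    (fun e' => koszul h Q hQ x e e')
  refine ⟨hz, ?_⟩
  have hb : ∀ k, HasFDerivAt (b k) (fderiv ℝ (b k) x) x := fun k =>
    ((h.sm_b k).differentiable (by simp)).differentiableAt.hasFDerivAt
  have hAk : ∀ k, HasFDerivAt (fun y => A k y (0, 1)) (fderiv ℝ (fun y => A k y (0, 1)) x) x :=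
    fun k => ((h.sm_A k (0, 1)).differentiable (by simp)).differentiableAt.hasFDerivAt
  have hs : HasFDerivAt (fun y => ∑ k, b k y * A k y (0, 1))
      (∑ k, (b k x • fderiv ℝ (fun y => A k y (0, 1)) x + A k x (0, 1) • fderiv ℝ (b k) x)) x :=
    HasFDerivAt.fun_sum (fun k _ => (hb k).mul (hAk k))
  have h0 : (fun y => ∑ k, b k y * A k y (0, 1)) = fun _ => (0 : ℝ) :=
    funext fun y => h.orth y (0, 1)
  rw [h0] at hs
  have hu := hs.unique (hasFDerivAt_const (0 : ℝ) x)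
  have hue := congrArg (fun L : (ℝ × ℝ) × ℝ →L[ℝ] ℝ => L e) hu
  have hue' : ∑ k, (b k x * fderiv ℝ (fun y => A k y (0, 1)) x e +
      A k x (0, 1) * (a k x * A k x e)) = 0 := by
    have h8 : (∑ k, (b k x • fderiv ℝ (fun y => A k y (0, 1)) x +
        A k x (0, 1) • fderiv ℝ (b k) x)) e = 0 := hue
    rw [ContinuousLinearMap.sum_apply] at h8
    rw [← h8]
    apply Finset.sum_congr rfl
    intro k _
    rw [← h.db k x e]
    rfl
  have hden := den_pos (fun k => a k x) (fun k => b k x) (fun k => h.sq k x) (h.sum x)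
  have hlval : l * ∑ k, b k x ^ 2 = -∑ j, a j x * A j x e * A j x (0, 1) := by
    have h9 : ∑ k, (b k x * fderiv ℝ (fun y => A k y (0, 1)) x e +
        A k x (0, 1) * (a k x * A k x e)) =
        l * ∑ k, b k x ^ 2 + ∑ j, a j x * A j x e * A j x (0, 1) := by
      rw [Finset.mul_sum, ← Finset.sum_add_distrib]
      apply Finset.sum_congr rfl
      intro k _
      have h10 : fderiv ℝ (fun y => A k y (0, 1)) x e = l * b k x := hl k
      rw [h10]
      ring
    rw [h9] at hue'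
    linarith
  have hl' : l = -((∑ j, a j x * A j x e * A j x (0, 1)) / ∑ j, b j x ^ 2) := by
    rw [← neg_div, eq_div_iff hden.ne']
    exact hlval
  intro k
  have h10 : fderiv ℝ (fun y => A k y (0, 1)) x e = l * b k x := hl k
  rw [h10, hl']


end J_par_der

alias par_der := J_par_der.par_der

end Pool.Agent.Helper10.NCP
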