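import Mathlib
import Pool.Agent.Helper10.NCP.Base
import Pool.Agent.Helper10.NCP.J_den_pos
import Pool.Agent.Helper10.NCP.J_par_der

open Set Filter Topology
open scoped RealInnerProductSpace ContDiff

noncomputable section

namespace Pool.Agent.Helper10.NCP

namespace J_gauss


-- TARGET: prove this (put auxiliary lemmas between the ASSUMED END line and the theorem)

theorem gauss {a b : Fin 3 → (ℝ × ℝ) × ℝ → ℝ} {A : Fin 3 → (ℝ × ℝ) × ℝ → (ℝ × ℝ) × ℝ → ℝ}
    {U : (ℝ × ℝ) × ℝ → (ℝ × ℝ) × ℝ → ℝ} (h : Frame a b A U) (Q : ℝ × ℝ → ℝ × ℝ → ℝ)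
    (hQ : ∀ r t u s, ∑ k, A k (r, t) (u, s) ^ 2 + U (r, t) (u, s) ^ 2 = Q r u + s ^ 2)
    (hpos : ∀ r u, u ≠ 0 → 0 < Q r u) (x e e' m : (ℝ × ℝ) × ℝ) :
    (∑ j, a j x * A j x e * A j x (0, 1)) * (∑ j, a j x * A j x e' * A j x m) =
      (∑ j, a j x * A j x e' * A j x (0, 1)) * (∑ j, a j x * A j x e * A j x m) := by
  obtain ⟨T, hT⟩ : ∃ T : (ℝ × ℝ) × ℝ, T = (0, 1) := ⟨_, rfl⟩
  rw [← hT]
  obtain ⟨Λ, hΛ⟩ : ∃ Λ : (ℝ × ℝ) × ℝ → (ℝ × ℝ) × ℝ → ℝ, Λ = fun e y =>
    -((∑ j, a j y * A j y e * A j y T) / ∑ j, b j y ^ 2) := ⟨_, rfl⟩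
  have hB : ∀ y, 0 < ∑ j, b j y ^ 2 := fun y =>
    den_pos (fun k => a k y) (fun k => b k y) (fun k => h.sq k y) (h.sum y)
  have ha : ∀ k, Differentiable ℝ (a k) := fun k => (h.sm_a k).differentiable (by simp)
  have hb : ∀ k, Differentiable ℝ (b k) := fun k => (h.sm_b k).differentiable (by simp)
  have hA : ∀ k e, Differentiable ℝ (fun y => A k y e) :=
    fun k e => (h.sm_A k e).differentiable (by simp)
  have hpd : ∀ k e y, fderiv ℝ (fun y => A k y T) y e = Λ e y * b k y := by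
    intro k e y
    rw [hΛ, hT]
    exact (par_der h Q hQ hpos y e).2 k
  have hΛd : ∀ e, Differentiable ℝ (Λ e) := by
    intro e
    rw [hΛ]
    have e1 : (fun y => -((∑ j, a j y * A j y e * A j y T) / ∑ j, b j y ^ 2)) =
        fun y => -((a 0 y * A 0 y e * A 0 y T + a 1 y * A 1 y e * A 1 y T +
          a 2 y * A 2 y e * A 2 y T) / (b 0 y ^ 2 + b 1 y ^ 2 + b 2 y ^ 2)) := by
      funext y
      rw [Fin.sum_univ_three, Fin.sum_univ_three]
    show Differentiable ℝ (fun y => -((∑ j, a j y * A j y e * A j y T) / ∑ j, b j y ^ 2))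
    rw [e1]
    have hN : Differentiable ℝ (fun y => a 0 y * A 0 y e * A 0 y T + a 1 y * A 1 y e * A 1 y T +
          a 2 y * A 2 y e * A 2 y T) :=
      ((((ha 0).mul (hA 0 e)).mul (hA 0 T)).add (((ha 1).mul (hA 1 e)).mul (hA 1 T))).add
        (((ha 2).mul (hA 2 e)).mul (hA 2 T))
    have hD : Differentiable ℝ (fun y => b 0 y ^ 2 + b 1 y ^ 2 + b 2 y ^ 2) :=
      (((hb 0).pow 2).add ((hb 1).pow 2)).add ((hb 2).pow 2)
    have hne : ∀ y, b 0 y ^ 2 + b 1 y ^ 2 + b 2 y ^ 2 ≠ 0 := by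
      intro y
      have := hB y
      rw [Fin.sum_univ_three] at this
      exact this.ne'
    have hq : Differentiable ℝ (fun y => (a 0 y * A 0 y e * A 0 y T + a 1 y * A 1 y e * A 1 y T +
          a 2 y * A 2 y e * A 2 y T) * (b 0 y ^ 2 + b 1 y ^ 2 + b 2 y ^ 2)⁻¹) :=
      hN.mul (hD.inv hne)
    simp only [div_eq_mul_inv]
    exact hq.neg
  have hsym : ∀ k, fderiv ℝ (fun y => Λ e y * b k y) x e' =
      fderiv ℝ (fun y => Λ e' y * b k y) x e := by
    intro k
    have hsm := h.sm_A k T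
    have h1 : ∀ e, (fun y => Λ e y * b k y) = fun y => fderiv ℝ (fun y => A k y T) y e := by
      intro e
      funext y
      exact (hpd k e y).symm
    rw [h1 e, h1 e']
    have h2 : ContDiff ℝ 1 (fderiv ℝ (fun y => A k y T)) := hsm.fderiv_right (by norm_cast)
    have h3 : DifferentiableAt ℝ (fderiv ℝ (fun y => A k y T)) x :=
      h2.differentiable (by norm_num) x
    have h4 : ∀ u v, fderiv ℝ (fun y => fderiv ℝ (fun y => A k y T) y u) x v =
        fderiv ℝ (fderiv ℝ (fun y => A k y T)) x v u := by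
      intro u v
      have := h3.hasFDerivAt.clm_apply (hasFDerivAt_const u x)
      rw [this.fderiv]
      simp
    rw [h4, h4]
    exact (hsm.contDiffAt.isSymmSndFDerivAt (by
      rw [minSmoothness_of_isRCLikeNormedField]
      norm_cast)) e' e
  have hprod : ∀ k u v, fderiv ℝ (fun y => Λ u y * b k y) x v =
      fderiv ℝ (Λ u) x v * b k x + Λ u x * (a k x * A k x v) := by
    intro k u v
    have := ((hΛd u) x).hasFDerivAt.mul ((hb k) x).hasFDerivAt
    have h2 : fderiv ℝ (fun y => Λ u y * b k y) x = _ := HasFDerivAt.fderiv this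
    rw [h2]
    simp only [ContinuousLinearMap.add_apply, ContinuousLinearMap.smul_apply, smul_eq_mul, h.db]
    ring
  have hk : ∀ k, fderiv ℝ (Λ e) x e' * b k x + Λ e x * (a k x * A k x e') =
      fderiv ℝ (Λ e') x e * b k x + Λ e' x * (a k x * A k x e) := fun k => by
    rw [← hprod, ← hprod]
    exact hsym k
  have ho := h.orth x m
  rw [Fin.sum_univ_three] at ho
  have hΛe : ∀ e, Λ e x * (∑ j, b j x ^ 2) = -(∑ j, a j x * A j x e * A j x T) := by
    intro e
    have := (hB x).ne'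
    rw [hΛ]
    simp only
    rw [neg_mul, div_mul_cancel₀ _ this]
  have h5 : Λ e x * (∑ j, a j x * A j x e' * A j x m) =
      Λ e' x * (∑ j, a j x * A j x e * A j x m) := by
    rw [Fin.sum_univ_three, Fin.sum_univ_three]
    linear_combination A 0 x m * hk 0 + A 1 x m * hk 1 + A 2 x m * hk 2 -
      (fderiv ℝ (Λ e) x e' - fderiv ℝ (Λ e') x e) * ho
  linear_combination (∑ j, a j x * A j x e' * A j x m) * hΛe e -
    (∑ j, a j x * A j x e * A j x m) * hΛe e' - (∑ j, b j x ^ 2) * h5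



end J_gauss

alias gauss := J_gauss.gauss

end Pool.Agent.Helper10.NCP
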