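import Mathlib
import Pool.Agent.Helper10.NCP.Base
import Pool.Agent.Helper10.NCP.J_den_pos
import Pool.Agent.Helper10.NCP.J_c1_pos
import Pool.Agent.Helper10.NCP.J_perp_line
import Pool.Agent.Helper10.NCP.J_gauss

open Set Filter Topology
open scoped RealInnerProductSpace ContDiff

noncomputable section

namespace Pool.Agent.Helper10.NCP

namespace J_flat_T


-- TARGET: prove this (put auxiliary lemmas between the ASSUMED END line and the theorem)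

theorem flat_T {a b : Fin 3 → (ℝ × ℝ) × ℝ → ℝ} {A : Fin 3 → (ℝ × ℝ) × ℝ → (ℝ × ℝ) × ℝ → ℝ}
    {U : (ℝ × ℝ) × ℝ → (ℝ × ℝ) × ℝ → ℝ} (h : Frame a b A U) (Q : ℝ × ℝ → ℝ × ℝ → ℝ)
    (hQ : ∀ r t u s, ∑ k, A k (r, t) (u, s) ^ 2 + U (r, t) (u, s) ^ 2 = Q r u + s ^ 2)
    (hpos : ∀ r u, u ≠ 0 → 0 < Q r u) (x : (ℝ × ℝ) × ℝ) (hx : ∃ k, a k x ≠ 0) (k : Fin 3) :
    A k x (0, 1) = 0 := by
  obtain ⟨A', hA'⟩ : ∃ A' : Fin 3 → (ℝ × ℝ) × ℝ →ₗ[ℝ] ℝ, ∀ k e, A' k e = A k x e :=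
    ⟨fun k => { toFun := A k x, map_add' := h.add_A k x, map_smul' := h.smul_A k x },
      fun _ _ => rfl⟩
  obtain ⟨U', hU'⟩ : ∃ U' : (ℝ × ℝ) × ℝ →ₗ[ℝ] ℝ, ∀ e, U' e = U x e :=
    ⟨{ toFun := U x, map_add' := h.add_U x, map_smul' := h.smul_U x }, fun _ => rfl⟩
  have hA0 : ∀ k, A k x 0 = 0 := fun k => by rw [← hA', map_zero]
  have hU0 : U x 0 = 0 := by rw [← hU', map_zero]
  have hQ0 : Q x.1 0 = 0 := by
    have h1 := hQ x.1 x.2 0 0
    have h2 : ∀ k, A k (x.1, x.2) ((0 : ℝ × ℝ), (0:ℝ)) = 0 := hA0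
    have h3 : U (x.1, x.2) ((0 : ℝ × ℝ), (0:ℝ)) = 0 := hU0
    simp only [h2, h3] at h1
    simp at h1
    linarith
  have inj : ∀ e, (∀ k, A' k e = 0) → U' e = 0 → e = 0 := by
    rintro ⟨u, s⟩ h1 h2
    have h3 := hQ x.1 x.2 u s
    have h4 : ∀ k, A k (x.1, x.2) (u, s) = 0 := fun k => by rw [← h1 k, hA']
    have h5 : U (x.1, x.2) (u, s) = 0 := by rw [← h2, hU']
    simp only [h4, h5] at h3
    have h6 : Q x.1 u + s ^ 2 = 0 := by
      rw [← h3]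
      simp
    have hu : u = 0 := by
      by_contra hu
      have := hpos x.1 u hu
      nlinarith [sq_nonneg s]
    rw [hu, hQ0, zero_add] at h6
    have hs : s = 0 := by
      rcases pow_eq_zero_iff (two_ne_zero) |>.1 h6 with h7
      exact h7
    rw [hu, hs]
    rfl
  have sq' : ∀ k, a k x ^ 2 + b k x ^ 2 = 1 := fun k => h.sq k x
  have hp := (perp_line (a := fun k => a k x) (b := fun k => b k x) sq' (h.sum x) A' U' inj
    (fun e => by
      have h1 := h.orth x e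
      simpa only [hA'] using h1)).2
  obtain ⟨W, hW⟩ : ∃ W : Fin 3 → ℝ, ∀ k, W k = A k x (0, 1) := ⟨fun k => A k x (0, 1), fun _ => rfl⟩
  obtain ⟨B, hB⟩ : ∃ B : Fin 3 → ℝ, ∀ k, B k = b k x := ⟨fun k => b k x, fun _ => rfl⟩
  have hBW : ∑ k, B k * W k = 0 := by
    have h1 := h.orth x (0, 1)
    simpa only [hB, hW] using h1
  obtain ⟨Y, hY0, hY1, hY2⟩ : ∃ Y : Fin 3 → ℝ, Y 0 = B 1 * W 2 - B 2 * W 1 ∧
      Y 1 = B 2 * W 0 - B 0 * W 2 ∧ Y 2 = B 0 * W 1 - B 1 * W 0 :=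
    ⟨![B 1 * W 2 - B 2 * W 1, B 2 * W 0 - B 0 * W 2, B 0 * W 1 - B 1 * W 0], rfl, rfl, rfl⟩
  have hBY : ∑ k, B k * Y k = 0 := by
    rw [Fin.sum_univ_three, hY0, hY1, hY2]
    ring
  have hWY : ∑ k, W k * Y k = 0 := by
    rw [Fin.sum_univ_three, hY0, hY1, hY2]
    ring
  obtain ⟨e, he, -⟩ := hp Y 0 (by simpa only [hB] using hBY)
  have hg := gauss h Q hQ hpos x (0, 1) e e
  have he' : ∀ k, A k x e = Y k := fun k => by rw [← hA', he]
  simp only [he', ← hW] at hg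
  have hden := den_pos (fun k => a k x) B (fun k => by rw [hB]; exact h.sq k x) (h.sum x)
  have hcases := c1_pos (fun k => a k x) B W Y (fun k => by rw [hB]; exact h.sq k x) (h.sum x)
    hBW hBY (by
      simp only [Fin.sum_univ_three] at hg ⊢
      linear_combination -hg) hx hWY
  rw [← hW]
  rcases hcases with h1 | h1
  · exact h1 k
  · have h0 := h1 0
    have h1' := h1 1
    have h2 := h1 2
    rw [hY0] at h0
    rw [hY1] at h1'
    rw [hY2] at h2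
    rw [Fin.sum_univ_three] at hBW hden
    have h3 : (B 0 ^ 2 + B 1 ^ 2 + B 2 ^ 2) * (W 0 ^ 2 + W 1 ^ 2 + W 2 ^ 2) = 0 := by
      linear_combination (B 1 * W 2 - B 2 * W 1) * h0 + (B 2 * W 0 - B 0 * W 2) * h1' +
        (B 0 * W 1 - B 1 * W 0) * h2 + (B 0 * W 0 + B 1 * W 1 + B 2 * W 2) * hBW
    have h4 : W 0 ^ 2 + W 1 ^ 2 + W 2 ^ 2 = 0 := by
      rcases mul_eq_zero.1 h3 with h5 | h5
      · exact absurd h5 (ne_of_gt hden)
      · exact h5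
    have h5 : W k ^ 2 ≤ 0 := by
      have : ∀ k : Fin 3, W k ^ 2 ≤ W 0 ^ 2 + W 1 ^ 2 + W 2 ^ 2 := by
        intro k
        fin_cases k
        · show W 0 ^ 2 ≤ _
          nlinarith [sq_nonneg (W 1), sq_nonneg (W 2)]
        · show W 1 ^ 2 ≤ _
          nlinarith [sq_nonneg (W 0), sq_nonneg (W 2)]
        · show W 2 ^ 2 ≤ _
          nlinarith [sq_nonneg (W 1), sq_nonneg (W 0)]
      exact (this k).trans h4.le
    have h6 : W k ^ 2 = 0 := le_antisymm h5 (sq_nonneg _)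
    exact pow_eq_zero_iff (two_ne_zero) |>.1 h6


end J_flat_T

alias flat_T := J_flat_T.flat_T

end Pool.Agent.Helper10.NCP
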