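import Mathlib
import Pool.Agent.Helper10.NCP.Base
import Pool.Agent.Helper10.NCP.J_par_der
import Pool.Agent.Helper10.NCP.J_flat_T
import Pool.Agent.Helper10.NCP.J_ex_ne

open Set Filter Topology
open scoped RealInnerProductSpace ContDiff

noncomputable section

namespace Pool.Agent.Helper10.NCP

namespace J_pr_loc


-- TARGET: prove this (put auxiliary lemmas between the ASSUMED END line and the theorem)

theorem pr_loc {a b : Fin 3 → (ℝ × ℝ) × ℝ → ℝ} {A : Fin 3 → (ℝ × ℝ) × ℝ → (ℝ × ℝ) × ℝ → ℝ}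
    {U : (ℝ × ℝ) × ℝ → (ℝ × ℝ) × ℝ → ℝ} (h : Frame a b A U) (Q : ℝ × ℝ → ℝ × ℝ → ℝ)
    (hQ : ∀ r t u s, ∑ k, A k (r, t) (u, s) ^ 2 + U (r, t) (u, s) ^ 2 = Q r u + s ^ 2)
    (hpos : ∀ r u, u ≠ 0 → 0 < Q r u) :
    ∃ k₀ : ℝ, k₀ ^ 2 = 1 ∧ (∀ x, U x (0, 1) = k₀) ∧ (∀ x k, A k x (0, 1) = 0) ∧
      ∀ x u s, U x (u, s) = k₀ * s := by
  have hconst : ∀ x y, U x ((0 : ℝ × ℝ), (1 : ℝ)) = U y ((0 : ℝ × ℝ), (1 : ℝ)) := by
    intro x y
    refine is_const_of_fderiv_eq_zero (𝕜 := ℝ) (f := fun y => U y ((0 : ℝ × ℝ), (1 : ℝ)))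
      ((h.sm_U (0, 1)).differentiable (by simp)) (fun z => ?_) x y
    exact ContinuousLinearMap.ext fun e => (par_der h Q hQ hpos z e).1
  set k₀ : ℝ := U 0 ((0 : ℝ × ℝ), (1 : ℝ)) with hk₀
  have hU : ∀ x, U x ((0 : ℝ × ℝ), (1 : ℝ)) = k₀ := fun x => hconst x 0
  have A0 : ∀ k x, A k x ((0 : ℝ × ℝ), (0 : ℝ)) = 0 := by
    intro k x
    have h1 := h.smul_A k x 0 0
    rw [zero_smul, zero_mul] at h1
    exact h1
  have U0 : ∀ x, U x ((0 : ℝ × ℝ), (0 : ℝ)) = 0 := by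
    intro x
    have h1 := h.smul_U x 0 0
    rw [zero_smul, zero_mul] at h1
    exact h1
  have Q0 : ∀ r, Q r 0 = 0 := by
    intro r
    have h1 := hQ r 0 0 0
    simp only [A0, U0] at h1
    simp at h1
    exact h1.symm
  have key : ∀ x : (ℝ × ℝ) × ℝ, ∑ k, A k x ((0 : ℝ × ℝ), (1 : ℝ)) ^ 2 + k₀ ^ 2 = 1 := by
    rintro ⟨r, t⟩
    have h1 := hQ r t 0 1
    rw [hU, Q0] at h1
    rw [h1]; norm_num
  obtain ⟨x₀, hx₀⟩ := ex_ne h Q hQ hpos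
  have hk : k₀ ^ 2 = 1 := by
    have h1 := key x₀
    have h2 : ∑ k, A k x₀ ((0 : ℝ × ℝ), (1 : ℝ)) ^ 2 = 0 := by
      refine Finset.sum_eq_zero fun k _ => ?_
      rw [flat_T h Q hQ hpos x₀ hx₀ k]
      norm_num
    rw [h2, zero_add] at h1
    exact h1
  have hA : ∀ x k, A k x ((0 : ℝ × ℝ), (1 : ℝ)) = 0 := by
    intro x k
    have h1 := key x
    rw [hk] at h1
    have h2 : ∑ k, A k x ((0 : ℝ × ℝ), (1 : ℝ)) ^ 2 = 0 := by linarith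
    have h3 := (Finset.sum_eq_zero_iff_of_nonneg (fun k _ => sq_nonneg _)).1 h2 k (Finset.mem_univ k)
    exact pow_eq_zero_iff (two_ne_zero) |>.1 h3
  have hdec : ∀ (u : ℝ × ℝ) (s : ℝ), ((u, s) : (ℝ × ℝ) × ℝ) = (u, 0) + s • ((0 : ℝ × ℝ), (1 : ℝ)) := by
    intro u s
    simp
  have hUd : ∀ x u s, U x (u, s) = U x (u, 0) + s * k₀ := by
    intro x u s
    rw [hdec u s, h.add_U, h.smul_U, hU]
  have hAd : ∀ k x u s, A k x (u, s) = A k x (u, 0) := by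
    intro k x u s
    rw [hdec u s, h.add_A, h.smul_A, hA, mul_zero, add_zero]
  have hk0 : k₀ ≠ 0 := by
    intro h0
    rw [h0] at hk
    norm_num at hk
  have hUu : ∀ x u, U x (u, 0) = 0 := by
    rintro ⟨r, t⟩ u
    have h1 := hQ r t u 1
    have h2 := hQ r t u 0
    simp only [hAd _ _ u 1] at h1
    rw [hUd _ u 1] at h1
    have h3 : U (r, t) (u, 0) * k₀ = 0 := by
      nlinarith
    exact (mul_eq_zero.1 h3).resolve_right hk0
  refine ⟨k₀, hk, hU, hA, fun x u s => ?_⟩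
  rw [hUd, hUu, zero_add, mul_comm]


end J_pr_loc

alias pr_loc := J_pr_loc.pr_loc

end Pool.Agent.Helper10.NCP
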