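import Mathlib
import Pool.Agent.Helper10.NCP.Base
import Pool.Agent.Helper10.NCP.J_fr_map
import Pool.Agent.Helper10.NCP.J_pr_loc
import Pool.Agent.Helper10.NCP.J_met_fr

open Set Filter Topology
open scoped RealInnerProductSpace ContDiff

noncomputable section

namespace Pool.Agent.Helper10.NCP

namespace J_pr_point


theorem j27498_imm : Differentiable ℝ imm := by
  rw [differentiable_euclidean]
  intro i
  fin_cases i <;> simp only [imm] <;> simp <;> fun_prop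

theorem j27498_tan {X E' : Type} [NormedAddCommGroup X] [NormedSpace ℝ X] [NormedAddCommGroup E']
    [NormedSpace ℝ E'] {N : Set E'} {G : X → E'} (hG : Differentiable ℝ G) (hN : ∀ x, G x ∈ N)
    (x e : X) : fderiv ℝ G x e ∈ tangent N (G x) := by
  refine ⟨fun s => G (x + s • e), fun s => hN _, by simp, ?_⟩
  have h1 : HasDerivAt (fun s : ℝ => x + s • e) e 0 := by
    have := ((hasDerivAt_id (0:ℝ)).smul_const e).const_add x
    simpa using this
  have h2 : HasFDerivAt G (fderiv ℝ G x) (x + (0:ℝ) • e) := by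
    have := (hG x).hasFDerivAt
    simpa using this
  exact h2.comp_hasDerivAt (0:ℝ) h1


-- TARGET: prove this (put auxiliary lemmas between the ASSUMED END line and the theorem)

theorem pr_point {E : Type} [NormedAddCommGroup E] [NormedSpace ℝ E] {M : Set E}
    {φ : ℝ × ℝ → E} (hφ : ContDiff ℝ ∞ φ) (hφM : ∀ r, φ r ∈ M)
    (hφi : ∀ r u, fderiv ℝ φ r u = 0 → u = 0)
    (hφt : ∀ r, ∀ v ∈ tangent M (φ r), ∃ u, fderiv ℝ φ r u = v)
    (hlin : ∀ x ∈ surf ×ˢ circ, ∀ w ∈ tangent (surf ×ˢ circ) x, Lin x w)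
    {g₁ : E → E →L[ℝ] E →L[ℝ] ℝ} (hg : ∀ p ∈ M, ∀ v ∈ tangent M p, v ≠ 0 → 0 < g₁ p v v)
    {F : E × ℝ → V × (ℝ × ℝ)} (hF : ContDiff ℝ ∞ F) (hFM : MapsTo F (M ×ˢ univ) (surf ×ˢ circ))
    (hm : ∀ p ∈ M, ∀ t : ℝ, ∀ v ∈ tangent M p, ∀ r : ℝ,
      ‖fderiv ℝ (imm ∘ F) (p, t) (v, r)‖ ^ 2 = g₁ p v v + r ^ 2) :
    ∃ k₀ : ℝ, k₀ ^ 2 = 1 ∧ ∀ r t, ∀ v ∈ tangent M (φ r), ∀ s,
      ver (F (φ r, t)) (fderiv ℝ F (φ r, t) (v, s)) = k₀ * s := by
  have hφd : Differentiable ℝ φ := hφ.differentiable (by simp)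
  have hFd : Differentiable ℝ F := hF.differentiable (by simp)
  set G : (ℝ × ℝ) × ℝ → V × (ℝ × ℝ) := fun x => F (φ x.1, x.2) with hGdef
  have hG : ContDiff ℝ ∞ G := hF.comp ((hφ.comp contDiff_fst).prodMk contDiff_snd)
  have hGM : ∀ x, G x ∈ surf ×ˢ circ := fun x => hFM ⟨hφM x.1, trivial⟩
  have hfd : ∀ r t u s, fderiv ℝ G (r, t) (u, s) = fderiv ℝ F (φ r, t) (fderiv ℝ φ r u, s) := by
    intro r t u s
    have h1 : HasFDerivAt (fun x : (ℝ × ℝ) × ℝ => φ x.1)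
        ((fderiv ℝ φ r).comp (ContinuousLinearMap.fst ℝ (ℝ × ℝ) ℝ)) (r, t) :=
      HasFDerivAt.comp (r, t) (f := Prod.fst) (g := φ) (hφd r).hasFDerivAt hasFDerivAt_fst
    have h2 : HasFDerivAt (fun x : (ℝ × ℝ) × ℝ => (φ x.1, x.2))
        (((fderiv ℝ φ r).comp (ContinuousLinearMap.fst ℝ (ℝ × ℝ) ℝ)).prod
          (ContinuousLinearMap.snd ℝ (ℝ × ℝ) ℝ)) (r, t) := h1.prodMk hasFDerivAt_snd
    have h3 : HasFDerivAt G ((fderiv ℝ F (φ r, t)).comp
        (((fderiv ℝ φ r).comp (ContinuousLinearMap.fst ℝ (ℝ × ℝ) ℝ)).prod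
          (ContinuousLinearMap.snd ℝ (ℝ × ℝ) ℝ))) (r, t) :=
      HasFDerivAt.comp (r, t) (f := fun x : (ℝ × ℝ) × ℝ => (φ x.1, x.2)) (g := F)
        (hFd (φ r, t)).hasFDerivAt h2
    rw [h3.fderiv]
    simp
  have hfr := fr_map G hG hGM
  obtain ⟨k₀, hk, -, -, hk4⟩ := pr_loc hfr
    (fun r u => g₁ (φ r) (fderiv ℝ φ r u) (fderiv ℝ φ r u)) (by
      intro r t u s
      have htan : fderiv ℝ φ r u ∈ tangent M (φ r) := j27498_tan hφd hφM r u
      have h1 := hm (φ r) (hφM r) t (fderiv ℝ φ r u) htan s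
      have h2 : fderiv ℝ (imm ∘ F) (φ r, t) =
          (fderiv ℝ imm (F (φ r, t))).comp (fderiv ℝ F (φ r, t)) :=
        fderiv_comp (φ r, t) (j27498_imm _) (hFd _)
      have hl : Lin (G (r, t)) (fderiv ℝ G (r, t) (u, s)) :=
        hlin _ (hGM _) _ (j27498_tan (hG.differentiable (by simp)) hGM (r, t) (u, s))
      have h3 := met_fr (hGM (r, t)) hl hl
      have h4 : fderiv ℝ (imm ∘ F) (φ r, t) (fderiv ℝ φ r u, s) =
          fderiv ℝ imm (G (r, t)) (fderiv ℝ G (r, t) (u, s)) := by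
        rw [h2, hfd]
        rfl
      rw [h4, ← real_inner_self_eq_norm_sq, h3] at h1
      rw [← h1]
      simp only [pow_two]) (by
      intro r u hu
      exact hg _ (hφM r) _ (j27498_tan hφd hφM r u) (fun h => hu (hφi r u h)))
  refine ⟨k₀, hk, ?_⟩
  intro r t v hv s
  obtain ⟨u, rfl⟩ := hφt r v hv
  have := hk4 (r, t) u s
  rw [hfd] at this
  exact this


end J_pr_point

alias pr_point := J_pr_point.pr_point

end Pool.Agent.Helper10.NCP
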