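import Mathlib
import Pool.Agent.Helper10.NCP.Base
import Pool.Agent.Helper10.NCP.J_pr_point

open Set Filter Topology
open scoped RealInnerProductSpace ContDiff

noncomputable section

namespace Pool.Agent.Helper10.NCP

namespace J_pr_main


-- TARGET: prove this (put auxiliary lemmas between the ASSUMED END line and the theorem)

theorem pr_main {E : Type} [NormedAddCommGroup E] [NormedSpace ℝ E] {M : Set E}
    (hp : HasParam M) (hcon : IsConnected M)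
    (hlin : ∀ x ∈ surf ×ˢ circ, ∀ w ∈ tangent (surf ×ˢ circ) x, Lin x w)
    {g₁ : E → E →L[ℝ] E →L[ℝ] ℝ} (hg : ∀ p ∈ M, ∀ v ∈ tangent M p, v ≠ 0 → 0 < g₁ p v v)
    {F : E × ℝ → V × (ℝ × ℝ)} (hF : ContDiff ℝ ∞ F) (hFM : MapsTo F (M ×ˢ univ) (surf ×ˢ circ))
    (hm : ∀ p ∈ M, ∀ t : ℝ, ∀ v ∈ tangent M p, ∀ r : ℝ,
      ‖fderiv ℝ (imm ∘ F) (p, t) (v, r)‖ ^ 2 = g₁ p v v + r ^ 2) :
    ∃ k₀ : ℝ, k₀ ^ 2 = 1 ∧ ∀ p ∈ M, ∀ t, ∀ v ∈ tangent M p, ∀ s,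
      ver (F (p, t)) (fderiv ℝ F (p, t) (v, s)) = k₀ * s := by
  have h0t : ∀ q ∈ M, (0 : E) ∈ tangent M q := fun q hq =>
    ⟨fun _ => q, fun _ => hq, rfl, hasDerivAt_const 0 q⟩
  have key : ∀ p ∈ M, ∃ k₀ : ℝ, k₀ ^ 2 = 1 ∧
      (∀ t, ∀ v ∈ tangent M p, ∀ s, ver (F (p, t)) (fderiv ℝ F (p, t) (v, s)) = k₀ * s) ∧
      ∀ᶠ x in 𝓝 p, x ∈ M → ver (F (x, 0)) (fderiv ℝ F (x, 0) (0, 1)) = k₀ := by
    intro p hpM
    obtain ⟨φ, hφ, hφM, hφ0, hφi, hφt, hnear⟩ := hp p hpM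
    obtain ⟨k₀, hk, hform⟩ := pr_point hφ hφM hφi hφt hlin hg hF hFM hm
    refine ⟨k₀, hk, ?_, ?_⟩
    · intro t v hv s
      have := hform 0 t v (by rw [hφ0]; exact hv) s
      rwa [hφ0] at this
    · filter_upwards [hnear] with x hx hxM
      obtain ⟨r, rfl⟩ := hx hxM
      rw [hform r 0 0 (h0t _ (hφM r)) 1, mul_one]
  set K : M → ℝ := fun q => ver (F (q.1, 0)) (fderiv ℝ F (q.1, 0) (0, 1)) with hK
  have hKp : ∀ p (hpM : p ∈ M) k₀, (∀ᶠ x in 𝓝 p, x ∈ M →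
      ver (F (x, 0)) (fderiv ℝ F (x, 0) (0, 1)) = k₀) → K ⟨p, hpM⟩ = k₀ := by
    intro p hpM k₀ h
    exact h.self_of_nhds hpM
  have hloc : IsLocallyConstant K := by
    rw [IsLocallyConstant.iff_eventually_eq]
    rintro ⟨p, hpM⟩
    obtain ⟨k₀, _, _, hk3⟩ := key p hpM
    have h0 : Tendsto (fun y : M => (y : E)) (𝓝 (⟨p, hpM⟩ : M)) (𝓝 p) :=
      continuous_subtype_val.tendsto (⟨p, hpM⟩ : M)
    have h1 : ∀ᶠ y : M in 𝓝 (⟨p, hpM⟩ : M), (y.1 ∈ M →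
        ver (F (y.1, 0)) (fderiv ℝ F (y.1, 0) (0, 1)) = k₀) :=
      h0.eventually hk3
    filter_upwards [h1] with y hy
    rw [hKp p hpM k₀ hk3]
    exact hy y.2
  have : PreconnectedSpace M := Subtype.preconnectedSpace hcon.isPreconnected
  obtain ⟨p₁, hp₁⟩ := hcon.nonempty
  obtain ⟨k₁, hk1, _, hk3⟩ := key p₁ hp₁
  refine ⟨k₁, hk1, ?_⟩
  intro p hpM t v hv s
  obtain ⟨k, _, hk2, hk3'⟩ := key p hpM
  have e1 := hKp p₁ hp₁ k₁ hk3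
  have e2 := hKp p hpM k hk3'
  have e3 := hloc.apply_eq_of_preconnectedSpace ⟨p₁, hp₁⟩ ⟨p, hpM⟩
  have e4 : k = k₁ := by rw [← e2, ← e1, e3]
  rw [← e4]
  exact hk2 t v hv s


end J_pr_main

alias pr_main := J_pr_main.pr_main

end Pool.Agent.Helper10.NCP
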