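import Mathlib
import Pool.Agent.Helper10.NCP.Base

open Set Filter Topology
open scoped RealInnerProductSpace ContDiff

noncomputable section

namespace Pool.Agent.Helper10.NCP

namespace J_surf_conn


-- TARGET: prove this (put auxiliary lemmas between the ASSUMED END line and the theorem)

/-- The domain of the sheets. -/
def HH : Set (Fin 3 → ℝ) := {a | (∀ k, |a k| ≤ 1) ∧ ∑ k, a k = 0}

/-- The sheet with signs `σ`. -/
def sheetMap (σ : Fin 3 → ℝ) (a : Fin 3 → ℝ) : V := (a, fun k => σ k * √(1 - a k ^ 2))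

lemma HH_convex : Convex ℝ HH := by
  intro x hx y hy a b ha hb hab
  refine ⟨fun k => ?_, ?_⟩
  · have h1 := abs_le.mp (hx.1 k)
    have h2 := abs_le.mp (hy.1 k)
    rw [abs_le]
    simp only [Pi.add_apply, Pi.smul_apply, smul_eq_mul]
    constructor <;> nlinarith
  · have h1 := hx.2
    have h2 := hy.2
    rw [Fin.sum_univ_three] at h1 h2 ⊢
    simp only [Pi.add_apply, Pi.smul_apply, smul_eq_mul]
    linear_combination a * h1 + b * h2

lemma sheetMap_cont (σ : Fin 3 → ℝ) : Continuous (sheetMap σ) := by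
  unfold sheetMap
  refine Continuous.prodMk continuous_id ?_
  refine continuous_pi fun k => ?_
  exact continuous_const.mul ((continuous_const.sub ((continuous_apply k).pow 2)).sqrt)

lemma sheet_conn (σ : Fin 3 → ℝ) : IsPreconnected (sheetMap σ '' HH) :=
  HH_convex.isPreconnected.image _ (sheetMap_cont σ).continuousOn

lemma sheet_sub (σ : Fin 3 → ℝ) (hσ : ∀ k, σ k ^ 2 = 1) : sheetMap σ '' HH ⊆ surf := by
  rintro _ ⟨a, ha, rfl⟩
  refine ⟨fun k => ?_, ha.2⟩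
  have h1 : a k ^ 2 ≤ 1 := by
    have := ha.1 k
    exact (sq_le_one_iff_abs_le_one _).mpr this
  show a k ^ 2 + (σ k * √(1 - a k ^ 2)) ^ 2 = 1
  rw [mul_pow, hσ k, Real.sq_sqrt (by linarith)]
  ring

lemma mem_sheet {p : V} (hp : p ∈ surf) :
    ∃ σ : Fin 3 → ℝ, (∀ k, σ k = 1 ∨ σ k = -1) ∧ p ∈ sheetMap σ '' HH := by
  refine ⟨fun k => if 0 ≤ p.2 k then 1 else -1, fun k => ?_, p.1, ⟨fun k => ?_, hp.2⟩, ?_⟩
  · by_cases h : 0 ≤ p.2 k
    · left; simp [h]
    · right; simp [h]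
  · have := hp.1 k
    exact (sq_le_one_iff_abs_le_one _).mp (by nlinarith [sq_nonneg (p.2 k)])
  · refine Prod.ext rfl ?_
    funext k
    show (if 0 ≤ p.2 k then (1 : ℝ) else -1) * √(1 - p.1 k ^ 2) = p.2 k
    have h1 : 1 - p.1 k ^ 2 = p.2 k ^ 2 := by linarith [hp.1 k]
    rw [h1, Real.sqrt_sq_eq_abs]
    by_cases h : 0 ≤ p.2 k
    · rw [if_pos h, abs_of_nonneg h, one_mul]
    · rw [if_neg h, abs_of_neg (not_le.mp h)]; ring

lemma mem_P (σ : Fin 3 → ℝ) : ((![1, -1, 0], ![0, 0, σ 2]) : V) ∈ sheetMap σ '' HH := by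
  refine ⟨![1, -1, 0], ⟨fun k => ?_, ?_⟩, ?_⟩
  · fin_cases k <;> simp
  · simp [Fin.sum_univ_three]
  · refine Prod.ext rfl ?_
    funext k
    fin_cases k <;> simp [sheetMap]

lemma mem_R (σ : Fin 3 → ℝ) : ((![0, 1, -1], ![σ 0, 0, 0]) : V) ∈ sheetMap σ '' HH := by
  refine ⟨![0, 1, -1], ⟨fun k => ?_, ?_⟩, ?_⟩
  · fin_cases k <;> simp
  · simp [Fin.sum_univ_three]
  · refine Prod.ext rfl ?_
    funext k
    fin_cases k <;> simp [sheetMap]

theorem surf_conn : IsConnected surf := by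
  have hsq : ∀ σ : Fin 3 → ℝ, (∀ k, σ k = 1 ∨ σ k = -1) → ∀ k, σ k ^ 2 = 1 := by
    intro σ hσ k
    rcases hσ k with h | h <;> rw [h] <;> norm_num
  have hσ1 : ∀ k, (![1, 1, 1] : Fin 3 → ℝ) k = 1 ∨ (![1, 1, 1] : Fin 3 → ℝ) k = -1 := by
    intro k; fin_cases k <;> simp
  have hσ2 : ∀ k, (![1, 1, -1] : Fin 3 → ℝ) k = 1 ∨ (![1, 1, -1] : Fin 3 → ℝ) k = -1 := by
    intro k; fin_cases k <;> simp
  refine ⟨⟨((![1, -1, 0], ![0, 0, 1]) : V), ?_⟩, ?_⟩
  · have := mem_P ![1, 1, 1]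
    exact sheet_sub _ (hsq _ hσ1) this
  · refine isPreconnected_of_forall ((![1, -1, 0], ![0, 0, 1]) : V) fun y hy => ?_
    obtain ⟨σ, hσ, hyσ⟩ := mem_sheet hy
    rcases hσ 2 with h2 | h2
    · refine ⟨sheetMap σ '' HH, sheet_sub _ (hsq _ hσ), ?_, hyσ, sheet_conn σ⟩
      have := mem_P σ
      rwa [h2] at this
    · refine ⟨(sheetMap σ '' HH ∪ sheetMap ![1, 1, -1] '' HH) ∪ sheetMap ![1, 1, 1] '' HH, ?_, ?_,
        Or.inl (Or.inl hyσ), ?_⟩
      · exact union_subset (union_subset (sheet_sub _ (hsq _ hσ)) (sheet_sub _ (hsq _ hσ2)))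
          (sheet_sub _ (hsq _ hσ1))
      · exact Or.inr (mem_P ![1, 1, 1])
      · have hQ1 := mem_P σ
        have hQ2 := mem_P ![1, 1, -1]
        rw [h2] at hQ1
        have hR1 := mem_R ![1, 1, -1]
        have hR2 := mem_R ![1, 1, 1]
        have hU1 : IsPreconnected (sheetMap σ '' HH ∪ sheetMap ![1, 1, -1] '' HH) :=
          IsPreconnected.union _ hQ1 hQ2 (sheet_conn _) (sheet_conn _)
        exact IsPreconnected.union _ (Or.inr hR1) hR2 hU1 (sheet_conn _)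


end J_surf_conn

alias surf_conn := J_surf_conn.surf_conn

end Pool.Agent.Helper10.NCP
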