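import Mathlib
import Pool.Agent.Helper10.NCP.Base

open Set Filter Topology
open scoped RealInnerProductSpace ContDiff

noncomputable section

namespace Pool.Agent.Helper10.NCP

namespace J_surf_cpt


-- TARGET: prove this (put auxiliary lemmas between the ASSUMED END line and the theorem)

theorem surf_cpt : IsCompact surf := by
  apply Metric.isCompact_of_isClosed_isBounded
  · have h1 : IsClosed {p : V | ∀ k, p.1 k ^ 2 + p.2 k ^ 2 = 1} := by
      simp only [Set.setOf_forall]
      apply isClosed_iInter
      intro k
      exact isClosed_eq (by fun_prop) (by fun_prop)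
    have h2 : IsClosed {p : V | ∑ k, p.1 k = 0} := isClosed_eq (by fun_prop) (by fun_prop)
    exact h1.inter h2
  · rw [isBounded_iff_forall_norm_le]
    refine ⟨1, ?_⟩
    rintro p ⟨hp, _⟩
    rw [Prod.norm_def]
    apply max_le
    · rw [pi_norm_le_iff_of_nonneg zero_le_one]
      intro k
      rw [Real.norm_eq_abs, abs_le_one_iff_mul_self_le_one]
      nlinarith [hp k, sq_nonneg (p.2 k)]
    · rw [pi_norm_le_iff_of_nonneg zero_le_one]
      intro k
      rw [Real.norm_eq_abs, abs_le_one_iff_mul_self_le_one]
      nlinarith [hp k, sq_nonneg (p.1 k)]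


end J_surf_cpt

alias surf_cpt := J_surf_cpt.surf_cpt

end Pool.Agent.Helper10.NCP
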