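import Mathlib
import Pool.Agent.Helper10.NCP.Base
import Pool.Agent.Helper10.NCP.J_den_pos
import Pool.Agent.Helper10.NCP.J_tan_lin

open Set Filter Topology
open scoped RealInnerProductSpace ContDiff

noncomputable section

namespace Pool.Agent.Helper10.NCP

namespace J_surf_or


-- TARGET: prove this (put auxiliary lemmas between the ASSUMED END line and the theorem)

/-- the functional `y_k` -/
def soL (k : Fin 3) (x : V) : V →L[ℝ] ℝ :=
  x.1 k • ((ContinuousLinearMap.proj (R := ℝ) (φ := fun _ : Fin 3 => ℝ) k).comp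
      (ContinuousLinearMap.snd ℝ (Fin 3 → ℝ) (Fin 3 → ℝ)))
    - x.2 k • ((ContinuousLinearMap.proj (R := ℝ) (φ := fun _ : Fin 3 => ℝ) k).comp
      (ContinuousLinearMap.fst ℝ (Fin 3 → ℝ) (Fin 3 → ℝ)))

theorem soL_apply (k : Fin 3) (x v : V) : soL k x v = x.1 k * v.2 k - x.2 k * v.1 k := by
  simp [soL]

theorem soL_cont (k : Fin 3) : Continuous (soL k) := by
  unfold soL
  fun_prop

/-- the `2`-form -/
def soB (j k : Fin 3) (x : V) : V →L[ℝ] V →L[ℝ] ℝ :=
  ContinuousLinearMap.smulRightL ℝ V (V →L[ℝ] ℝ) (soL j x) (soL k x)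

theorem soB_apply (j k : Fin 3) (x v w : V) : soB j k x v w = soL j x v * soL k x w := by
  simp [soB]

theorem soB_cont (j k : Fin 3) : Continuous (soB j k) := by
  unfold soB
  exact ((ContinuousLinearMap.continuous _).comp (soL_cont j)).clm_apply (soL_cont k)

def soV (x : V) : V →L[ℝ] V →L[ℝ] ℝ :=
  x.2 0 • (soB 1 2 x - soB 2 1 x) + x.2 1 • (soB 2 0 x - soB 0 2 x)
    + x.2 2 • (soB 0 1 x - soB 1 0 x)

theorem soV_apply (x v w : V) : soV x v w =
    x.2 0 * (soL 1 x v * soL 2 x w - soL 2 x v * soL 1 x w)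
    + x.2 1 * (soL 2 x v * soL 0 x w - soL 0 x v * soL 2 x w)
    + x.2 2 * (soL 0 x v * soL 1 x w - soL 1 x v * soL 0 x w) := by
  simp [soV, soB_apply]

theorem soTG : IsTopologicalAddGroup (V →L[ℝ] V →L[ℝ] ℝ) := inferInstance
theorem soCA : ContinuousAdd (V →L[ℝ] V →L[ℝ] ℝ) := soTG.toContinuousAdd
theorem soCS : ContinuousSub (V →L[ℝ] V →L[ℝ] ℝ) :=
  @IsTopologicalAddGroup.to_continuousSub _ _ _ soTG

theorem so_sq (a b c : ℝ) (h : a ^ 2 + b ^ 2 + c ^ 2 = 0) : a = 0 ∧ b = 0 ∧ c = 0 := by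
  refine ⟨?_, ?_, ?_⟩ <;> nlinarith [sq_nonneg a, sq_nonneg b, sq_nonneg c]

theorem soV_cont : Continuous soV := by
  haveI := soCA
  haveI := soCS
  unfold soV
  have h := soB_cont
  have h0 : Continuous fun x : V => x.2 0 := by fun_prop
  have h1 : Continuous fun x : V => x.2 1 := by fun_prop
  have h2 : Continuous fun x : V => x.2 2 := by fun_prop
  exact ((h0.smul ((h 1 2).sub (h 2 1))).add (h1.smul ((h 2 0).sub (h 0 2)))).add
    (h2.smul ((h 0 1).sub (h 1 0)))

theorem surf_or : IsOrientable surf := by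
  refine ⟨soV, soV_cont.continuousOn, ?_⟩
  rintro x ⟨hx1, hx2⟩ v hv w hw
  obtain ⟨hv1, hv2⟩ := tan_lin hv
  obtain ⟨hw1, hw2⟩ := tan_lin hw
  refine ⟨?_, ?_⟩
  · rw [soV_apply, soV_apply]; ring
  intro hli h0
  rw [soV_apply] at h0
  -- recover the vectors from the angular velocities
  have rec1 : ∀ (u : V), (∀ k, x.1 k * u.1 k + x.2 k * u.2 k = 0) →
      ∀ k, u.1 k = - (x.2 k * soL k x u) ∧ u.2 k = x.1 k * soL k x u := by
    intro u hu k
    rw [soL_apply]
    have h1 := hx1 k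
    have h2 := hu k
    constructor
    · linear_combination (-(u.1 k)) * h1 + x.1 k * h2
    · linear_combination (-(u.2 k)) * h1 + x.2 k * h2
  have rv := rec1 v hv1
  have rw' := rec1 w hw1
  have hb := den_pos x.1 x.2 hx1 hx2
  rw [Fin.sum_univ_three] at hb hv2 hw2
  set y0 := soL 0 x v with hy0
  set y1 := soL 1 x v with hy1
  set y2 := soL 2 x v with hy2
  set z0 := soL 0 x w with hz0
  set z1 := soL 1 x w with hz1
  set z2 := soL 2 x w with hz2
  have ey : x.2 0 * y0 + x.2 1 * y1 + x.2 2 * y2 = 0 := by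
    have a0 := (rv 0).1
    have a1 := (rv 1).1
    have a2 := (rv 2).1
    rw [a0, a1, a2] at hv2
    linarith
  have ez : x.2 0 * z0 + x.2 1 * z1 + x.2 2 * z2 = 0 := by
    have a0 := (rw' 0).1
    have a1 := (rw' 1).1
    have a2 := (rw' 2).1
    rw [a0, a1, a2] at hw2
    linarith
  set b0 := x.2 0 with hb0
  set b1 := x.2 1 with hb1
  set b2 := x.2 2 with hb2
  have key : (b0 ^ 2 + b1 ^ 2 + b2 ^ 2) * ((y1 * z2 - y2 * z1) ^ 2 + (y2 * z0 - y0 * z2) ^ 2
      + (y0 * z1 - y1 * z0) ^ 2) = 0 := by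
    have c0 : b1 * (y0 * z1 - y1 * z0) - b2 * (y2 * z0 - y0 * z2) = 0 := by
      linear_combination y0 * ez - z0 * ey
    have c1 : b2 * (y1 * z2 - y2 * z1) - b0 * (y0 * z1 - y1 * z0) = 0 := by
      linear_combination y1 * ez - z1 * ey
    have c2 : b0 * (y2 * z0 - y0 * z2) - b1 * (y1 * z2 - y2 * z1) = 0 := by
      linear_combination y2 * ez - z2 * ey
    linear_combination (b0 * (y1 * z2 - y2 * z1) + b1 * (y2 * z0 - y0 * z2)
        + b2 * (y0 * z1 - y1 * z0)) * h0
      + (b1 * (y0 * z1 - y1 * z0) - b2 * (y2 * z0 - y0 * z2)) * c0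
      + (b2 * (y1 * z2 - y2 * z1) - b0 * (y0 * z1 - y1 * z0)) * c1
      + (b0 * (y2 * z0 - y0 * z2) - b1 * (y1 * z2 - y2 * z1)) * c2
  have key2 : (y1 * z2 - y2 * z1) ^ 2 + (y2 * z0 - y0 * z2) ^ 2
      + (y0 * z1 - y1 * z0) ^ 2 = 0 := by
    rcases mul_eq_zero.1 key with h | h
    · exact absurd h hb.ne'
    · exact h
  obtain ⟨k0, k1, k2⟩ := so_sq _ _ _ key2
  rw [LinearIndependent.pair_iff] at hli
  have cross : ∀ i k : Fin 3, soL i x w * soL k x v = soL i x v * soL k x w := by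
    intro i k
    fin_cases i <;> fin_cases k <;> simp only [Fin.zero_eta, Fin.mk_one, Fin.reduceFinMk,
      ← hy0, ← hy1, ← hy2, ← hz0, ← hz1, ← hz2] <;> linarith
  have hyz : ∀ i : Fin 3, soL i x v = 0 := by
    intro i
    have h := hli (soL i x w) (-(soL i x v)) (by
      ext k
      · have a := (rv k).1
        have b := (rw' k).1
        show soL i x w * v.1 k + -(soL i x v) * w.1 k = 0
        rw [a, b]
        linear_combination (-(x.2 k)) * cross i k
      · have a := (rv k).2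
        have b := (rw' k).2
        show soL i x w * v.2 k + -(soL i x v) * w.2 k = 0
        rw [a, b]
        linear_combination (x.1 k) * cross i k)
    exact neg_eq_zero.1 h.2
  have hv0 : v = 0 := by
    ext k
    · rw [(rv k).1, hyz k]; simp
    · rw [(rv k).2, hyz k]; simp
  have h := hli 1 0 (by rw [hv0]; simp)
  exact one_ne_zero h.1


end J_surf_or

alias surf_or := J_surf_or.surf_or

end Pool.Agent.Helper10.NCP
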