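import Mathlib
import Pool.Agent.Helper10.NCP.Base

open Set Filter Topology
open scoped RealInnerProductSpace ContDiff

noncomputable section

namespace Pool.Agent.Helper10.NCP

namespace J_surf_sub


-- TARGET: prove this (put auxiliary lemmas between the ASSUMED END line and the theorem)

/-- The defining map. -/
def sF (y : V) : EuclideanSpace ℝ (Fin 4) :=
  !₂[y.1 0 ^ 2 + y.2 0 ^ 2 - 1, y.1 1 ^ 2 + y.2 1 ^ 2 - 1, y.1 2 ^ 2 + y.2 2 ^ 2 - 1,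
    y.1 0 + y.1 1 + y.1 2]

theorem cd1 (k : Fin 3) : ContDiff ℝ ∞ (fun y : V => y.1 k) :=
  ((ContinuousLinearMap.proj (R := ℝ) (φ := fun _ : Fin 3 => ℝ) k).comp
    (ContinuousLinearMap.fst ℝ (Fin 3 → ℝ) (Fin 3 → ℝ))).contDiff

theorem cd2 (k : Fin 3) : ContDiff ℝ ∞ (fun y : V => y.2 k) :=
  ((ContinuousLinearMap.proj (R := ℝ) (φ := fun _ : Fin 3 => ℝ) k).comp
    (ContinuousLinearMap.snd ℝ (Fin 3 → ℝ) (Fin 3 → ℝ))).contDiff

theorem sF_cd : ContDiff ℝ ∞ sF := by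
  rw [contDiff_euclidean]
  intro i
  fin_cases i
  · exact (((cd1 0).pow 2).add ((cd2 0).pow 2)).sub contDiff_const
  · exact (((cd1 1).pow 2).add ((cd2 1).pow 2)).sub contDiff_const
  · exact (((cd1 2).pow 2).add ((cd2 2).pow 2)).sub contDiff_const
  · exact ((cd1 0).add (cd1 1)).add (cd1 2)

theorem hd1 (y : V) (k : Fin 3) : HasFDerivAt (fun y : V => y.1 k)
    ((ContinuousLinearMap.proj (R := ℝ) (φ := fun _ : Fin 3 => ℝ) k).comp
      (ContinuousLinearMap.fst ℝ (Fin 3 → ℝ) (Fin 3 → ℝ))) y :=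
  ((ContinuousLinearMap.proj (R := ℝ) (φ := fun _ : Fin 3 => ℝ) k).comp
    (ContinuousLinearMap.fst ℝ (Fin 3 → ℝ) (Fin 3 → ℝ))).hasFDerivAt

theorem hd2 (y : V) (k : Fin 3) : HasFDerivAt (fun y : V => y.2 k)
    ((ContinuousLinearMap.proj (R := ℝ) (φ := fun _ : Fin 3 => ℝ) k).comp
      (ContinuousLinearMap.snd ℝ (Fin 3 → ℝ) (Fin 3 → ℝ))) y :=
  ((ContinuousLinearMap.proj (R := ℝ) (φ := fun _ : Fin 3 => ℝ) k).comp
    (ContinuousLinearMap.snd ℝ (Fin 3 → ℝ) (Fin 3 → ℝ))).hasFDerivAt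

theorem hsq (y v : V) (k : Fin 3) :
    fderiv ℝ (fun y : V => y.1 k ^ 2 + y.2 k ^ 2 - 1) y v = 2 * (y.1 k * v.1 k + y.2 k * v.2 k) := by
  have h := ((((hd1 y k).pow 2).add ((hd2 y k).pow 2)).sub_const 1)
  have h' : fderiv ℝ (fun y : V => y.1 k ^ 2 + y.2 k ^ 2 - 1) y = _ := h.fderiv
  rw [h']
  simp
  ring

theorem hsum (y v : V) :
    fderiv ℝ (fun y : V => y.1 0 + y.1 1 + y.1 2) y v = v.1 0 + v.1 1 + v.1 2 := by
  have h := ((hd1 y 0).add (hd1 y 1)).add (hd1 y 2)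
  have h' : fderiv ℝ (fun y : V => y.1 0 + y.1 1 + y.1 2) y = _ := h.fderiv
  rw [h']
  simp

theorem sF_comp (y v : V) (i : Fin 4) :
    (fderiv ℝ sF y v) i = fderiv ℝ (fun z => sF z i) y v := by
  have hd : DifferentiableAt ℝ sF y := sF_cd.differentiable (by simp) y
  have h := (EuclideanSpace.proj i : EuclideanSpace ℝ (Fin 4) →L[ℝ] ℝ).hasFDerivAt.comp y
    hd.hasFDerivAt
  have h' : fderiv ℝ (fun z => sF z i) y = _ := h.fderiv
  rw [h']
  simp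

theorem sF_surj (y : V) (h1 : ∀ k, y.1 k ^ 2 + y.2 k ^ 2 ≠ 0) (h2 : ∃ k, y.2 k ≠ 0) :
    Function.Surjective (fderiv ℝ sF y) := by
  intro t
  obtain ⟨j, hj⟩ := h2
  have hex : ∃ s : Fin 3 → ℝ,
      s 0 * y.2 0 + s 1 * y.2 1 + s 2 * y.2 2 =
      (t 0 / (2 * (y.1 0 ^ 2 + y.2 0 ^ 2))) * y.1 0 + (t 1 / (2 * (y.1 1 ^ 2 + y.2 1 ^ 2))) * y.1 1
        + (t 2 / (2 * (y.1 2 ^ 2 + y.2 2 ^ 2))) * y.1 2 - t 3 := by
    generalize (t 0 / (2 * (y.1 0 ^ 2 + y.2 0 ^ 2))) * y.1 0 +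
      (t 1 / (2 * (y.1 1 ^ 2 + y.2 1 ^ 2))) * y.1 1
        + (t 2 / (2 * (y.1 2 ^ 2 + y.2 2 ^ 2))) * y.1 2 - t 3 = c
    fin_cases j
    · exact ⟨![c / y.2 0, 0, 0], by simp at hj ⊢; field_simp⟩
    · exact ⟨![0, c / y.2 1, 0], by simp at hj ⊢; field_simp⟩
    · exact ⟨![0, 0, c / y.2 2], by simp at hj ⊢; field_simp⟩
  obtain ⟨s, hs⟩ := hex
  let v : V := (![(t 0 / (2 * (y.1 0 ^ 2 + y.2 0 ^ 2))) * y.1 0 - s 0 * y.2 0,
      (t 1 / (2 * (y.1 1 ^ 2 + y.2 1 ^ 2))) * y.1 1 - s 1 * y.2 1,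
      (t 2 / (2 * (y.1 2 ^ 2 + y.2 2 ^ 2))) * y.1 2 - s 2 * y.2 2],
    ![(t 0 / (2 * (y.1 0 ^ 2 + y.2 0 ^ 2))) * y.2 0 + s 0 * y.1 0,
      (t 1 / (2 * (y.1 1 ^ 2 + y.2 1 ^ 2))) * y.2 1 + s 1 * y.1 1,
      (t 2 / (2 * (y.1 2 ^ 2 + y.2 2 ^ 2))) * y.2 2 + s 2 * y.1 2])
  have k0 := h1 0
  have k1 := h1 1
  have k2 := h1 2
  refine ⟨v, ?_⟩
  ext i
  rw [sF_comp]
  fin_cases i
  · refine (hsq y v 0).trans ?_
    simp only [v, Matrix.cons_val_zero]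
    field_simp
    simp
    ring
  · refine (hsq y v 1).trans ?_
    simp only [v, Matrix.cons_val_one, Matrix.cons_val_zero]
    field_simp
    simp
    ring
  · refine (hsq y v 2).trans ?_
    simp only [v, Matrix.cons_val]
    field_simp
    simp
    ring
  · refine (hsum y v).trans ?_
    simp only [v, Matrix.cons_val]
    have : t.ofLp ⟨3, by norm_num⟩ = t 3 := rfl
    show _ = t 3
    linarith

theorem surf_sub : IsSubmanifold surf 2 := by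
  intro x hx
  refine ⟨4, {y : V | (∀ k, y.1 k ^ 2 + y.2 k ^ 2 ≠ 0) ∧ (∃ k, y.2 k ≠ 0)}, sF, ?_, ?_, ?_,
    sF_cd.contDiffOn, ?_, ?_⟩
  · simp [V]
  · apply IsOpen.inter
    · have : {y : V | ∀ k, y.1 k ^ 2 + y.2 k ^ 2 ≠ 0} =
          ⋂ k : Fin 3, {y : V | y.1 k ^ 2 + y.2 k ^ 2 ≠ 0} := by ext; simp
      change IsOpen {y : V | ∀ k, y.1 k ^ 2 + y.2 k ^ 2 ≠ 0}
      rw [this]
      apply isOpen_iInter_of_finite
      intro k
      exact isOpen_ne_fun (((cd1 k).continuous.pow 2).add ((cd2 k).continuous.pow 2))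
        continuous_const
    · have : {y : V | ∃ k, y.2 k ≠ 0} = ⋃ k : Fin 3, {y : V | y.2 k ≠ 0} := by ext; simp
      change IsOpen {y : V | ∃ k, y.2 k ≠ 0}
      rw [this]
      apply isOpen_iUnion
      intro k
      exact isOpen_ne_fun (cd2 k).continuous continuous_const
  · obtain ⟨h1, h2⟩ := hx
    refine ⟨fun k => by rw [h1 k]; norm_num, ?_⟩
    by_contra hcon
    push Not at hcon
    have g : ∀ k, x.1 k = 1 ∨ x.1 k = -1 := by
      intro k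
      have := h1 k
      rw [hcon k] at this
      have h3 : (x.1 k - 1) * (x.1 k + 1) = 0 := by linarith
      rcases mul_eq_zero.mp h3 with h | h
      · left; linarith
      · right; linarith
    rw [Fin.sum_univ_three] at h2
    rcases g 0 with a | a <;> rcases g 1 with b | b <;> rcases g 2 with c | c <;>
      rw [a, b, c] at h2 <;> norm_num at h2
  · intro y _
    constructor
    · rintro ⟨h1, h2⟩
      rw [Fin.sum_univ_three] at h2
      ext i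
      fin_cases i
      · show y.1 0 ^ 2 + y.2 0 ^ 2 - 1 = 0
        rw [h1 0]; norm_num
      · show y.1 1 ^ 2 + y.2 1 ^ 2 - 1 = 0
        rw [h1 1]; norm_num
      · show y.1 2 ^ 2 + y.2 2 ^ 2 - 1 = 0
        rw [h1 2]; norm_num
      · exact h2
    · intro h
      have e0 : y.1 0 ^ 2 + y.2 0 ^ 2 - 1 = 0 := congrArg (fun z => z.ofLp 0) h
      have e1 : y.1 1 ^ 2 + y.2 1 ^ 2 - 1 = 0 := congrArg (fun z => z.ofLp 1) h
      have e2 : y.1 2 ^ 2 + y.2 2 ^ 2 - 1 = 0 := congrArg (fun z => z.ofLp 2) h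
      have e3 : y.1 0 + y.1 1 + y.1 2 = 0 := congrArg (fun z => z.ofLp 3) h
      refine ⟨?_, ?_⟩
      · intro k
        fin_cases k
        · show y.1 0 ^ 2 + y.2 0 ^ 2 = 1
          linarith
        · show y.1 1 ^ 2 + y.2 1 ^ 2 = 1
          linarith
        · show y.1 2 ^ 2 + y.2 2 ^ 2 = 1
          linarith
      · rw [Fin.sum_univ_three]; exact e3
  · intro y hy
    exact sF_surj y hy.1 hy.2


end J_surf_sub

alias surf_sub := J_surf_sub.surf_sub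

end Pool.Agent.Helper10.NCP
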