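import Mathlib
import Pool.Agent.Helper10.NCP.J_no_conj
import Pool.Agent.Helper10.NCP.J_imm_on
import Pool.Agent.Helper10.NCP.J_has_param
import Pool.Agent.Helper10.NCP.J_tan_lin2
import Pool.Agent.Helper10.NCP.J_pr_main
import Pool.Agent.Helper10.NCP.J_loop_con
import Pool.Agent.Helper10.NCP.J_surf_cpt
import Pool.Agent.Helper10.NCP.J_surf_conn
import Pool.Agent.Helper10.NCP.J_surf_sub
import Pool.Agent.Helper10.NCP.J_surf_or
import Pool.Agent.Helper10.NCP.J_surf_betti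

open Set Filter Topology
open scoped RealInnerProductSpace ContDiff

noncomputable section

namespace Pool.Agent.Helper10.NCP

theorem surf_closed : IsClosedSurface surf := ⟨surf_cpt, surf_conn, surf_sub, surf_or⟩

theorem cov_smooth : ContDiff ℝ ∞ (cov : V × ℝ → V × (ℝ × ℝ)) := by
  unfold cov
  exact contDiff_fst.prodMk
    ((Real.contDiff_cos.comp (contDiff_const.mul contDiff_snd)).prodMk
      (Real.contDiff_sin.comp (contDiff_const.mul contDiff_snd)))

theorem not_product : ¬ IsRiemannianProduct surf (imm ∘ cov) := by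
  rintro ⟨g₁, Ψ, Φ, ⟨-, hg⟩, ⟨hΨ, hΦ, hΨM, hΦM, -, hΨΦ⟩, hm⟩
  obtain ⟨k₀, hk, h⟩ := pr_main (M := surf) has_param.1 surf_conn (fun x _ w hw => tan_lin2 hw)
    (g₁ := g₁) (fun p hp v hv h0 => (hg p hp v hv).2 h0) (F := cov ∘ Ψ) (cov_smooth.comp hΨ)
    (fun x hx => ⟨(hΨM hx).1, by
      show Real.cos _ ^ 2 + Real.sin _ ^ 2 = 1
      exact Real.cos_sq_add_sin_sq _⟩) hm
  exact loop_con hk hΨ hΦ hΦM hΨΦ h

end Pool.Agent.Helper10.NCP
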