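import Mathlib
import Pool.Agent.Helper10.NCP.Base
import Pool.Agent.Helper10.NCP.Base2

open Set Filter Topology
open scoped RealInnerProductSpace ContDiff

noncomputable section

namespace Pool.Agent.Helper10.NCP

namespace J_irr_unique


theorem irr_unique_aux {z : ℝ × ℝ} (hz : z ∈ circ) {s t : ℝ} (h1 : rot z s = rot z t) :
    ∃ k : ℤ, s - t = 2 * Real.pi * k := by
  have hz' : z.1 ^ 2 + z.2 ^ 2 = 1 := hz
  have ha : z.1 * Real.cos s - z.2 * Real.sin s = z.1 * Real.cos t - z.2 * Real.sin t :=
    congrArg Prod.fst h1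
  have hb : z.2 * Real.cos s + z.1 * Real.sin s = z.2 * Real.cos t + z.1 * Real.sin t :=
    congrArg Prod.snd h1
  have hc : Real.cos s = Real.cos t := by
    linear_combination z.1 * ha + z.2 * hb - (Real.cos s - Real.cos t) * hz'
  have hs : Real.sin s = Real.sin t := by
    linear_combination z.1 * hb - z.2 * ha - (Real.sin s - Real.sin t) * hz'
  exact Real.Angle.angle_eq_iff_two_pi_dvd_sub.1 (Real.Angle.cos_sin_inj hc hs)

-- TARGET: prove this (put auxiliary lemmas between the ASSUMED END line and the theorem)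

theorem irr_unique {z q : ℝ × ℝ} (hz : z ∈ circ) (hq : q ∈ circ) {s t : ℝ}
    (h1 : rot z s = rot z t) (h2 : rot q (-((2 - √2) * s)) = rot q (-((2 - √2) * t))) : s = t := by
  obtain ⟨k, hk⟩ := irr_unique_aux hz h1
  obtain ⟨l, hl⟩ := irr_unique_aux hq h2
  have hpi : (2 * Real.pi : ℝ) ≠ 0 := by positivity
  have e : (√2 - 2) * (k : ℝ) = l := by
    apply mul_left_cancel₀ hpi
    linear_combination (-(√2 - 2)) * hk + hl
  by_contra hst
  have hk0 : (k : ℝ) ≠ 0 := by
    intro h0
    rw [h0, mul_zero] at hk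
    exact hst (sub_eq_zero.1 hk)
  have h2' : √2 = ((l / k + 2 : ℚ) : ℝ) := by
    push_cast
    field_simp
    linarith
  exact irrational_sqrt_two ⟨_, h2'.symm⟩


end J_irr_unique

alias irr_unique := J_irr_unique.irr_unique

end Pool.Agent.Helper10.NCP
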