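import Mathlib
import Pool.Agent.Helper10.NCP.Base
import Pool.Agent.Helper10.NCP.Base2
import Pool.Agent.Helper10.NCP.J_fr_map

open Set Filter Topology
open scoped RealInnerProductSpace ContDiff

noncomputable section

namespace Pool.Agent.Helper10.NCP

namespace J_lift_eq


theorem lift_eq_aux (u v ψ : ℝ × ℝ → ℝ) (hu : Differentiable ℝ u) (hv : Differentiable ℝ v)
    (hψ : Differentiable ℝ ψ) (hsq : ∀ x, u x ^ 2 + v x ^ 2 = 1)
    (hA : ∀ x e, fderiv ℝ ψ x e = u x * fderiv ℝ v x e - v x * fderiv ℝ u x e)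
    (h0 : ψ 0 = 0) (x : ℝ × ℝ) : (u x, v x) = rot (u 0, v 0) (ψ x) := by
  have h1 : ∀ x e, u x * fderiv ℝ u x e + v x * fderiv ℝ v x e = 0 := by
    intro x e
    have e1 : HasFDerivAt (fun y => u y ^ 2 + v y ^ 2) _ x :=
      ((hu x).hasFDerivAt.pow 2).add ((hv x).hasFDerivAt.pow 2)
    have e2 : (fun y => u y ^ 2 + v y ^ 2) = fun _ => (1 : ℝ) := funext hsq
    rw [e2] at e1
    have e3 := e1.unique (hasFDerivAt_const (1 : ℝ) x)
    have e4 := congrArg (fun L : ℝ × ℝ →L[ℝ] ℝ => L e) e3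
    simp at e4
    linarith
  have hdv : ∀ x e, fderiv ℝ v x e = u x * fderiv ℝ ψ x e := by
    intro x e
    rw [hA]
    have := h1 x e
    have := hsq x
    linear_combination (-(fderiv ℝ v x e)) * hsq x + (v x) * h1 x e
  have hdu : ∀ x e, fderiv ℝ u x e = -(v x * fderiv ℝ ψ x e) := by
    intro x e
    rw [hA]
    linear_combination (-(fderiv ℝ u x e)) * hsq x + (u x) * h1 x e
  have hF : ∀ x, HasFDerivAt (fun y => u y * Real.cos (ψ y) + v y * Real.sin (ψ y))
      (0 : ℝ × ℝ →L[ℝ] ℝ) x := by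
    intro x
    have e1 := ((hu x).hasFDerivAt.mul (hψ x).hasFDerivAt.cos).add
      ((hv x).hasFDerivAt.mul (hψ x).hasFDerivAt.sin)
    refine HasFDerivAt.congr_fderiv e1 ?_
    apply ContinuousLinearMap.ext
    intro e
    have a1 := hdv x e
    have a2 := hdu x e
    simp only [_root_.add_apply, _root_.smul_apply, smul_eq_mul, _root_.zero_apply, a1, a2]
    ring
  have hG : ∀ x, HasFDerivAt (fun y => v y * Real.cos (ψ y) - u y * Real.sin (ψ y))
      (0 : ℝ × ℝ →L[ℝ] ℝ) x := by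
    intro x
    have e1 := ((hv x).hasFDerivAt.mul (hψ x).hasFDerivAt.cos).sub
      ((hu x).hasFDerivAt.mul (hψ x).hasFDerivAt.sin)
    refine HasFDerivAt.congr_fderiv e1 ?_
    apply ContinuousLinearMap.ext
    intro e
    have a1 := hdv x e
    have a2 := hdu x e
    simp only [_root_.add_apply, _root_.sub_apply, _root_.smul_apply, smul_eq_mul,
      _root_.zero_apply, a1, a2]
    ring
  have c1 := is_const_of_fderiv_eq_zero (𝕜 := ℝ) (fun y => (hF y).differentiableAt)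
    (fun y => (hF y).fderiv) x 0
  have c2 := is_const_of_fderiv_eq_zero (𝕜 := ℝ) (fun y => (hG y).differentiableAt)
    (fun y => (hG y).fderiv) x 0
  simp only [h0, Real.cos_zero, Real.sin_zero, mul_one, mul_zero, add_zero, sub_zero] at c1 c2
  unfold rot
  have hcs := Real.sin_sq_add_cos_sq (ψ x)
  apply Prod.ext
  · show u x = u 0 * Real.cos (ψ x) - v 0 * Real.sin (ψ x)
    rw [← c1, ← c2]
    linear_combination (-(u x)) * hcs
  · show v x = v 0 * Real.cos (ψ x) + u 0 * Real.sin (ψ x)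
    rw [← c1, ← c2]
    linear_combination (-(v x)) * hcs

-- TARGET: prove this (put auxiliary lemmas between the ASSUMED END line and the theorem)

theorem lift_eq (G : ℝ × ℝ → V × (ℝ × ℝ)) (hG : ContDiff ℝ ∞ G) (hM : ∀ x, G x ∈ surf ×ˢ circ)
    (hU : ∀ x e, ver (G x) (fderiv ℝ G x e) = 0) (θ : ℝ × ℝ → ℝ) (hθs : ContDiff ℝ ∞ θ)
    (hθ0 : θ 0 = 0) (hθ : ∀ x e, fderiv ℝ θ x e = ang 0 (G x) (fderiv ℝ G x e)) (x : ℝ × ℝ) :
    ((G x).1.1 0, (G x).1.2 0) = rot ((G 0).1.1 0, (G 0).1.2 0) (θ x) ∧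
    (G x).2 = rot (G 0).2 (-((2 - √2) * θ x)) := by
  have hθd : Differentiable ℝ θ := hθs.differentiable (by simp)
  have hGd : ∀ y, HasFDerivAt G (fderiv ℝ G y) y := fun y =>
    ((hG.differentiable (by simp)) y).hasFDerivAt
  have d1 : ∀ y, HasFDerivAt (fun y => (G y).1.1 0)
      ((ContinuousLinearMap.proj 0).comp ((ContinuousLinearMap.fst ℝ (Fin 3 → ℝ) (Fin 3 → ℝ)).comp
        ((ContinuousLinearMap.fst ℝ V (ℝ × ℝ)).comp (fderiv ℝ G y)))) y := fun y =>
    (ContinuousLinearMap.proj (R := ℝ) (φ := fun _ : Fin 3 => ℝ) 0).hasFDerivAt.comp y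
      ((hGd y).fst.fst)
  have d2 : ∀ y, HasFDerivAt (fun y => (G y).1.2 0)
      ((ContinuousLinearMap.proj 0).comp ((ContinuousLinearMap.snd ℝ (Fin 3 → ℝ) (Fin 3 → ℝ)).comp
        ((ContinuousLinearMap.fst ℝ V (ℝ × ℝ)).comp (fderiv ℝ G y)))) y := fun y =>
    (ContinuousLinearMap.proj (R := ℝ) (φ := fun _ : Fin 3 => ℝ) 0).hasFDerivAt.comp y
      ((hGd y).fst.snd)
  have d3 : ∀ y, HasFDerivAt (fun y => (G y).2.1)
      ((ContinuousLinearMap.fst ℝ ℝ ℝ).comp
        ((ContinuousLinearMap.snd ℝ V (ℝ × ℝ)).comp (fderiv ℝ G y))) y := fun y => (hGd y).snd.fst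
  have d4 : ∀ y, HasFDerivAt (fun y => (G y).2.2)
      ((ContinuousLinearMap.snd ℝ ℝ ℝ).comp
        ((ContinuousLinearMap.snd ℝ V (ℝ × ℝ)).comp (fderiv ℝ G y))) y := fun y => (hGd y).snd.snd
  constructor
  · apply lift_eq_aux (fun y => (G y).1.1 0) (fun y => (G y).1.2 0) θ
      (fun y => (d1 y).differentiableAt) (fun y => (d2 y).differentiableAt) hθd
      (fun y => (hM y).1.1 0) ?_ hθ0 x
    intro y e
    rw [hθ, (d1 y).fderiv, (d2 y).fderiv]
    rfl
  · have key := lift_eq_aux (fun y => (G y).2.1) (fun y => (G y).2.2)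
      (fun y => -((2 - √2) * θ y))
      (fun y => (d3 y).differentiableAt) (fun y => (d4 y).differentiableAt)
      ((hθd.const_mul _).neg) (fun y => (hM y).2) ?_ (by simp [hθ0]) x
    · exact key
    · intro y e
      have e1 : HasFDerivAt (fun y => -((2 - √2) * θ y)) (-((2 - √2) • fderiv ℝ θ y)) y :=
        ((hθd y).hasFDerivAt.const_mul (2 - √2)).neg
      rw [e1.fderiv, (d3 y).fderiv, (d4 y).fderiv]
      have h1 := hU y e
      unfold ver at h1
      have h2 : √(1 + √2) ≠ 0 := (Real.sqrt_pos.2 (by positivity)).ne'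
      have h3 := (mul_eq_zero.1 h1).resolve_left h2
      rw [← hθ] at h3
      show -((2 - √2) * fderiv ℝ θ y e) = (G y).2.1 * (fderiv ℝ G y e).2.2 -
        (G y).2.2 * (fderiv ℝ G y e).2.1
      linarith


end J_lift_eq

alias lift_eq := J_lift_eq.lift_eq

end Pool.Agent.Helper10.NCP
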