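import Mathlib
import Pool.Agent.Helper10.NCP.Base

open Set Filter Topology
open scoped RealInnerProductSpace ContDiff

noncomputable section

namespace Pool.Agent.Helper10.NCP

namespace J_primitive


-- TARGET: prove this (put auxiliary lemmas between the ASSUMED END line and the theorem)

theorem primitive (α : ℝ × ℝ → ℝ × ℝ → ℝ) (sm : ∀ e, ContDiff ℝ ∞ fun x => α x e)
    (add : ∀ x e e', α x (e + e') = α x e + α x e') (smul : ∀ x (r : ℝ) e, α x (r • e) = r * α x e)
    (cl : ∀ x e e', fderiv ℝ (fun y => α y e) x e' = fderiv ℝ (fun y => α y e') x e) :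
    ∃ θ : ℝ × ℝ → ℝ, ContDiff ℝ ∞ θ ∧ θ 0 = 0 ∧ ∀ x e, fderiv ℝ θ x e = α x e := by
  set W : ℝ × ℝ → (ℝ × ℝ →L[ℝ] ℝ) := fun x =>
    (α x (1, 0)) • ContinuousLinearMap.fst ℝ ℝ ℝ + (α x (0, 1)) • ContinuousLinearMap.snd ℝ ℝ ℝ
    with hW
  have hWe : ∀ x e, W x e = α x e := by
    intro x e
    have h1 : e = e.1 • ((1 : ℝ), (0 : ℝ)) + e.2 • ((0 : ℝ), (1 : ℝ)) := by
      ext <;> simp
    have h2 : α x e = e.1 * α x (1, 0) + e.2 * α x (0, 1) := by
      conv_lhs => rw [h1]
      rw [add, smul, smul]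
    rw [h2, hW]
    simp
    ring
  have hsm : ContDiff ℝ ∞ W := by
    rw [hW]
    exact ((sm (1, 0)).smul contDiff_const).add ((sm (0, 1)).smul contDiff_const)
  have hd : ∀ x, HasFDerivAt W (fderiv ℝ W x) x := fun x =>
    ((hsm.differentiable (by simp)) x).hasFDerivAt
  have hde : ∀ x u w, fderiv ℝ W x u w = fderiv ℝ (fun y => α y w) x u := by
    intro x u w
    have h1 : HasFDerivAt (fun y => W y w) ((fderiv ℝ W x).flip w) x := by
      have := (hd x).clm_apply (hasFDerivAt_const w x)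
      simpa using this
    have h2 : (fun y => W y w) = fun y => α y w := funext fun y => hWe y w
    rw [h2] at h1
    rw [h1.fderiv]
    rfl
  obtain ⟨f, hf⟩ := (convex_univ (𝕜 := ℝ) (E := ℝ × ℝ)
    ).exists_forall_hasFDerivWithinAt_of_hasFDerivWithinAt_symmetric
    (fun x _ => (hd x).hasFDerivWithinAt) (by
      intro x _ u _ w _
      rw [hde, hde]
      exact cl x w u)
  have hf' : ∀ x, HasFDerivAt f (W x) x := fun x => by
    have := hf x (Set.mem_univ x)
    rwa [hasFDerivWithinAt_univ] at this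
  have hθ : ∀ x, HasFDerivAt (fun y => f y - f 0) (W x) x := fun x => (hf' x).sub_const (f 0)
  refine ⟨fun y => f y - f 0, ?_, by simp, ?_⟩
  · rw [contDiff_infty_iff_fderiv]
    refine ⟨fun x => (hθ x).differentiableAt, ?_⟩
    have : fderiv ℝ (fun y => f y - f 0) = W := funext fun x => (hθ x).fderiv
    rw [this]
    exact hsm
  · intro x e
    rw [(hθ x).fderiv]
    exact hWe x e


end J_primitive

alias primitive := J_primitive.primitive

end Pool.Agent.Helper10.NCP
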