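import Mathlib
import Pool.Agent.Helper10.NCP.Base
import Pool.Agent.Helper10.NCP.Base2
import Pool.Agent.Helper10.NCP.J_fr_map
import Pool.Agent.Helper10.NCP.J_primitive
import Pool.Agent.Helper10.NCP.J_lift_eq
import Pool.Agent.Helper10.NCP.J_irr_unique

open Set Filter Topology
open scoped RealInnerProductSpace ContDiff

noncomputable section

namespace Pool.Agent.Helper10.NCP

namespace J_leaf_fn


-- TARGET: prove this (put auxiliary lemmas between the ASSUMED END line and the theorem)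

theorem leaf_rot_zero (z : ℝ × ℝ) : rot z 0 = z := by
  unfold rot; simp

theorem leaf_rot_add (z : ℝ × ℝ) (s t : ℝ) : rot (rot z s) t = rot z (s + t) := by
  unfold rot
  ext
  · simp only [Real.cos_add, Real.sin_add]; ring
  · simp only [Real.cos_add, Real.sin_add]; ring

/-- the relation -/
def LeafR {E : Type} (f : E → V × (ℝ × ℝ)) (p p' : E) : Prop :=
  ∃ t : ℝ, ((f p').1.1 0, (f p').1.2 0) = rot ((f p).1.1 0, (f p).1.2 0) t ∧
    (f p').2 = rot (f p).2 (-((2 - √2) * t))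

theorem leaf_symm {E : Type} (f : E → V × (ℝ × ℝ)) (p p' : E) (h : LeafR f p p') :
    LeafR f p' p := by
  obtain ⟨t, h1, h2⟩ := h
  refine ⟨-t, ?_, ?_⟩
  · rw [h1, leaf_rot_add, add_neg_cancel, leaf_rot_zero]
  · rw [h2, leaf_rot_add]
    rw [show -((2 - √2) * t) + -((2 - √2) * -t) = 0 by ring, leaf_rot_zero]

theorem leaf_trans {E : Type} (f : E → V × (ℝ × ℝ)) (p p' p'' : E) (h : LeafR f p p')
    (h' : LeafR f p' p'') : LeafR f p p'' := by
  obtain ⟨t, h1, h2⟩ := h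
  obtain ⟨s, h3, h4⟩ := h'
  refine ⟨t + s, ?_, ?_⟩
  · rw [h3, h1, leaf_rot_add]
  · rw [h4, h2, leaf_rot_add]
    congr 1
    ring

theorem leaf_tangent {E : Type} [NormedAddCommGroup E] [NormedSpace ℝ E] {M : Set E}
    {φ : ℝ × ℝ → E} (hφ : ContDiff ℝ ∞ φ) (hM : ∀ r, φ r ∈ M) (x e : ℝ × ℝ) :
    fderiv ℝ φ x e ∈ tangent M (φ x) := by
  refine ⟨fun s => φ (x + s • e), fun s => hM _, by simp, ?_⟩
  have h1 : HasFDerivAt φ (fderiv ℝ φ x) (x + (0 : ℝ) • e) := by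
    rw [zero_smul, add_zero]
    exact (hφ.differentiable (by simp)).differentiableAt.hasFDerivAt
  have h2 : HasDerivAt (fun s : ℝ => x + s • e) e 0 := by
    have := ((hasDerivAt_id (0 : ℝ)).smul_const e).const_add x
    simpa using this
  exact h1.comp_hasDerivAt 0 h2

theorem leaf_param {E : Type} [NormedAddCommGroup E] [NormedSpace ℝ E] {M : Set E}
    {f : E → V × (ℝ × ℝ)} (hf : ContDiff ℝ ∞ f)
    (hfM : MapsTo f M (surf ×ˢ circ))
    (hv : ∀ p ∈ M, ∀ v ∈ tangent M p, ver (f p) (fderiv ℝ f p v) = 0)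
    {φ : ℝ × ℝ → E} (hφ : ContDiff ℝ ∞ φ) (hM : ∀ r, φ r ∈ M) (x : ℝ × ℝ) :
    LeafR f (φ 0) (φ x) := by
  have hG : ContDiff ℝ ∞ (f ∘ φ) := hf.comp hφ
  have hGM : ∀ x, (f ∘ φ) x ∈ surf ×ˢ circ := fun x => hfM (hM x)
  have hU : ∀ x e, ver ((f ∘ φ) x) (fderiv ℝ (f ∘ φ) x e) = 0 := by
    intro x e
    rw [fderiv_comp x (hf.differentiable (by simp)).differentiableAt
      (hφ.differentiable (by simp)).differentiableAt]
    exact hv (φ x) (hM x) _ (leaf_tangent hφ hM x e)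
  have hF := fr_map (f ∘ φ) hG hGM
  obtain ⟨θ, hθs, hθ0, hθ⟩ := primitive (fun x e => ang 0 ((f ∘ φ) x) (fderiv ℝ (f ∘ φ) x e))
    (hF.sm_A 0) (hF.add_A 0) (hF.smul_A 0) (hF.cl_A 0)
  have h := lift_eq (f ∘ φ) hG hGM hU θ hθs hθ0 hθ x
  exact ⟨θ x, h.1, h.2⟩

theorem leaf_fn {E : Type} [NormedAddCommGroup E] [NormedSpace ℝ E] {M : Set E}
    (hcon : IsConnected M) (hp : HasParam2 M) {f : E → V × (ℝ × ℝ)} (hf : ContDiff ℝ ∞ f)
    (hfM : MapsTo f M (surf ×ˢ circ))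
    (hv : ∀ p ∈ M, ∀ v ∈ tangent M p, ver (f p) (fderiv ℝ f p v) = 0) :
    ∃ (z₀ q₀ : ℝ × ℝ) (Θ : E → ℝ), z₀ ∈ circ ∧ q₀ ∈ circ ∧
      ∀ p ∈ M, ((f p).1.1 0, (f p).1.2 0) = rot z₀ (Θ p) ∧
        (f p).2 = rot q₀ (-((2 - √2) * Θ p)) := by
  obtain ⟨p₀, hp₀⟩ := hcon.nonempty
  have hall : ∀ p ∈ M, LeafR f p₀ p := by
    intro p hpM
    refine IsPreconnected.induction₂ hcon.isPreconnected (LeafR f) ?_ ?_ ?_ hp₀ hpM
    · intro x hx
      obtain ⟨φ, hφ, hM, h0, -, -, hn⟩ := hp x hx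
      have h1 : ∀ᶠ y in Filter.map φ (𝓝 0), LeafR f x y := by
        rw [Filter.eventually_map]
        refine Filter.Eventually.of_forall fun y => ?_
        have h2 := leaf_param hf hfM hv hφ hM y
        rw [h0] at h2
        exact h2
      exact hn h1
    · intro x y z _ _ _ h1 h2
      exact leaf_trans f x y z h1 h2
    · intro x y _ _ h1
      exact leaf_symm f x y h1
  choose! Θ hΘ using hall
  refine ⟨((f p₀).1.1 0, (f p₀).1.2 0), (f p₀).2, Θ, ?_, ?_, ?_⟩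
  · exact (hfM hp₀).1.1 0
  · exact (hfM hp₀).2
  · intro p hpM
    exact hΘ p hpM


end J_leaf_fn

alias leaf_fn := J_leaf_fn.leaf_fn

end Pool.Agent.Helper10.NCP
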