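import Mathlib
import Pool.Agent.Helper10.NCP.Base
import Pool.Agent.Helper10.NCP.Base2
import Pool.Agent.Helper10.NCP.J_fr_map
import Pool.Agent.Helper10.NCP.J_lift_eq
import Pool.Agent.Helper10.NCP.J_irr_unique

open Set Filter Topology
open scoped RealInnerProductSpace ContDiff

noncomputable section

namespace Pool.Agent.Helper10.NCP

namespace J_leaf_loc


-- TARGET: prove this (put auxiliary lemmas between the ASSUMED END line and the theorem)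

theorem leaf_loc_rot (z : ℝ × ℝ) (s t : ℝ) : rot (rot z s) t = rot z (s + t) := by
  unfold rot
  ext
  · simp only [Real.cos_add, Real.sin_add]; ring
  · simp only [Real.cos_add, Real.sin_add]; ring

theorem leaf_loc {E : Type} [NormedAddCommGroup E] [NormedSpace ℝ E] {M : Set E}
    {f : E → V × (ℝ × ℝ)} (hf : ContDiff ℝ ∞ f) (hfM : MapsTo f M (surf ×ˢ circ))
    (hv : ∀ p ∈ M, ∀ v ∈ tangent M p, ver (f p) (fderiv ℝ f p v) = 0)
    {z₀ q₀ : ℝ × ℝ} {Θ : E → ℝ} (hz : z₀ ∈ circ) (hq : q₀ ∈ circ)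
    (hΘ : ∀ p ∈ M, ((f p).1.1 0, (f p).1.2 0) = rot z₀ (Θ p) ∧
      (f p).2 = rot q₀ (-((2 - √2) * Θ p)))
    {φ : ℝ × ℝ → E} (hφ : ContDiff ℝ ∞ φ) (hφM : ∀ r, φ r ∈ M)
    {θ : ℝ × ℝ → ℝ} (hθs : ContDiff ℝ ∞ θ) (hθ0 : θ 0 = 0)
    (hθ : ∀ x e, fderiv ℝ θ x e = ang 0 (f (φ x)) (fderiv ℝ (f ∘ φ) x e)) (r : ℝ × ℝ) :
    Θ (φ r) = Θ (φ 0) + θ r := by
  have hfd : Differentiable ℝ f := hf.differentiable (by simp)
  have hφd : Differentiable ℝ φ := hφ.differentiable (by simp)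
  have htan : ∀ x e, fderiv ℝ φ x e ∈ tangent M (φ x) := by
    intro x e
    refine ⟨fun s => φ (x + s • e), fun s => hφM _, by simp, ?_⟩
    have h1 : HasDerivAt (fun s : ℝ => x + s • e) e 0 := by
      simpa using ((hasDerivAt_id (0 : ℝ)).smul_const e).const_add x
    have h2 : HasFDerivAt φ (fderiv ℝ φ x) (x + (0 : ℝ) • e) := by
      simpa using (hφd x).hasFDerivAt
    exact h2.comp_hasDerivAt (0 : ℝ) h1
  have hU : ∀ x e, ver ((f ∘ φ) x) (fderiv ℝ (f ∘ φ) x e) = 0 := by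
    intro x e
    rw [fderiv_comp x (hfd _) (hφd x)]
    exact hv _ (hφM x) _ (htan x e)
  obtain ⟨k1, k2⟩ := lift_eq (f ∘ φ) (hf.comp hφ) (fun x => hfM (hφM x)) hU θ hθs hθ0
    (fun x e => hθ x e) r
  obtain ⟨a1, a2⟩ := hΘ _ (hφM r)
  obtain ⟨b1, b2⟩ := hΘ _ (hφM 0)
  simp only [Function.comp_apply] at k1 k2
  rw [a1, b1, leaf_loc_rot] at k1
  rw [a2, b2, leaf_loc_rot] at k2
  refine irr_unique hz hq k1 ?_
  rw [k2]
  congr 1
  ring


end J_leaf_loc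

alias leaf_loc := J_leaf_loc.leaf_loc

end Pool.Agent.Helper10.NCP
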