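import Mathlib
import Pool.Agent.Helper10.NCP.Base
import Pool.Agent.Helper10.NCP.J_den_pos

open Set Filter Topology
open scoped RealInnerProductSpace ContDiff

noncomputable section

namespace Pool.Agent.Helper10.NCP

namespace J_nomax


-- TARGET: prove this (put auxiliary lemmas between the ASSUMED END line and the theorem)

theorem nomax {a b : Fin 3 → ℝ × ℝ → ℝ} {A : Fin 3 → ℝ × ℝ → ℝ × ℝ → ℝ} {U : ℝ × ℝ → ℝ × ℝ → ℝ}
    (h : Frame a b A U) (inj : ∀ e, (∀ k, A k 0 e = 0) → e = 0) {θ : ℝ × ℝ → ℝ}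
    (hθs : ContDiff ℝ ∞ θ) (hθ : ∀ x e, fderiv ℝ θ x e = A 0 x e) : ¬ IsLocalMax θ 0 := by
  intro hmax
  have hA0 : ∀ e, A 0 0 e = 0 := by
    intro e
    rw [← hθ, hmax.fderiv_eq_zero]
    rfl
  let L : (ℝ × ℝ) →ₗ[ℝ] (ℝ × ℝ) :=
    { toFun := fun e => (A 1 0 e, A 2 0 e)
      map_add' := by
        intro e e'
        rw [h.add_A, h.add_A]
        rfl
      map_smul' := by
        intro r e
        rw [h.smul_A, h.smul_A]
        rfl }
  have hLi : Function.Injective L := by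
    rw [injective_iff_map_eq_zero]
    intro e he
    have h1 : A 1 0 e = 0 := congrArg Prod.fst he
    have h2 : A 2 0 e = 0 := congrArg Prod.snd he
    apply inj
    intro k
    fin_cases k
    · exact hA0 e
    · exact h1
    · exact h2
  have hLs : Function.Surjective L := LinearMap.injective_iff_surjective.1 hLi
  obtain ⟨e1, he1⟩ := hLs (1, 0)
  obtain ⟨e2, he2⟩ := hLs (0, 1)
  have he11 : A 1 0 e1 = 1 := congrArg Prod.fst he1
  have he12 : A 2 0 e1 = 0 := congrArg Prod.snd he1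
  have he21 : A 1 0 e2 = 0 := congrArg Prod.fst he2
  have he22 : A 2 0 e2 = 1 := congrArg Prod.snd he2
  have hb1 : b 1 0 = 0 := by
    have := h.orth 0 e1
    rw [Fin.sum_univ_three, hA0, he11, he12] at this
    linarith
  have hb2 : b 2 0 = 0 := by
    have := h.orth 0 e2
    rw [Fin.sum_univ_three, hA0, he21, he22] at this
    linarith
  have hs0 := h.sq 0 0
  have hs1 := h.sq 1 0
  have hs2 := h.sq 2 0
  rw [hb1] at hs1
  rw [hb2] at hs2
  have hsum := h.sum 0
  rw [Fin.sum_univ_three] at hsum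
  have ha1 : a 1 0 = 1 ∨ a 1 0 = -1 := by
    apply mul_self_eq_one_iff.1; nlinarith
  have ha2 : a 2 0 = 1 ∨ a 2 0 = -1 := by
    apply mul_self_eq_one_iff.1; nlinarith
  have ha12 : a 2 0 = - a 1 0 := by
    rcases ha1 with h1 | h1 <;> rcases ha2 with h2 | h2 <;> rw [h1, h2] at hsum ⊢ <;> nlinarith [sq_nonneg (b 0 0)]
  have ha0 : a 0 0 = 0 := by rw [ha12] at hsum; linarith
  have hb0 : b 0 0 ^ 2 = 1 := by rw [ha0] at hs0; linarith
  have hdA : ∀ k e, DifferentiableAt ℝ (fun y => A k y e) 0 := fun k e =>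
    (h.sm_A k e).contDiffAt.differentiableAt (by simp)
  have hdb : ∀ k, DifferentiableAt ℝ (b k) 0 := fun k =>
    (h.sm_b k).contDiffAt.differentiableAt (by simp)
  have hkey : ∀ e, a 1 0 * (A 1 0 e ^ 2 - A 2 0 e ^ 2) +
      b 0 0 * fderiv ℝ (fun y => A 0 y e) 0 e = 0 := by
    intro e
    have h1 : ∀ k, HasFDerivAt (fun y => b k y * A k y e)
        (b k 0 • fderiv ℝ (fun y => A k y e) 0 + A k 0 e • fderiv ℝ (b k) 0) 0 := fun k =>
      (hdb k).hasFDerivAt.mul (hdA k e).hasFDerivAt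
    have h2 : HasFDerivAt (fun y => ∑ k, b k y * A k y e)
        (∑ k, (b k 0 • fderiv ℝ (fun y => A k y e) 0 + A k 0 e • fderiv ℝ (b k) 0)) 0 :=
      HasFDerivAt.fun_sum fun k _ => h1 k
    have h3 : (fun y => ∑ k, b k y * A k y e) = fun _ => (0 : ℝ) := by
      funext y
      exact h.orth y e
    rw [h3] at h2
    have h4 := h2.unique (hasFDerivAt_const (0 : ℝ) (0 : ℝ × ℝ))
    have h5 := DFunLike.congr_fun h4 e
    rw [Fin.sum_univ_three] at h5
    simp only [add_apply, smul_apply, smul_eq_mul, h.db, hA0, hb1, hb2, ha12] at h5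
    have h6 : (0 : (ℝ × ℝ) →L[ℝ] ℝ) e = 0 := rfl
    rw [h6] at h5
    linarith
  obtain ⟨e, he⟩ : ∃ e, 0 < fderiv ℝ (fun y => A 0 y e) 0 e := by
    have k1 := hkey e1
    have k2 := hkey e2
    rw [he11, he12] at k1
    rw [he21, he22] at k2
    rcases ha1 with h1 | h1 <;> rcases mul_self_eq_one_iff.1 (show b 0 0 * b 0 0 = 1 by nlinarith) with h2 | h2 <;>
      rw [h1, h2] at k1 k2
    · exact ⟨e2, by linarith⟩
    · exact ⟨e1, by linarith⟩
    · exact ⟨e1, by linarith⟩
    · exact ⟨e2, by linarith⟩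
  have hdθ : ∀ x, DifferentiableAt ℝ θ x := fun x => hθs.contDiffAt.differentiableAt (by simp)
  have hline : ∀ s : ℝ, HasDerivAt (fun s : ℝ => s • e) e s := by
    intro s
    have := (hasDerivAt_id s).smul_const e
    simpa using this
  have hg : ∀ s : ℝ, HasDerivAt (fun s : ℝ => θ (s • e)) (A 0 (s • e) e) s := by
    intro s
    have h1 := (hdθ (s • e)).hasFDerivAt.comp_hasDerivAt s (hline s)
    rw [hθ] at h1
    exact h1
  have hdg : deriv (fun s : ℝ => θ (s • e)) = fun s => A 0 (s • e) e := by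
    funext s
    exact (hg s).deriv
  have hddg : deriv (deriv (fun s : ℝ => θ (s • e))) 0 = fderiv ℝ (fun y => A 0 y e) 0 e := by
    rw [hdg]
    have h1 : HasFDerivAt (fun y => A 0 y e) (fderiv ℝ (fun y => A 0 y e) 0) ((0 : ℝ) • e) := by
      rw [zero_smul]
      exact (hdA 0 e).hasFDerivAt
    exact (h1.comp_hasDerivAt (0 : ℝ) (hline 0)).deriv
  have hlmin : IsLocalMin (fun s : ℝ => θ (s • e)) 0 := by
    apply isLocalMin_of_deriv_deriv_pos
    · rw [hddg]; exact he
    · rw [hdg]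
      simp only [zero_smul]
      exact hA0 e
    · exact (hg 0).continuousAt
  have htend : Tendsto (fun s : ℝ => s • e) (𝓝 0) (𝓝 (0 : ℝ × ℝ)) := by
    have := (hline 0).continuousAt.tendsto
    simpa using this
  have hmax' : ∀ᶠ s : ℝ in 𝓝 0, θ (s • e) ≤ θ 0 := htend.eventually hmax
  have hconst : (fun s : ℝ => θ (s • e)) =ᶠ[𝓝 0] fun _ => θ 0 := by
    filter_upwards [hmax', hlmin] with s hs1 hs2
    simp only [zero_smul] at hs2
    exact le_antisymm hs1 hs2
  have hz : deriv (deriv (fun s : ℝ => θ (s • e))) 0 = 0 := by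
    rw [hconst.deriv.deriv_eq]
    simp
  rw [hddg] at hz
  linarith


end J_nomax

alias nomax := J_nomax.nomax

end Pool.Agent.Helper10.NCP
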