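import Mathlib
import Pool.Agent.Helper10.NCP.Base
import Pool.Agent.Helper10.NCP.Base2
import Pool.Agent.Helper10.NCP.J_fr_map
import Pool.Agent.Helper10.NCP.J_primitive
import Pool.Agent.Helper10.NCP.J_irr_unique
import Pool.Agent.Helper10.NCP.J_nomax
import Pool.Agent.Helper10.NCP.J_leaf_fn
import Pool.Agent.Helper10.NCP.J_leaf_loc

open Set Filter Topology
open scoped RealInnerProductSpace ContDiff

noncomputable section

namespace Pool.Agent.Helper10.NCP

namespace J_leaf_contra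


-- TARGET: prove this (put auxiliary lemmas between the ASSUMED END line and the theorem)

theorem leaf_contra {E : Type} [NormedAddCommGroup E] [NormedSpace ℝ E] {M : Set E}
    (hcpt : IsCompact M) (hcon : IsConnected M) (hp : HasParam2 M) {f : E → V × (ℝ × ℝ)}
    (hf : ContDiff ℝ ∞ f) (hfM : MapsTo f M (surf ×ˢ circ))
    (hv : ∀ p ∈ M, ∀ v ∈ tangent M p, ver (f p) (fderiv ℝ f p v) = 0)
    (hi : ∀ p ∈ M, ∀ v ∈ tangent M p, (∀ k, ang k (f p) (fderiv ℝ f p v) = 0) → v = 0) : False := by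
  obtain ⟨z₀, q₀, Θ, hz, hq, hΘ⟩ := leaf_fn hcon hp hf hfM hv
  have hcont : ContinuousOn Θ M := by
    intro p hpM
    obtain ⟨φ, hφ, hφM, hφ0, himm, htan, hnhd⟩ := hp p hpM
    have F := fr_map (f ∘ φ) (hf.comp hφ) (fun x => hfM (hφM x))
    obtain ⟨θ, hθs, hθ0, hθ⟩ := primitive
      (fun x e => ang 0 ((f ∘ φ) x) (fderiv ℝ (f ∘ φ) x e)) (F.sm_A 0) (F.add_A 0) (F.smul_A 0)
      (F.cl_A 0)
    have hloc := leaf_loc hf hfM hv hz hq hΘ hφ hφM hθs hθ0 hθ
    have h1 : Tendsto (fun r => Θ (φ r)) (𝓝 0) (𝓝 (Θ p)) := by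
      have h2 : (fun r => Θ (φ r)) = fun r => Θ p + θ r := by
        funext r
        rw [hloc r, hφ0]
      rw [h2]
      have h3 : Tendsto (fun r => Θ p + θ r) (𝓝 0) (𝓝 (Θ p + θ 0)) :=
        (continuous_const.add hθs.continuous).tendsto 0
      rwa [hθ0, add_zero] at h3
    exact Tendsto.mono_left (tendsto_map'_iff.2 h1) hnhd
  obtain ⟨p, hpM, hmax⟩ := hcpt.exists_isMaxOn hcon.nonempty hcont
  obtain ⟨φ, hφ, hφM, hφ0, himm, htan, hnhd⟩ := hp p hpM
  have F := fr_map (f ∘ φ) (hf.comp hφ) (fun x => hfM (hφM x))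
  obtain ⟨θ, hθs, hθ0, hθ⟩ := primitive
    (fun x e => ang 0 ((f ∘ φ) x) (fderiv ℝ (f ∘ φ) x e)) (F.sm_A 0) (F.add_A 0) (F.smul_A 0)
    (F.cl_A 0)
  have hloc := leaf_loc hf hfM hv hz hq hΘ hφ hφM hθs hθ0 hθ
  refine nomax F ?_ hθs hθ ?_
  · intro e he
    have hdφ : DifferentiableAt ℝ φ 0 := (hφ.differentiable (by simp)).differentiableAt
    have hdf : DifferentiableAt ℝ f (φ 0) := (hf.differentiable (by simp)).differentiableAt
    have hchain : fderiv ℝ (f ∘ φ) 0 e = fderiv ℝ f (φ 0) (fderiv ℝ φ 0 e) := by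
      rw [fderiv_comp 0 hdf hdφ]
      rfl
    refine himm 0 e (hi (φ 0) (hφM 0) _ ?_ ?_)
    · refine ⟨fun s => φ (s • e), fun s => hφM _, by simp, ?_⟩
      have h1 : HasDerivAt (fun s : ℝ => s • e) e 0 := by
        simpa using (hasDerivAt_id (0:ℝ)).smul_const e
      have h2 : HasFDerivAt φ (fderiv ℝ φ 0) ((fun s : ℝ => s • e) 0) := by
        simpa using hdφ.hasFDerivAt
      exact h2.comp_hasDerivAt 0 h1
    · intro k
      have := he k
      simp only [hchain, Function.comp_apply] at this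
      exact this
  · refine Filter.Eventually.of_forall fun r => ?_
    have h1 : Θ (φ r) ≤ Θ p := hmax (hφM r)
    have h2 := hloc r
    rw [hφ0] at h2
    rw [hθ0]
    linarith


end J_leaf_contra

alias leaf_contra := J_leaf_contra.leaf_contra

end Pool.Agent.Helper10.NCP
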