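import Mathlib
import Pool.Agent.Helper10.NCP.Base
import Pool.Agent.Helper10.NCP.Base2

open Set Filter Topology
open scoped RealInnerProductSpace ContDiff

noncomputable section

namespace Pool.Agent.Helper10.NCP

namespace J_sub_param


-- TARGET: prove this (put auxiliary lemmas between the ASSUMED END line and the theorem)

section sub_param_aux

variable {E : Type} [NormedAddCommGroup E] [NormedSpace ℝ E] [FiniteDimensional ℝ E]

/-- a projection which complements a surjective map -/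
theorem sub_param_compl {m : ℕ} (hm : m + 2 = Module.finrank ℝ E)
    (f' : E →L[ℝ] EuclideanSpace ℝ (Fin m)) (hf' : Function.Surjective f') :
    ∃ (π : E →L[ℝ] ℝ × ℝ) (g' : E ≃L[ℝ] EuclideanSpace ℝ (Fin m) × (ℝ × ℝ)),
      (g' : E →L[ℝ] EuclideanSpace ℝ (Fin m) × (ℝ × ℝ)) = f'.prod π := by
  set K := LinearMap.ker (f' : E →ₗ[ℝ] EuclideanSpace ℝ (Fin m)) with hK
  have hr : Module.finrank ℝ (LinearMap.range (f' : E →ₗ[ℝ] EuclideanSpace ℝ (Fin m))) = m := by
    rw [LinearMap.range_eq_top.2 hf', finrank_top, finrank_euclideanSpace, Fintype.card_fin]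
  have hk : Module.finrank ℝ K = 2 := by
    have h := LinearMap.finrank_range_add_finrank_ker (f' : E →ₗ[ℝ] EuclideanSpace ℝ (Fin m))
    rw [hr, ← hK] at h
    have h' : m + Module.finrank ℝ K = m + 2 := h.trans hm.symm
    omega
  have h2 : Module.finrank ℝ (ℝ × ℝ) = 2 := by simp
  let e0 : K ≃ₗ[ℝ] ℝ × ℝ := LinearEquiv.ofFinrankEq K (ℝ × ℝ) (hk.trans h2.symm)
  obtain ⟨π0, hπ0⟩ := LinearMap.exists_extend (e0 : K →ₗ[ℝ] ℝ × ℝ)
  let π : E →L[ℝ] ℝ × ℝ := LinearMap.toContinuousLinearMap π0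
  have hπ : ∀ v (hv : v ∈ K), π v = e0 ⟨v, hv⟩ := by
    intro v hv
    have := LinearMap.congr_fun hπ0 ⟨v, hv⟩
    exact this
  have hinj : Function.Injective (f'.prod π) := by
    rw [injective_iff_map_eq_zero]
    intro v hv
    have h3 : f' v = 0 := congrArg Prod.fst hv
    have h4 : π v = 0 := congrArg Prod.snd hv
    have hvK : v ∈ K := h3
    rw [hπ v hvK] at h4
    have h5 := (LinearEquiv.map_eq_zero_iff e0).1 h4
    exact congrArg Subtype.val h5
  have hdim : Module.finrank ℝ E = Module.finrank ℝ (EuclideanSpace ℝ (Fin m) × (ℝ × ℝ)) := by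
    rw [Module.finrank_prod, finrank_euclideanSpace, Fintype.card_fin, h2, hm]
  let g0 : E ≃ₗ[ℝ] EuclideanSpace ℝ (Fin m) × (ℝ × ℝ) :=
    LinearEquiv.ofInjectiveOfFinrankEq ((f'.prod π : E →L[ℝ] _) : E →ₗ[ℝ] _) hinj hdim
  refine ⟨π, g0.toContinuousLinearEquiv, ?_⟩
  ext v
  · rfl
  · rfl
  · rfl

end sub_param_aux

theorem sub_param {E : Type} [NormedAddCommGroup E] [NormedSpace ℝ E] [FiniteDimensional ℝ E]
    {M : Set E} (hM : IsSubmanifold M 2) : HasParam2 M := by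
  intro p hp
  obtain ⟨m, U, f, hm, hU, hpU, hf, hz, hsurj⟩ := hM p hp
  obtain ⟨π, g', hg'⟩ := sub_param_compl hm (fderiv ℝ f p) (hsurj p hpU)
  have hfat : ∀ y ∈ U, ContDiffAt ℝ ∞ f y := fun y hy => hf.contDiffAt (hU.mem_nhds hy)
  have hfd : ∀ y ∈ U, HasFDerivAt f (fderiv ℝ f y) y := fun y hy =>
    ((hfat y hy).differentiableAt (by simp)).hasFDerivAt
  let g : E → EuclideanSpace ℝ (Fin m) × (ℝ × ℝ) := fun x => (f x, π (x - p))
  have hgat : ∀ y ∈ U, ContDiffAt ℝ ∞ g y := fun y hy =>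
    (hfat y hy).prodMk (π.contDiff.comp (contDiff_id.sub contDiff_const)).contDiffAt
  have hgd : ∀ y ∈ U, HasFDerivAt g ((fderiv ℝ f y).prod π) y := by
    intro y hy
    have h1 : HasFDerivAt (fun x => π (x - p)) π y :=
      π.hasFDerivAt.comp y ((hasFDerivAt_id y).sub_const p)
    exact (hfd y hy).prodMk h1
  have hgp : HasFDerivAt g (g' : E →L[ℝ] EuclideanSpace ℝ (Fin m) × (ℝ × ℝ)) p := by
    rw [hg']
    exact hgd p hpU
  have hfp : f p = 0 := (hz p hpU).1 hp
  have hgp0 : g p = 0 := by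
    show (f p, π (p - p)) = 0
    rw [hfp, sub_self, map_zero]
    rfl
  let e : OpenPartialHomeomorph E (EuclideanSpace ℝ (Fin m) × (ℝ × ℝ)) :=
    (hgat p hpU).toOpenPartialHomeomorph g hgp (by simp)
  have he : ∀ x, e x = g x := fun x => rfl
  have hpe : p ∈ e.source := (hgat p hpU).mem_toOpenPartialHomeomorph_source hgp (by simp)
  -- good points
  have hcont : ContinuousAt (fun y => (fderiv ℝ f y).prod π) p := by
    have h1 : ContinuousAt (fderiv ℝ f) p :=
      ((hfat p hpU).fderiv_right (m := 0) (by simp)).continuousAt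
    exact ((ContinuousLinearMap.prodₗᵢ ℝ (E := E) (F := EuclideanSpace ℝ (Fin m)) (G := ℝ × ℝ)
      (𝕜 := ℝ)).continuous.continuousAt).comp (h1.prodMk continuousAt_const)
  have hinv : ∀ᶠ y in 𝓝 p, (fderiv ℝ f y).prod π ∈
      Set.range ((↑) : (E ≃L[ℝ] EuclideanSpace ℝ (Fin m) × (ℝ × ℝ)) →
        (E →L[ℝ] EuclideanSpace ℝ (Fin m) × (ℝ × ℝ))) := by
    apply hcont
    show _ ∈ 𝓝 ((fderiv ℝ f p).prod π)
    rw [← hg']
    exact ContinuousLinearEquiv.nhds g'
  have hS : ∀ᶠ y in 𝓝 p, y ∈ U ∧ (fderiv ℝ f y).prod π ∈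
      Set.range ((↑) : (E ≃L[ℝ] EuclideanSpace ℝ (Fin m) × (ℝ × ℝ)) →
        (E →L[ℝ] EuclideanSpace ℝ (Fin m) × (ℝ × ℝ))) := (hU.eventually_mem hpU).and hinv
  have h0t : (0 : EuclideanSpace ℝ (Fin m) × (ℝ × ℝ)) ∈ e.target := by
    rw [← hgp0, ← he]
    exact e.map_source hpe
  have hs0 : e.symm 0 = p := by
    rw [← hgp0, ← he]
    exact e.left_inv hpe
  have hsc : ContinuousAt e.symm 0 := e.symm.continuousAt h0t
  have hS' : ∀ᶠ a in 𝓝 (0 : EuclideanSpace ℝ (Fin m) × (ℝ × ℝ)), a ∈ e.target ∧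
      e.symm a ∈ U ∧ (fderiv ℝ f (e.symm a)).prod π ∈
      Set.range ((↑) : (E ≃L[ℝ] EuclideanSpace ℝ (Fin m) × (ℝ × ℝ)) →
        (E →L[ℝ] EuclideanSpace ℝ (Fin m) × (ℝ × ℝ))) := by
    refine (e.open_target.eventually_mem h0t).and ?_
    have h1 : Tendsto e.symm (𝓝 0) (𝓝 p) := by
      have := hsc.tendsto
      rwa [hs0] at this
    exact h1.eventually hS
  obtain ⟨δ, hδ, hball⟩ := Metric.eventually_nhds_iff_ball.1 hS'
  set ε : ℝ := δ / 2 with hε
  have hε0 : 0 < ε := by positivity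
  let A : ℝ × ℝ → EuclideanSpace ℝ (Fin m) × (ℝ × ℝ) :=
    fun r => (0, (ε * Real.arctan r.1, ε * Real.arctan r.2))
  have hAball : ∀ r, A r ∈ Metric.ball (0 : EuclideanSpace ℝ (Fin m) × (ℝ × ℝ)) δ := by
    intro r
    have hb : ∀ t : ℝ, ‖ε * Real.arctan t‖ < δ := by
      intro t
      rw [norm_mul, Real.norm_of_nonneg hε0.le, Real.norm_eq_abs]
      have h1 : |Real.arctan t| < 2 := by
        rw [abs_lt]
        have h2 := Real.neg_pi_div_two_lt_arctan t
        have h3 := Real.arctan_lt_pi_div_two t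
        have h4 := Real.pi_lt_four
        constructor <;> linarith
      calc ε * |Real.arctan t| < ε * 2 := mul_lt_mul_of_pos_left h1 hε0
        _ = δ := by rw [hε]; ring
    rw [mem_ball_zero_iff]
    show max ‖(0 : EuclideanSpace ℝ (Fin m))‖ (max ‖ε * Real.arctan r.1‖ ‖ε * Real.arctan r.2‖) < δ
    rw [norm_zero]
    exact max_lt hδ (max_lt (hb _) (hb _))
  have hgood := fun r => hball (A r) (hAball r)
  have hAs : ContDiff ℝ ∞ A := by
    apply contDiff_const.prodMk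
    apply ContDiff.prodMk
    · exact contDiff_const.mul (Real.contDiff_arctan.comp contDiff_fst)
    · exact contDiff_const.mul (Real.contDiff_arctan.comp contDiff_snd)
  have hsymm : ∀ r, ContDiffAt ℝ ∞ e.symm (A r) := by
    intro r
    obtain ⟨h1, h2, q, hq⟩ := hgood r
    refine e.contDiffAt_symm (f₀' := q) h1 ?_ (hgat _ h2)
    rw [hq]
    exact hgd _ h2
  let φ : ℝ × ℝ → E := fun r => e.symm (A r)
  have hφs : ContDiff ℝ ∞ φ := by
    rw [contDiff_iff_contDiffAt]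
    intro r
    exact (hsymm r).comp r hAs.contDiffAt
  have hφU : ∀ r, φ r ∈ U := fun r => (hgood r).2.1
  have hgφ : ∀ r, g (φ r) = A r := fun r => e.right_inv (hgood r).1
  have hfφ : ∀ r, f (φ r) = 0 := fun r => congrArg Prod.fst (hgφ r)
  have hπφ : ∀ r, π (φ r - p) = (ε * Real.arctan r.1, ε * Real.arctan r.2) :=
    fun r => congrArg Prod.snd (hgφ r)
  -- derivative of A
  let A' : ℝ × ℝ → (ℝ × ℝ) → EuclideanSpace ℝ (Fin m) × (ℝ × ℝ) := fun r u =>
    (0, (ε * (1 / (1 + r.1 ^ 2) * u.1), ε * (1 / (1 + r.2 ^ 2) * u.2)))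
  have hA' : ∀ r u, fderiv ℝ A r u = A' r u := by
    intro r u
    have h1 : HasFDerivAt (fun r : ℝ × ℝ => ε * Real.arctan r.1)
        (ε • ((1 / (1 + r.1 ^ 2)) • ContinuousLinearMap.fst ℝ ℝ ℝ)) r :=
      ((hasFDerivAt_fst (𝕜 := ℝ) (E := ℝ) (F := ℝ) (p := r)).arctan).const_mul ε
    have h2 : HasFDerivAt (fun r : ℝ × ℝ => ε * Real.arctan r.2)
        (ε • ((1 / (1 + r.2 ^ 2)) • ContinuousLinearMap.snd ℝ ℝ ℝ)) r :=
      ((hasFDerivAt_snd (𝕜 := ℝ) (E := ℝ) (F := ℝ) (p := r)).arctan).const_mul ε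
    have h3 : HasFDerivAt A _ r := (hasFDerivAt_const (0 : EuclideanSpace ℝ (Fin m)) r).prodMk
      (h1.prodMk h2)
    rw [h3.fderiv]
    rfl
  have hchain : ∀ r u, ((fderiv ℝ f (φ r)).prod π) (fderiv ℝ φ r u) = A' r u := by
    intro r u
    have h1 : HasFDerivAt φ (fderiv ℝ φ r) r := ((hφs.differentiable (by simp)) r).hasFDerivAt
    have h2 := (hgd (φ r) (hφU r)).comp r h1
    have h3 : (g ∘ φ) = A := funext hgφ
    rw [h3] at h2
    rw [← hA', h2.fderiv]
    rfl
  refine ⟨φ, hφs, fun r => (hz _ (hφU r)).2 (hfφ r), ?_, ?_, ?_, ?_⟩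
  · show e.symm (A 0) = p
    have : A 0 = 0 := by
      show ((0 : EuclideanSpace ℝ (Fin m)), (ε * Real.arctan (0 : ℝ), ε * Real.arctan (0 : ℝ))) = 0
      rw [Real.arctan_zero, mul_zero]
      rfl
    rw [this, hs0]
  · intro r u hu
    have h1 := hchain r u
    rw [hu, map_zero] at h1
    have h2 : ε * (1 / (1 + r.1 ^ 2) * u.1) = 0 := (congrArg (fun q => q.2.1) h1).symm
    have h3 : ε * (1 / (1 + r.2 ^ 2) * u.2) = 0 := (congrArg (fun q => q.2.2) h1).symm
    have p1 : (1 : ℝ) / (1 + r.1 ^ 2) ≠ 0 := by positivity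
    have p2 : (1 : ℝ) / (1 + r.2 ^ 2) ≠ 0 := by positivity
    ext
    · exact (mul_eq_zero.1 ((mul_eq_zero.1 h2).resolve_left hε0.ne')).resolve_left p1
    · exact (mul_eq_zero.1 ((mul_eq_zero.1 h3).resolve_left hε0.ne')).resolve_left p2
  · intro r v hv
    obtain ⟨c, hc1, hc2, hc3⟩ := hv
    have hfv : fderiv ℝ f (φ r) v = 0 := by
      have h1 : HasFDerivAt f (fderiv ℝ f (φ r)) (c 0) := by
        rw [hc2]
        exact hfd _ (hφU r)
      have h2 : HasDerivAt (f ∘ c) (fderiv ℝ f (φ r) v) 0 := h1.comp_hasDerivAt (0 : ℝ) hc3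
      have h3 : (f ∘ c) =ᶠ[𝓝 0] fun _ => 0 := by
        have h4 : ∀ᶠ s in 𝓝 (0 : ℝ), c s ∈ U := by
          apply hc3.continuousAt.eventually_mem
          rw [hc2]
          exact hU.mem_nhds (hφU r)
        filter_upwards [h4] with s hs
        exact (hz _ hs).1 (hc1 s)
      have h5 : HasDerivAt (f ∘ c) 0 0 := (hasDerivAt_const (0 : ℝ) _).congr_of_eventuallyEq h3
      exact h2.unique h5
    refine ⟨((1 + r.1 ^ 2) * (π v).1 / ε, (1 + r.2 ^ 2) * (π v).2 / ε), ?_⟩
    obtain ⟨-, -, q, hq⟩ := hgood r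
    have hinj : Function.Injective ((fderiv ℝ f (φ r)).prod π) := by
      show Function.Injective ((fderiv ℝ f (e.symm (A r))).prod π)
      rw [← hq]
      exact q.injective
    apply hinj
    rw [hchain]
    have p1 : (1 : ℝ) + r.1 ^ 2 ≠ 0 := by positivity
    have p2 : (1 : ℝ) + r.2 ^ 2 ≠ 0 := by positivity
    show ((0 : EuclideanSpace ℝ (Fin m)), (ε * (1 / (1 + r.1 ^ 2) * ((1 + r.1 ^ 2) * (π v).1 / ε)),
      ε * (1 / (1 + r.2 ^ 2) * ((1 + r.2 ^ 2) * (π v).2 / ε)))) = (fderiv ℝ f (φ r) v, π v)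
    rw [hfv]
    congr 1
    ext
    · show ε * (1 / (1 + r.1 ^ 2) * ((1 + r.1 ^ 2) * (π v).1 / ε)) = (π v).1
      field_simp
    · show ε * (1 / (1 + r.2 ^ 2) * ((1 + r.2 ^ 2) * (π v).2 / ε)) = (π v).2
      field_simp
  · apply Filter.le_map
    intro S hS0
    let ψ : E → ℝ × ℝ := fun x => (Real.tan ((π (x - p)).1 / ε), Real.tan ((π (x - p)).2 / ε))
    have hπc : Continuous fun x => π (x - p) := π.continuous.comp (continuous_id.sub continuous_const)
    have hπ0 : π (p - p) = 0 := by rw [sub_self, map_zero]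
    have htan : ContinuousAt Real.tan 0 := Real.continuousAt_tan.2 (by simp)
    have hψc : Tendsto ψ (𝓝 p) (𝓝 0) := by
      have h1 : Tendsto (fun x => (π (x - p)).1 / ε) (𝓝 p) (𝓝 0) := by
        have := ((continuous_fst.comp hπc).div_const ε).tendsto p
        simpa [hπ0] using this
      have h2 : Tendsto (fun x => (π (x - p)).2 / ε) (𝓝 p) (𝓝 0) := by
        have := ((continuous_snd.comp hπc).div_const ε).tendsto p
        simpa [hπ0] using this
      have ht := htan.tendsto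
      rw [Real.tan_zero] at ht
      exact (ht.comp h1).prodMk_nhds (ht.comp h2)
    have hsmall : ∀ᶠ x in 𝓝 p, |(π (x - p)).1 / ε| < 1 ∧ |(π (x - p)).2 / ε| < 1 := by
      have h1 : ContinuousAt (fun x => |(π (x - p)).1 / ε|) p :=
        (((continuous_fst.comp hπc).div_const ε).abs).continuousAt
      have h2 : ContinuousAt (fun x => |(π (x - p)).2 / ε|) p :=
        (((continuous_snd.comp hπc).div_const ε).abs).continuousAt
      refine (h1.eventually (gt_mem_nhds ?_)).and (h2.eventually (gt_mem_nhds ?_))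
      · show |(π (p - p)).1 / ε| < 1
        rw [hπ0]
        simp
      · show |(π (p - p)).2 / ε| < 1
        rw [hπ0]
        simp
    have hat : ∀ t : ℝ, |t| < 1 → Real.arctan (Real.tan t) = t := by
      intro t ht
      rw [abs_lt] at ht
      have h3 := Real.pi_gt_three
      exact Real.arctan_tan (by linarith) (by linarith)
    rw [mem_nhdsWithin_iff_eventually]
    filter_upwards [hψc.eventually hS0, hsmall, e.open_source.mem_nhds hpe, hU.mem_nhds hpU]
      with x hx1 hx2 hx3 hx4 hxM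
    refine ⟨ψ x, hx1, ?_⟩
    show e.symm (A (ψ x)) = x
    have hAx : A (ψ x) = e x := by
      show ((0 : EuclideanSpace ℝ (Fin m)), (ε * Real.arctan (Real.tan ((π (x - p)).1 / ε)),
        ε * Real.arctan (Real.tan ((π (x - p)).2 / ε)))) = (f x, π (x - p))
      rw [hat _ hx2.1, hat _ hx2.2, (hz x hx4).1 hxM, mul_div_cancel₀ _ hε0.ne',
        mul_div_cancel₀ _ hε0.ne']
    rw [hAx]
    exact e.left_inv hx3


end J_sub_param

alias sub_param := J_sub_param.sub_param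

end Pool.Agent.Helper10.NCP
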