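import Mathlib
import Pool.Agent.Helper10.NCP.Base
import Pool.Agent.Helper10.NCP.Base2
import Pool.Agent.Helper10.NCP.J_sub_param
import Pool.Agent.Helper10.NCP.J_leaf_contra
import Pool.Agent.Helper10.NCP.J_pr_main
import Pool.Agent.Helper10.NCP.J_tan_lin2
import Pool.Agent.Helper10.NCP.J_met_fr

open Set Filter Topology
open scoped RealInnerProductSpace ContDiff

noncomputable section

namespace Pool.Agent.Helper10.NCP

namespace J_robust


-- TARGET: prove this (put auxiliary lemmas between the ASSUMED END line and the theorem)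

theorem robust_imm : Differentiable ℝ imm := by
  rw [differentiable_euclidean]
  intro i
  fin_cases i <;> simp [imm] <;> fun_prop

theorem robust {E : Type} [NormedAddCommGroup E] [NormedSpace ℝ E] [FiniteDimensional ℝ E]
    {M : Set E} (hcpt : IsCompact M) (hcon : IsConnected M) (hM : IsSubmanifold M 2)
    {g₁ : E → E →L[ℝ] E →L[ℝ] ℝ} (hg : ∀ p ∈ M, ∀ v ∈ tangent M p, v ≠ 0 → 0 < g₁ p v v)
    {F : E × ℝ → V × (ℝ × ℝ)} (hF : ContDiff ℝ ∞ F) (hFM : MapsTo F (M ×ˢ univ) (surf ×ˢ circ))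
    (hm : ∀ p ∈ M, ∀ t : ℝ, ∀ v ∈ tangent M p, ∀ r : ℝ,
      ‖fderiv ℝ (imm ∘ F) (p, t) (v, r)‖ ^ 2 = g₁ p v v + r ^ 2) : False := by
  have hp2 : HasParam2 M := sub_param hM
  have hp : HasParam M := by
    intro p hpM
    obtain ⟨φ, h1, h2, h3, h4, h5, h6⟩ := hp2 p hpM
    refine ⟨φ, h1, h2, h3, h4, h5, ?_⟩
    have h7 : Set.range φ ∈ 𝓝[M] p := by
      apply h6
      rw [Filter.mem_map, Set.preimage_range]
      exact Filter.univ_mem
    exact eventually_nhdsWithin_iff.1 h7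
  obtain ⟨k₀, hk, hver⟩ := pr_main hp hcon (fun x _ w hw => tan_lin2 hw) hg hF hFM hm
  have hFd : Differentiable ℝ F := hF.differentiable (by simp)
  have hfd : ∀ (p v : E), fderiv ℝ (fun p => F (p, (0 : ℝ))) p v = fderiv ℝ F (p, 0) (v, 0) := by
    intro p v
    have h1 : HasFDerivAt (fun p : E => (p, (0 : ℝ))) (ContinuousLinearMap.inl ℝ E ℝ) p :=
      hasFDerivAt_prodMk_left p (0 : ℝ)
    have h2 : HasFDerivAt (fun p => F (p, (0 : ℝ)))
        ((fderiv ℝ F (p, 0)).comp (ContinuousLinearMap.inl ℝ E ℝ)) p :=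
      HasFDerivAt.comp p (hFd (p, 0)).hasFDerivAt h1
    rw [h2.fderiv]
    rfl
  refine leaf_contra hcpt hcon hp2 (f := fun p => F (p, (0 : ℝ)))
    (hF.comp (contDiff_id.prodMk contDiff_const)) (fun p hp => hFM ⟨hp, Set.mem_univ _⟩) ?_ ?_
  · intro p hpM v hv
    rw [hfd]
    show ver (F (p, 0)) _ = 0
    rw [hver p hpM 0 v hv 0, mul_zero]
  · intro p hpM v hv hang
    by_contra hne
    rw [hfd] at hang
    have hw : fderiv ℝ F (p, 0) (v, 0) ∈ tangent (surf ×ˢ circ) (F (p, 0)) := by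
      obtain ⟨c, hc1, hc2, hc3⟩ := hv
      refine ⟨fun s => F (c s, 0), fun s => hFM ⟨hc1 s, Set.mem_univ _⟩, ?_, ?_⟩
      · show F (c 0, 0) = _
        rw [hc2]
      · have h1 : HasDerivAt (fun s => (c s, (0 : ℝ))) (v, 0) 0 :=
          hc3.prodMk (hasDerivAt_const (0 : ℝ) (0 : ℝ))
        have h2 : HasFDerivAt F (fderiv ℝ F (p, 0)) (c 0, 0) := by
          rw [hc2]
          exact (hFd (p, 0)).hasFDerivAt
        exact HasFDerivAt.comp_hasDerivAt (0 : ℝ) h2 h1
    have hx : F (p, 0) ∈ surf ×ˢ circ := hFM ⟨hpM, Set.mem_univ _⟩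
    have hL := tan_lin2 hw
    have h3 := hm p hpM 0 v hv 0
    have h4 : fderiv ℝ (imm ∘ F) (p, 0) = (fderiv ℝ imm (F (p, 0))).comp (fderiv ℝ F (p, 0)) :=
      fderiv_comp _ (robust_imm _) (hFd _)
    rw [h4, ContinuousLinearMap.comp_apply, ← real_inner_self_eq_norm_sq, met_fr hx hL hL] at h3
    have h5 : ver (F (p, 0)) (fderiv ℝ F (p, 0) (v, 0)) = 0 := by
      rw [hver p hpM 0 v hv 0, mul_zero]
    have h6 : ∑ k, ang k (F (p, 0)) (fderiv ℝ F (p, 0) (v, 0)) *
        ang k (F (p, 0)) (fderiv ℝ F (p, 0) (v, 0)) = 0 :=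
      Finset.sum_eq_zero fun k _ => by rw [hang k, mul_zero]
    rw [h5, h6] at h3
    have h7 := hg p hpM v hv hne
    simp at h3
    linarith


end J_robust

alias robust := J_robust.robust

end Pool.Agent.Helper10.NCP
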