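import Mathlib
import Pool.Agent.Helper10.NCP.Defs2
import Pool.Agent.Helper10.NCP.Final
import Pool.Agent.Helper10.NCP.J_robust

open Set Filter Topology
open scoped RealInnerProductSpace ContDiff

noncomputable section

namespace Pool.Agent.Helper10.NCP

theorem not_covered : ¬ IsCoveredByProduct (surf ×ˢ circ) imm := by
  rintro ⟨F, i1, i2, i3, N, g₁, π, ⟨hc, hcon, hN⟩, ⟨-, hg⟩, ⟨hπ, hπM⟩, hm⟩
  exact robust hc hcon hN (g₁ := g₁) (fun p hp v hv h0 => (hg p hp v hv).2 h0) hπ hπM hm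

end Pool.Agent.Helper10.NCP
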