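import Mathlib
import Pool.Agent.Helper10.NCP.Base
import Pool.Agent.Helper10.NCP.J_tan_lin

open Set Filter Topology
open scoped RealInnerProductSpace ContDiff

noncomputable section

namespace Pool.Agent.Helper10.NCP

namespace J_eta_closed


-- TARGET: prove this (put auxiliary lemmas between the ASSUMED END line and the theorem)

theorem eta_closed (η : Fin 3 → V → V →L[ℝ] ℝ)
    (hη : ∀ k x v, η k x v = x.1 k * v.2 k - x.2 k * v.1 k) (k : Fin 3) :
    IsClosedForm surf (η k) := by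
  intro x hx
  obtain ⟨a, ha⟩ : ∃ a, a = x.1 k := ⟨_, rfl⟩
  obtain ⟨b, hb⟩ : ∃ b, b = x.2 k := ⟨_, rfl⟩
  have hab : a ^ 2 + b ^ 2 = 1 := by
    rw [ha, hb]
    exact hx.1 k
  have hU : IsOpen {y : V | 0 < a * y.1 k + b * y.2 k} := by
    apply isOpen_lt continuous_const
    fun_prop
  have hcd : ContDiffOn ℝ ∞ (fun y : V => Real.arctan ((a * y.2 k - b * y.1 k) /
      (a * y.1 k + b * y.2 k))) {y : V | 0 < a * y.1 k + b * y.2 k} := by
    apply ContDiffOn.arctan
    apply ContDiffOn.div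
    · apply ContDiff.contDiffOn
      fun_prop
    · apply ContDiff.contDiffOn
      fun_prop
    · intro y hy
      exact (ne_of_gt hy)
  refine ⟨{y : V | 0 < a * y.1 k + b * y.2 k}, fun y => Real.arctan ((a * y.2 k - b * y.1 k) /
      (a * y.1 k + b * y.2 k)), hU, ?_, hcd, ?_⟩
  · show 0 < a * x.1 k + b * x.2 k
    rw [← ha, ← hb]
    nlinarith
  · rintro y ⟨hyM, hyU⟩ v _
    have hc : 0 < a * y.1 k + b * y.2 k := hyU
    have hy1 : y.1 k ^ 2 + y.2 k ^ 2 = 1 := hyM.1 k
    have hdiff : DifferentiableAt ℝ (fun y : V => Real.arctan ((a * y.2 k - b * y.1 k) /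
      (a * y.1 k + b * y.2 k))) y :=
      (hcd.contDiffAt (hU.mem_nhds hyU)).differentiableAt (by simp)
    have hγ : HasDerivAt (fun t : ℝ => y + t • v) v 0 := by
      have h1 : HasDerivAt (fun t : ℝ => t • v) ((1 : ℝ) • v) 0 :=
        (hasDerivAt_id (0 : ℝ)).smul_const v
      rw [one_smul] at h1
      exact h1.const_add y
    have h2 : HasDerivAt (fun t : ℝ => (fun y : V => Real.arctan ((a * y.2 k - b * y.1 k) /
      (a * y.1 k + b * y.2 k))) (y + t • v)) (fderiv ℝ (fun y : V => Real.arctan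
      ((a * y.2 k - b * y.1 k) / (a * y.1 k + b * y.2 k))) y v) 0 := by
      have h3 : HasFDerivAt (fun y : V => Real.arctan ((a * y.2 k - b * y.1 k) /
        (a * y.1 k + b * y.2 k))) (fderiv ℝ (fun y : V => Real.arctan
        ((a * y.2 k - b * y.1 k) / (a * y.1 k + b * y.2 k))) y) (y + (0 : ℝ) • v) := by
        rw [zero_smul, add_zero]
        exact hdiff.hasFDerivAt
      exact h3.comp_hasDerivAt (0 : ℝ) hγ
    have h4 : HasDerivAt (fun t : ℝ => a * (y.2 k + t * v.2 k) - b * (y.1 k + t * v.1 k))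
        (a * v.2 k - b * v.1 k) 0 := by
      have e1 : HasDerivAt (fun t : ℝ => y.2 k + t * v.2 k) (v.2 k) 0 := by
        have := ((hasDerivAt_id (0 : ℝ)).mul_const (v.2 k)).const_add (y.2 k)
        simpa using this
      have e2 : HasDerivAt (fun t : ℝ => y.1 k + t * v.1 k) (v.1 k) 0 := by
        have := ((hasDerivAt_id (0 : ℝ)).mul_const (v.1 k)).const_add (y.1 k)
        simpa using this
      exact (e1.const_mul a).sub (e2.const_mul b)
    have h5 : HasDerivAt (fun t : ℝ => a * (y.1 k + t * v.1 k) + b * (y.2 k + t * v.2 k))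
        (a * v.1 k + b * v.2 k) 0 := by
      have e1 : HasDerivAt (fun t : ℝ => y.2 k + t * v.2 k) (v.2 k) 0 := by
        have := ((hasDerivAt_id (0 : ℝ)).mul_const (v.2 k)).const_add (y.2 k)
        simpa using this
      have e2 : HasDerivAt (fun t : ℝ => y.1 k + t * v.1 k) (v.1 k) 0 := by
        have := ((hasDerivAt_id (0 : ℝ)).mul_const (v.1 k)).const_add (y.1 k)
        simpa using this
      exact (e2.const_mul a).add (e1.const_mul b)
    have hc0 : a * (y.1 k + 0 * v.1 k) + b * (y.2 k + 0 * v.2 k) ≠ 0 := by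
      rw [zero_mul, zero_mul, add_zero, add_zero]
      exact hc.ne'
    have h6 := (h4.div h5 hc0).arctan
    have h7 := h2.unique h6
    rw [h7, hη]
    have hs : (a * y.1 k + b * y.2 k) ^ 2 + (a * y.2 k - b * y.1 k) ^ 2 = 1 := by
      have : (a * y.1 k + b * y.2 k) ^ 2 + (a * y.2 k - b * y.1 k) ^ 2 =
        (a ^ 2 + b ^ 2) * (y.1 k ^ 2 + y.2 k ^ 2) := by ring
      rw [this, hab, hy1, one_mul]
    simp only [Pi.div_apply, zero_mul, add_zero]
    have hne : a * y.1 k + b * y.2 k ≠ 0 := hc.ne'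
    have h8 : 1 + ((a * y.2 k - b * y.1 k) / (a * y.1 k + b * y.2 k)) ^ 2 =
        1 / (a * y.1 k + b * y.2 k) ^ 2 := by
      rw [div_pow, eq_div_iff (pow_ne_zero 2 hne), add_mul, div_mul_cancel₀ _ (pow_ne_zero 2 hne),
        one_mul]
      exact hs
    rw [h8, one_div_one_div, mul_div_cancel₀ _ (pow_ne_zero 2 hne)]
    have h9 : (a * v.2 k - b * v.1 k) * (a * y.1 k + b * y.2 k) -
        (a * y.2 k - b * y.1 k) * (a * v.1 k + b * v.2 k) =
        (a ^ 2 + b ^ 2) * (y.1 k * v.2 k - y.2 k * v.1 k) := by ring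
    rw [h9, hab, one_mul]


end J_eta_closed

alias eta_closed := J_eta_closed.eta_closed

end Pool.Agent.Helper10.NCP
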