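import Mathlib
import Pool.Agent.Helper10.NCP.Base
import Pool.Agent.Helper10.NCP.J_eta_closed

open Set Filter Topology
open scoped RealInnerProductSpace ContDiff

noncomputable section

namespace Pool.Agent.Helper10.NCP

namespace J_surf_betti


-- TARGET: prove this (put auxiliary lemmas between the ASSUMED END line and the theorem)

/-- the angles -/
def betti_th : Fin 3 → ℝ := ![0, Real.pi - Real.pi / 3, Real.pi / 3 + Real.pi]

/-- the loops -/
def betti_ga (σ : Fin 3 → ℝ) (r : ℝ) : V :=
  (fun k => Real.cos (r + betti_th k), fun k => σ k * Real.sin (r + betti_th k))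

theorem betti_sum (r : ℝ) : ∑ k, Real.cos (r + betti_th k) = 0 := by
  rw [Fin.sum_univ_three]
  simp only [betti_th, Matrix.cons_val_zero, Matrix.cons_val_one, Matrix.cons_val]
  rw [Real.cos_add r (Real.pi - Real.pi / 3), Real.cos_add r (Real.pi / 3 + Real.pi),
    Real.cos_pi_sub, Real.sin_pi_sub, Real.cos_add_pi, Real.sin_add_pi, Real.cos_pi_div_three,
    add_zero]
  ring

theorem betti_mem (σ : Fin 3 → ℝ) (hσ : ∀ k, σ k ^ 2 = 1) (r : ℝ) : betti_ga σ r ∈ surf := by
  refine ⟨fun k => ?_, betti_sum r⟩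
  show Real.cos (r + betti_th k) ^ 2 + (σ k * Real.sin (r + betti_th k)) ^ 2 = 1
  rw [mul_pow, hσ, one_mul]
  exact Real.cos_sq_add_sin_sq _

theorem betti_deriv (σ : Fin 3 → ℝ) (r : ℝ) : HasDerivAt (betti_ga σ)
    ((fun k => -Real.sin (r + betti_th k), fun k => σ k * Real.cos (r + betti_th k)) : V) r := by
  apply HasDerivAt.prodMk
  · rw [hasDerivAt_pi]
    intro k
    have h1 := ((hasDerivAt_id r).add_const (betti_th k)).cos
    simpa using h1
  · rw [hasDerivAt_pi]
    intro k
    have h1 := (((hasDerivAt_id r).add_const (betti_th k)).sin).const_mul (σ k)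
    simpa using h1

theorem betti_eta_tangent (σ : Fin 3 → ℝ) (hσ : ∀ k, σ k ^ 2 = 1) (r : ℝ) :
    ((fun k => -Real.sin (r + betti_th k), fun k => σ k * Real.cos (r + betti_th k)) : V) ∈
      tangent surf (betti_ga σ r) := by
  refine ⟨fun s => betti_ga σ (r + s), fun s => betti_mem σ hσ _, by simp, ?_⟩
  have h1 := betti_deriv σ (r + 0)
  have h2 := HasDerivAt.comp_const_add r 0 h1
  simp only [add_zero] at h2
  exact h2

theorem betti_zero (η : Fin 3 → V → V →L[ℝ] ℝ)
    (hη : ∀ k x v, η k x v = x.1 k * v.2 k - x.2 k * v.1 k) (c : Fin 3 → ℝ)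
    (hc : IsExactForm surf (fun x => ∑ i, c i • η i x)) (σ : Fin 3 → ℝ) (hσ : ∀ k, σ k ^ 2 = 1) :
    ∑ k, c k * σ k = 0 := by
  obtain ⟨U, f, hU, hSU, hf, h⟩ := hc
  have h1 : ∀ r, HasDerivAt (fun r => f (betti_ga σ r)) (∑ k, c k * σ k) r := by
    intro r
    have hm := betti_mem σ hσ r
    have hd : DifferentiableAt ℝ f (betti_ga σ r) :=
      (hf.contDiffAt (hU.mem_nhds (hSU hm))).differentiableAt (by simp)
    have h2 := hd.hasFDerivAt.comp_hasDerivAt r (betti_deriv σ r)
    refine h2.congr_deriv ?_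
    rw [← h _ hm _ (betti_eta_tangent σ hσ r)]
    rw [_root_.sum_apply]
    apply Finset.sum_congr rfl
    intro k _
    rw [smul_apply, hη, smul_eq_mul]
    show c k * (Real.cos (r + betti_th k) * (σ k * Real.cos (r + betti_th k)) -
      (σ k * Real.sin (r + betti_th k)) * (-Real.sin (r + betti_th k))) = c k * σ k
    have h3 := Real.cos_sq_add_sin_sq (r + betti_th k)
    linear_combination (c k * σ k) * h3
  have h2 : ∀ r, HasDerivAt (fun r => f (betti_ga σ r) - r * ∑ k, c k * σ k) 0 r := by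
    intro r
    have h3 := (h1 r).sub ((hasDerivAt_id r).mul_const (∑ k, c k * σ k))
    refine h3.congr_deriv ?_
    ring
  have h3 := is_const_of_deriv_eq_zero (fun r => (h2 r).differentiableAt)
    (fun r => (h2 r).deriv) (2 * Real.pi) 0
  have h4 : betti_ga σ (2 * Real.pi) = betti_ga σ 0 := by
    unfold betti_ga
    refine Prod.ext ?_ ?_
    · funext k
      show Real.cos (2 * Real.pi + betti_th k) = Real.cos (0 + betti_th k)
      rw [add_comm, Real.cos_add_two_pi, zero_add]
    · funext k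
      show σ k * Real.sin (2 * Real.pi + betti_th k) = σ k * Real.sin (0 + betti_th k)
      rw [add_comm, Real.sin_add_two_pi, zero_add]
  simp only [h4] at h3
  have h5 : (2 * Real.pi) * ∑ k, c k * σ k = 0 := by linarith
  rcases mul_eq_zero.mp h5 with h6 | h6
  · exact absurd h6 (by positivity)
  · exact h6

theorem surf_betti : BettiAtLeast surf 3 := by
  let η : Fin 3 → V → V →L[ℝ] ℝ := fun k x =>
    x.1 k • (ContinuousLinearMap.proj (R := ℝ) (φ := fun _ : Fin 3 => ℝ) k).comp
      (ContinuousLinearMap.snd ℝ (Fin 3 → ℝ) (Fin 3 → ℝ)) -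
    x.2 k • (ContinuousLinearMap.proj (R := ℝ) (φ := fun _ : Fin 3 => ℝ) k).comp
      (ContinuousLinearMap.fst ℝ (Fin 3 → ℝ) (Fin 3 → ℝ))
  have hη : ∀ k x v, η k x v = x.1 k * v.2 k - x.2 k * v.1 k := fun k x v => rfl
  refine ⟨η, fun k => eta_closed η hη k, fun c hc => ?_⟩
  have h1 := betti_zero η hη c hc (fun _ => 1) (fun _ => by norm_num)
  have h2 := betti_zero η hη c hc ![1, 1, -1] (by
    intro k; fin_cases k <;> simp)
  have h3 := betti_zero η hη c hc ![1, -1, 1] (by
    intro k; fin_cases k <;> simp)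
  rw [Fin.sum_univ_three] at h1 h2 h3
  simp only [Matrix.cons_val_zero, Matrix.cons_val_one, Matrix.cons_val] at h2 h3
  funext k
  fin_cases k
  · show c 0 = 0
    linarith
  · show c 1 = 0
    linarith
  · show c 2 = 0
    linarith


end J_surf_betti

alias surf_betti := J_surf_betti.surf_betti

end Pool.Agent.Helper10.NCP
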